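import Pool.Agent.DL.P.Push

/-!
# DELTA (MP_d362fb_lc): adding facts at the root of a condition
-/

set_option autoImplicit false

namespace Pool.Agent.DL.P

open H5.DL Relation

theorem ren_refl (r : Sys Prom) : r.ren (Equiv.refl ℕ) = r := rfl

theorem IsCond.of_later {r r' : Sys Prom} (h : IsCond r) (hv : Valid Legal r')
    (hl : Later r r') (hJ : r'.J = r.J) : IsCond r' where
  val := hv
  top := by rw [hl.rt, hl.K _ h.val.rt]; exact h.top
  bdd j hj hne := by
    rw [hJ] at hj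
    rw [hl.rt] at hne
    rw [hl.K j hj]
    exact h.bdd j hj hne

theorem IsCond.push {r : Sys Prom} (h : IsCond r) {p : ℕ} (hp : p ∈ r.J)
    {F : Set (Fact Prom)} (hF : Addable Legal r p F) : IsCond (r.push p F) :=
  h.of_later (h.val.push hp hF) (push_step h.val hp hF).later rfl

theorem IsCond.wait {r : Sys Prom} (h : IsCond r) (k : ℕ) : IsCond (r.wait k) :=
  h.of_later (h.val.wait k) ((wait_steps h.val k).later h.val) rfl

theorem IsCond.block {r : Sys Prom} (h : IsCond r) (m : ℕ) {B : ℕ → Set Node}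
    (hB : ∀ p q, r.E p q → ∀ x ∈ (r.Z p q).N, .nd x ∈ r.X p → x ∈ B p → x ∈ B q) :
    IsCond (r.block m B) :=
  h.of_later (h.val.block m hB) (block_step h.val m hB).later rfl

theorem stronger_of_steps {p q : Pos} (h : Steps Legal p.1 q.1) : Stronger q p :=
  ⟨Equiv.refl ℕ, by rw [ren_refl]; exact h⟩

theorem push_stronger (p : Pos) {F : Set (Fact Prom)} (hF : Addable Legal p.1 p.1.rt F) :
    Stronger ⟨p.1.push p.1.rt F, p.2.push p.2.val.rt hF⟩ p :=
  stronger_of_steps (ReflTransGen.single (push_step p.2.val p.2.val.rt hF))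

theorem exists_time (p : Pos) (N : ℕ) : ∃ q : Pos, Steps Legal p.1 q.1 ∧ N ≤ q.1.n :=
  ⟨⟨p.1.wait N, p.2.wait N⟩, wait_steps p.2.val N, Nat.le_add_left _ _⟩

/-- add two nodes with a token and a promise at the root -/
theorem exists_nodes (p : Pos) (x y : Node) (φ : Prom) (hφ : Legal φ) :
    ∃ q : Pos, Steps Legal p.1 q.1 ∧ .nd x ∈ q.1.X q.1.rt ∧ .nd y ∈ q.1.X q.1.rt ∧
      .ds x y ∈ q.1.X q.1.rt ∧ .pr φ ∈ q.1.X q.1.rt := by
  obtain ⟨F, hFd⟩ : ∃ F : Set (Fact Prom), F = Fact.nd '' ({x, y} : Set Node) ∪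
      (fun t : Node × Node => Fact.ds t.1 t.2) '' ({(x, y)} : Set (Node × Node)) := ⟨_, rfl⟩
  have h1 : Addable Legal p.1 p.1.rt F := by
    rw [hFd]
    exact addable_nodes p.1.rt (Set.toFinite _) (Set.toFinite _) (by
      rintro t ht
      rw [Set.mem_singleton_iff] at ht
      subst ht
      exact ⟨Or.inl rfl, Or.inr rfl⟩)
  have hp1 := p.2.push p.2.val.rt h1
  have h2 : Addable Legal (p.1.push p.1.rt F) p.1.rt {.pr φ} :=
    addable_prom (r := p.1.push p.1.rt F) p.1.rt hφ (by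
      show φ.lab ∈ p.1.K p.1.rt
      rw [p.2.top]
      exact trivial)
  refine ⟨⟨(p.1.push p.1.rt F).push p.1.rt {.pr φ}, hp1.push p.2.val.rt h2⟩,
    (ReflTransGen.single (push_step p.2.val p.2.val.rt h1)).tail
      (push_step hp1.val p.2.val.rt h2), ?_, ?_, ?_, ?_⟩
  · exact Or.inl (mem_push_self.2 (Or.inr (by rw [hFd]; exact Or.inl ⟨x, Or.inl rfl, rfl⟩)))
  · exact Or.inl (mem_push_self.2 (Or.inr (by rw [hFd]; exact Or.inl ⟨y, Or.inr rfl, rfl⟩)))
  · exact Or.inl (mem_push_self.2 (Or.inr (by rw [hFd]; exact Or.inr ⟨(x, y), rfl, rfl⟩)))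
  · exact mem_push_self.2 (Or.inr rfl)

/-- block a position at a node of the root -/
theorem exists_block (p : Pos) (y : Node) (hy : .nd y ∈ p.1.X p.1.rt) (m : ℕ) :
    ∃ q : Pos, Steps Legal p.1 q.1 ∧ .bl y m ∈ q.1.X q.1.rt ∧
      ∀ x k v, .it x k v ∈ q.1.X q.1.rt → .it x k v ∈ p.1.X p.1.rt := by
  have h1 : Addable Legal p.1 p.1.rt {.bl y m} := addable_block p.1.rt hy
  refine ⟨⟨p.1.push p.1.rt {.bl y m}, p.2.push p.2.val.rt h1⟩,
    ReflTransGen.single (push_step p.2.val p.2.val.rt h1), mem_push_self.2 (Or.inr rfl), ?_⟩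
  intro x k v h
  rcases mem_push_self.1 h with h | h
  · exact h
  · cases h

/-- the empty condition -/
def cond0 : Sys Prom where
  n := 0
  rt := 0
  J := {0}
  E := fun _ _ => False
  K := fun _ => Set.univ
  Z := fun _ _ => Fr.emp
  X := fun _ => ∅

theorem isCond_cond0 : IsCond cond0 where
  val :=
    { fin := Set.finite_singleton 0
      rt := rfl
      Es := fun _ _ h => h
      EJ := fun _ _ h => h.elim
      forest := fun _ hb => ⟨fun _ => 0, fun _ hv hne => (hne (hv.trans hb.symm)).elim,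
        fun _ _ h => h.elim, fun _ _ _ h => h.elim⟩
      low := fun _ _ _ _ _ _ => trivial
      symZ := fun _ _ => rfl
      good := fun _ _ h => h.elim
      nX := fun _ _ => rfl
      nZ := fun _ _ _ => rfl
      val := fun _ _ => ⟨Set.finite_empty, fun _ _ _ h => h.elim, fun _ _ h => h.elim,
        fun _ _ h => h.elim, fun _ _ h => h.elim, fun _ _ _ _ h => h.elim, fun _ h => h.elim⟩
      adm := fun _ _ h => h.elim
      sh := fun _ _ h => h.elim }
  top := rfl
  bdd := fun _ hj hne => (hne hj).elim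

instance : Nonempty Pos := ⟨⟨cond0, isCond_cond0⟩⟩

/-- only finitely many positions are blocked in a valid system -/
theorem Valid.exists_free {Lg : Prom → Prop} {r : Sys Prom} (h : Valid Lg r) :
    ∃ N : ℕ, ∀ m, N ≤ m → ∀ j x, .bl x m ∉ r.X j := by
  have h1 : (⋃ j ∈ r.J, (fun f : Fact Prom => match f with
      | .bl _ m => m
      | _ => 0) '' r.X j).Finite :=
    h.fin.biUnion fun j hj => (h.val j hj).fin.image _
  obtain ⟨N, hN⟩ := h1.bddAbove
  refine ⟨N + 1, fun m hm j x hx => ?_⟩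
  have hj : j ∈ r.J := by
    by_contra hj
    rw [h.nX j hj] at hx
    exact hx
  have h2 : m ≤ N := hN (Set.mem_biUnion hj ⟨_, hx, rfl⟩)
  omega

end Pool.Agent.DL.P
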