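import Pool.Agent.DL.P.Res

/-!
# DELTA: Lemma R. The least closed family along a sequence of steps
-/

set_option autoImplicit false

namespace Pool.Agent.DL.P

open H5.DL

/-! ### growth along steps -/

/-- what is preserved by a step -/
structure Mono (r r' : Sys Prom) : Prop where
  n : r.n ≤ r'.n
  rt : r'.rt = r.rt
  J : r.J ⊆ r'.J
  E : ∀ p ∈ r.J, ∀ q ∈ r.J, r'.E p q ↔ r.E p q
  K : ∀ j ∈ r.J, r'.K j = r.K j
  Z : ∀ p q, r.E p q → r'.Z p q = r.Z p q
  X : ∀ j ∈ r.J, r.X j ⊆ r'.X j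

theorem Mono.refl (r : Sys Prom) : Mono r r :=
  ⟨le_rfl, rfl, subset_rfl, fun _ _ _ _ => Iff.rfl, fun _ _ => rfl, fun _ _ _ => rfl,
    fun _ _ => subset_rfl⟩

theorem Mono.trans {a b c : Sys Prom} (ha : ∀ p q, a.E p q → p ∈ a.J) (has : ∀ p q, a.E p q → a.E q p)
    (h : Mono a b) (h' : Mono b c) : Mono a c where
  n := h.n.trans h'.n
  rt := h'.rt.trans h.rt
  J := h.J.trans h'.J
  E p hp q hq := (h'.E p (h.J hp) q (h.J hq)).trans (h.E p hp q hq)
  K j hj := (h'.K j (h.J hj)).trans (h.K j hj)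
  Z p q hE := (h'.Z p q ((h.E p (ha p q hE) q (ha q p (has p q hE))).2 hE)).trans (h.Z p q hE)
  X j hj := (h.X j hj).trans (h'.X j (h.J hj))

theorem Ext.mono {r r' : Sys Prom} (h : Ext r r') : Mono r r' :=
  ⟨h.n.ge, h.rt, h.J, h.E, h.K, h.Z, fun j hj => (h.X j hj).sub⟩

theorem Time.mono {r r' : Sys Prom} {m : ℕ} {C : ℕ → Set Node} (h : Time r r' m C) :
    Mono r r' where
  n := by rw [h.n]; exact Nat.le_succ _
  rt := h.rt
  J := h.J.ge
  E p _ q _ := by rw [h.E]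
  K j _ := by rw [h.K]
  Z p q _ := by rw [h.Z]
  X j _ f hf := (h.X j f).2 (Or.inl hf)

theorem Step.mono {Lg : Prom → Prop} {r r' : Sys Prom} (h : Step Lg r r') : Mono r r' := by
  rcases h.2 with h | ⟨m, C, h⟩
  · exact h.mono
  · exact h.mono

/-- new released positions are justified -/
theorem Step.just {Lg : Prom → Prop} {r r' : Sys Prom} (h : Step Lg r r') (j : ℕ) (hj : j ∈ r.J)
    (φ : Prom) (hφ : .pr φ ∈ r.X j) (m : ℕ) (h1 : .rl φ m ∈ r'.X j) (h2 : .rl φ m ∉ r.X j) :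
    ∃ e ρ, Ev φ m e ∧ Emb e r' r.J j ρ := by
  rcases h.2 with h | ⟨m', C, h⟩
  · exact h.rel j hj φ hφ m h1 h2
  · rcases (h.X j _).1 h1 with h3 | ⟨x, -, h3 | h3⟩
    · exact absurd h3 h2
    · cases h3
    · cases h3

/-! ### sequences -/

/-- a sequence of `t` steps -/
structure IsSeq (Lg : Prom → Prop) (r : ℕ → Sys Prom) (t : ℕ) : Prop where
  v0 : Valid Lg (r 0)
  st : ∀ i < t, Step Lg (r i) (r (i + 1))

theorem IsSeq.val {Lg : Prom → Prop} {r : ℕ → Sys Prom} {t : ℕ} (h : IsSeq Lg r t) (i : ℕ)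
    (hi : i ≤ t) : Valid Lg (r i) := by
  cases i with
  | zero => exact h.v0
  | succ i => exact (h.st i hi).1

theorem IsSeq.mono {Lg : Prom → Prop} {r : ℕ → Sys Prom} {t : ℕ} (h : IsSeq Lg r t) (i k : ℕ)
    (hi : i ≤ k) (hk : k ≤ t) : Mono (r i) (r k) := by
  induction k, hi using Nat.le_induction with
  | base => exact Mono.refl _
  | succ k hik ih =>
    have hv := h.val i (hik.trans (Nat.le_of_succ_le hk))
    exact (ih (Nat.le_of_succ_le hk)).trans hv.EJ hv.Es (h.st k hk).mono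

/-- a finite chain is a sequence -/
theorem exists_seq {α : Type} {R : α → α → Prop} {a b : α} (h : Relation.ReflTransGen R a b) :
    ∃ (r : ℕ → α) (t : ℕ), r 0 = a ∧ r t = b ∧ ∀ i < t, R (r i) (r (i + 1)) := by
  classical
  induction h with
  | refl => exact ⟨fun _ => a, 0, rfl, rfl, fun i hi => absurd hi (Nat.not_lt_zero _)⟩
  | @tail b c hab hbc ih =>
    obtain ⟨r, t, h0, ht, hs⟩ := ih
    refine ⟨fun i => if i ≤ t then r i else c, t + 1, ?_, ?_, fun i hi => ?_⟩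
    · simp [h0]
    · simp
    · rcases Nat.lt_or_ge i t with h1 | h1
      · have h2 : i ≤ t := h1.le
        have h3 : i + 1 ≤ t := h1
        simp only [h2, h3, if_true]
        exact hs i h1
      · have h2 : i = t := le_antisymm (Nat.le_of_lt_succ hi) h1
        subst h2
        simp only [le_refl, if_true, Nat.succ_le_iff, lt_irrefl, if_false, ht]
        exact hbc

/-- a sequence gives a finite chain -/
theorem chain_of_seq {α : Type} {R : α → α → Prop} (r : ℕ → α) (t : ℕ)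
    (hs : ∀ i < t, R (r i) (r (i + 1))) : Relation.ReflTransGen R (r 0) (r t) := by
  induction t with
  | zero => exact Relation.ReflTransGen.refl
  | succ t ih =>
    exact (ih fun i hi => hs i (hi.trans (Nat.lt_succ_self t))).tail (hs t (Nat.lt_succ_self t))

/-! ### kept things -/

/-- things -/
inductive Item : Type
  | c (j : ℕ) : Item
  | x (j : ℕ) (x : Node) : Item
  | q (j : ℕ) (φ : Prom) : Item

/-- the promise `φ` is released at `m` in the component `j` at step `i` of the sequence -/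
structure Rls (r : ℕ → Sys Prom) (t i j : ℕ) (φ : Prom) (m : ℕ) : Prop where
  lt : i < t
  mem : j ∈ (r i).J
  pr : .pr φ ∈ (r i).X j
  rl : .rl φ m ∈ (r (i + 1)).X j
  nrl : .rl φ m ∉ (r i).X j

/-- the least closed family: contains everything of `r 0`, the target `T`, the chosen events of the
releases of kept promises, and is closed under sharing -/
inductive Kept (r : ℕ → Sys Prom) (t : ℕ) (ev : ℕ → ℕ → Prom → ℕ → Sys Prom)
    (rho : ℕ → ℕ → Prom → ℕ → ℕ → ℕ) (T : Item → Prop) : Item → Prop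
  | base_c (j : ℕ) : j ∈ (r 0).J → Kept r t ev rho T (.c j)
  | base_x (j : ℕ) (x : Node) : .nd x ∈ (r 0).X j → Kept r t ev rho T (.x j x)
  | base_q (j : ℕ) (φ : Prom) : .pr φ ∈ (r 0).X j → Kept r t ev rho T (.q j φ)
  | tgt (i : Item) : T i → Kept r t ev rho T i
  | ev_c (i j : ℕ) (φ : Prom) (m a : ℕ) : Rls r t i j φ m → Kept r t ev rho T (.c j) →
      Kept r t ev rho T (.q j φ) → a ∈ (ev i j φ m).J → Kept r t ev rho T (.c (rho i j φ m a))
  | ev_x (i j : ℕ) (φ : Prom) (m a : ℕ) (x : Node) : Rls r t i j φ m →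
      Kept r t ev rho T (.c j) → Kept r t ev rho T (.q j φ) → a ∈ (ev i j φ m).J →
      .nd x ∈ (ev i j φ m).X a → Kept r t ev rho T (.x (rho i j φ m a) x)
  | ev_q (i j : ℕ) (φ : Prom) (m a : ℕ) (ψ : Prom) : Rls r t i j φ m →
      Kept r t ev rho T (.c j) → Kept r t ev rho T (.q j φ) → a ∈ (ev i j φ m).J →
      .pr ψ ∈ (ev i j φ m).X a → Kept r t ev rho T (.q (rho i j φ m a) ψ)
  | sh_x (p q : ℕ) (x : Node) : (r t).E p q → Kept r t ev rho T (.c p) →
      Kept r t ev rho T (.c q) → x ∈ ((r t).Z p q).N → Kept r t ev rho T (.x p x) →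
      Kept r t ev rho T (.x q x)
  | sh_q (p q : ℕ) (φ : Prom) : (r t).E p q → Kept r t ev rho T (.c p) →
      Kept r t ev rho T (.c q) → φ ∈ ((r t).Z p q).Q → Kept r t ev rho T (.q p φ) →
      Kept r t ev rho T (.q q φ)

/-- the family of the kept things -/
def keptFam (r : ℕ → Sys Prom) (t : ℕ) (ev : ℕ → ℕ → Prom → ℕ → Sys Prom)
    (rho : ℕ → ℕ → Prom → ℕ → ℕ → ℕ) (T : Item → Prop) : Fam where
  c j := Kept r t ev rho T (.c j)
  x j x := Kept r t ev rho T (.x j x)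
  q j φ := Kept r t ev rho T (.q j φ)

/-- the chosen events justify the releases -/
def JustBy (r : ℕ → Sys Prom) (t : ℕ) (ev : ℕ → ℕ → Prom → ℕ → Sys Prom)
    (rho : ℕ → ℕ → Prom → ℕ → ℕ → ℕ) : Prop :=
  ∀ i j φ m, Rls r t i j φ m →
    Ev φ m (ev i j φ m) ∧ Emb (ev i j φ m) (r (i + 1)) (r i).J j (rho i j φ m)

theorem exists_just {Lg : Prom → Prop} {r : ℕ → Sys Prom} {t : ℕ} (h : IsSeq Lg r t) :
    ∃ ev rho, JustBy r t ev rho := by
  classical
  have h1 : ∀ i j φ m, ∃ (e : Sys Prom) (ρ : ℕ → ℕ), Rls r t i j φ m →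
      Ev φ m e ∧ Emb e (r (i + 1)) (r i).J j ρ := by
    intro i j φ m
    by_cases hr : Rls r t i j φ m
    · obtain ⟨e, ρ, h1, h2⟩ := (h.st i hr.lt).just j hr.mem φ hr.pr m hr.rl hr.nrl
      exact ⟨e, ρ, fun _ => ⟨h1, h2⟩⟩
    · exact ⟨r 0, id, fun h => absurd h hr⟩
  choose ev rho h2 using h1
  exact ⟨ev, rho, h2⟩

/-- targets at the root -/
structure RootT (r : Sys Prom) (T : Item → Prop) : Prop where
  c : ∀ j, ¬ T (.c j)
  x : ∀ j x, T (.x j x) → j = r.rt ∧ .nd x ∈ r.X j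
  q : ∀ j φ, T (.q j φ) → j = r.rt ∧ .pr φ ∈ r.X j

/-- a fact is supported by the nodes and promises of `X` -/
def Fact.Supp (X : Set (Fact Prom)) : Fact Prom → Prop
  | .nd x => .nd x ∈ X
  | .it x _ _ => .nd x ∈ X
  | .bl x _ => .nd x ∈ X
  | .ds x y => .nd x ∈ X ∧ .nd y ∈ X
  | .pr φ => .pr φ ∈ X
  | .rl φ _ => .pr φ ∈ X

theorem ValX.supp {Lg : Prom → Prop} {n : ℕ} {K : Set D} {X : Set (Fact Prom)}
    (h : ValX Lg n K X) {f : Fact Prom} (hf : f ∈ X) : f.Supp X := by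
  cases f with
  | nd x => exact hf
  | it x m v => exact h.blx x m (h.itb x m v hf).1
  | bl x m => exact h.blx x m hf
  | ds x y => exact h.dsx x y hf
  | pr ψ => exact hf
  | rl ψ m => exact h.rlx ψ m hf

/-- events of legal promises -/
theorem okEv {φ : Prom} (h : Legal φ) {m : ℕ} {e : Sys Prom} (he : Ev φ m e) :
    EvOK (fun ψ => Ll ψ.lab φ.lab ∧ Legal ψ) φ.lab e := by
  obtain ⟨Z, -, -, -, h1⟩ := ((legal_iff φ).1 h).fr
  exact (h1 m e he).1

section

variable {Lg : Prom → Prop} {r : ℕ → Sys Prom} {t : ℕ}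
  {ev : ℕ → ℕ → Prom → ℕ → Sys Prom} {rho : ℕ → ℕ → Prom → ℕ → ℕ → ℕ} {T : Item → Prop}

theorem mem_J_of_nd {Lg : Prom → Prop} {r : Sys Prom} (h : Valid Lg r) {j : ℕ} {f : Fact Prom}
    (hf : f ∈ r.X j) : j ∈ r.J := by
  by_contra hj
  rw [h.nX j hj] at hf
  exact hf

/-- kept things are in the last system -/
theorem kept_real (hs : IsSeq Lg r t) (hj : JustBy r t ev rho) (hT : RootT (r t) T) :
    ∀ i, Kept r t ev rho T i → match i with
      | .c j => j ∈ (r t).J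
      | .x j x => j ∈ (r t).J ∧ Kept r t ev rho T (.c j) ∧ .nd x ∈ (r t).X j
      | .q j φ => j ∈ (r t).J ∧ Kept r t ev rho T (.c j) ∧ .pr φ ∈ (r t).X j := by
  have hM := hs.mono 0 t (Nat.zero_le t) le_rfl
  have hrt0 : (r t).rt = (r 0).rt := hM.rt
  have hev : ∀ i j φ m a, Rls r t i j φ m → a ∈ (ev i j φ m).J →
      rho i j φ m a ∈ (r t).J ∧ ∀ f ∈ (ev i j φ m).X a, f ∈ (r t).X (rho i j φ m a) := by
    intro i j φ m a hr ha
    have hE := (hj i j φ m hr).2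
    have hM' := hs.mono (i + 1) t hr.lt le_rfl
    have h1 := hE.J a ha
    exact ⟨hM'.J h1, fun f hf => hM'.X _ h1 ((hE.X a ha).sub hf)⟩
  intro i hi
  induction hi with
  | base_c j h => exact hM.J h
  | base_x j x h =>
    have h1 := mem_J_of_nd hs.v0 h
    exact ⟨hM.J h1, .base_c j h1, hM.X j h1 h⟩
  | base_q j φ h =>
    have h1 := mem_J_of_nd hs.v0 h
    exact ⟨hM.J h1, .base_c j h1, hM.X j h1 h⟩
  | tgt i h =>
    have hc : ∀ j, j = (r t).rt → j ∈ (r t).J ∧ Kept r t ev rho T (.c j) := by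
      intro j hj'
      refine ⟨hj' ▸ (hs.val t le_rfl).rt, .base_c j ?_⟩
      rw [hj', hrt0]
      exact hs.v0.rt
    cases i with
    | c j => exact absurd h (hT.c j)
    | x j x =>
      obtain ⟨h1, h2⟩ := hT.x j x h
      exact ⟨(hc j h1).1, (hc j h1).2, h2⟩
    | q j φ =>
      obtain ⟨h1, h2⟩ := hT.q j φ h
      exact ⟨(hc j h1).1, (hc j h1).2, h2⟩
  | ev_c i j φ m a hr _ _ ha _ _ => exact (hev i j φ m a hr ha).1
  | ev_x i j φ m a x hr h1 h2 ha hx _ _ =>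
    exact ⟨(hev i j φ m a hr ha).1, .ev_c i j φ m a hr h1 h2 ha, (hev i j φ m a hr ha).2 _ hx⟩
  | ev_q i j φ m a ψ hr h1 h2 ha hx _ _ =>
    exact ⟨(hev i j φ m a hr ha).1, .ev_c i j φ m a hr h1 h2 ha, (hev i j φ m a hr ha).2 _ hx⟩
  | sh_x p q x hE hp hq hx hk _ ih2 ih3 =>
    exact ⟨ih2, hq, (hs.val t le_rfl).sh p q hE (.nd x) hx ih3.2.2⟩
  | sh_q p q φ hE hp hq hx hk _ ih2 ih3 =>
    exact ⟨ih2, hq, (hs.val t le_rfl).sh p q hE (.pr φ) hx ih3.2.2⟩

theorem kept_full : (keptFam r t ev rho T).Full (r 0) :=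
  ⟨fun j h => .base_c j h, fun j x h => .base_x j x h, fun j φ h => .base_q j φ h⟩

theorem kept_sh (hs : IsSeq Lg r t) (i : ℕ) (hi : i ≤ t) :
    (keptFam r t ev rho T).Sh (r i) := by
  have hM := hs.mono i t hi le_rfl
  have hv := hs.val i hi
  constructor
  · intro p q hE hp hq x hx _ hk
    refine .sh_x p q x ((hM.E p (hv.EJ p q hE) q (hv.EJ q p (hv.Es p q hE))).2 hE) hp hq ?_ hk
    rw [hM.Z p q hE]
    exact hx
  · intro p q hE hp hq x hx _ hk
    refine .sh_q p q x ((hM.E p (hv.EJ p q hE) q (hv.EJ q p (hv.Es p q hE))).2 hE) hp hq ?_ hk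
    rw [hM.Z p q hE]
    exact hx

theorem Rls.leg {i j : ℕ} {φ : Prom} {m : ℕ} (hs : IsSeq Lg r t) (hr : Rls r t i j φ m) :
    Lg φ :=
  ((hs.val i hr.lt.le).val j hr.mem).leg φ hr.pr |>.1

theorem kept_rel (hLg : ∀ φ, Lg φ → Legal φ) (hs : IsSeq Lg r t) (hj : JustBy r t ev rho)
    (i : ℕ) (hi : i < t) : (keptFam r t ev rho T).Rel (r i) (r (i + 1)) := by
  intro j hjJ hc φ hq hφ m h1 h2
  have hr : Rls r t i j φ m := ⟨hi, hjJ, hφ, h1, h2⟩
  obtain ⟨he, hemb⟩ := hj i j φ m hr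
  have hev := okEv (hLg φ (hr.leg hs)) he
  refine ⟨_, _, he, hemb, fun a ha => ⟨.ev_c i j φ m a hr hc hq ha, fun f hf => ?_⟩⟩
  have h3 := (hev.val.val a ha).supp hf
  cases f with
  | nd x => exact .ev_x i j φ m a x hr hc hq ha h3
  | it x _ _ => exact .ev_x i j φ m a x hr hc hq ha h3
  | bl x _ => exact .ev_x i j φ m a x hr hc hq ha h3
  | ds x y => exact ⟨.ev_x i j φ m a x hr hc hq ha h3.1, .ev_x i j φ m a y hr hc hq ha h3.2⟩
  | pr ψ => exact .ev_q i j φ m a ψ hr hc hq ha h3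
  | rl ψ _ => exact .ev_q i j φ m a ψ hr hc hq ha h3

/-- LEMMA R: the restriction of a sequence of steps to the kept things is a sequence of steps -/
theorem kept_seq (hLg : ∀ φ, Lg φ → Legal φ) (hs : IsSeq Lg r t) (hj : JustBy r t ev rho) :
    IsSeq Lg (fun i => (r i).res (keptFam r t ev rho T)) t := by
  have hrt : ∀ i ≤ t, (keptFam r t ev rho T).c (r i).rt := by
    intro i hi
    rw [(hs.mono 0 i (Nat.zero_le i) hi).rt]
    exact .base_c _ hs.v0.rt
  exact ⟨res_valid hs.v0 (hrt 0 (Nat.zero_le t)) (kept_sh hs 0 (Nat.zero_le t)),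
    fun i hi => res_step (hs.st i hi) (hrt (i + 1) hi) (kept_sh hs i hi.le)
      (kept_sh hs (i + 1) hi) (kept_rel hLg hs hj i hi) (fun j φ m e hφ he a b hab => by
        have hjJ := mem_J_of_nd (hs.val i hi.le) hφ
        have h1 := okEv (hLg φ (((hs.val i hi.le).val j hjJ).leg φ hφ).1) he
        exact ⟨h1.val.EJ a b hab, h1.val.EJ b a (h1.val.Es a b hab)⟩)⟩

theorem kept_zero (hs : IsSeq Lg r t) : (r 0).res (keptFam r t ev rho T) = r 0 :=
  res_full hs.v0 kept_full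

/-- where kept components come from -/
theorem kept_origin (hj : JustBy r t ev rho) (hT : RootT (r t) T) (j : ℕ)
    (h : Kept r t ev rho T (.c j)) : j ∈ (r 0).J ∨ ∃ i j' φ m a, Rls r t i j' φ m ∧
      Kept r t ev rho T (.c j') ∧ Kept r t ev rho T (.q j' φ) ∧ a ∈ (ev i j' φ m).J ∧
      a ≠ (ev i j' φ m).rt ∧ j = rho i j' φ m a := by
  generalize hi : Item.c j = i at h
  induction h generalizing j with
  | base_c j' h => cases hi; exact Or.inl h
  | base_x j' x h => cases hi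
  | base_q j' φ h => cases hi
  | tgt i' h => subst hi; exact absurd h (hT.c j)
  | ev_c i' j' φ m a hr h1 h2 ha ih1 _ =>
    cases hi
    by_cases har : a = (ev i' j' φ m).rt
    · subst har
      rw [(hj i' j' φ m hr).2.rt]
      exact ih1 j' rfl
    · exact Or.inr ⟨i', j', φ, m, a, hr, h1, h2, ha, har, rfl⟩
  | ev_x => cases hi
  | ev_q => cases hi
  | sh_x => cases hi
  | sh_q => cases hi

/-- edges between kept components: old, or edges of an event -/
theorem kept_edge (hLg : ∀ φ, Lg φ → Legal φ) (hs : IsSeq Lg r t) (hj : JustBy r t ev rho)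
    (hT : RootT (r t) T) (p q : ℕ) (hE : (r t).E p q) (hp : Kept r t ev rho T (.c p))
    (hq : Kept r t ev rho T (.c q)) :
    (p ∈ (r 0).J ∧ q ∈ (r 0).J) ∨ ∃ i j φ m a b, Rls r t i j φ m ∧
      Kept r t ev rho T (.c j) ∧ Kept r t ev rho T (.q j φ) ∧ (ev i j φ m).E a b ∧
      p = rho i j φ m a ∧ q = rho i j φ m b ∧ (r t).Z p q = (ev i j φ m).Z a b := by
  have key : ∀ p q, (r t).E p q → (∃ i j φ m a, Rls r t i j φ m ∧
      Kept r t ev rho T (.c j) ∧ Kept r t ev rho T (.q j φ) ∧ a ∈ (ev i j φ m).J ∧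
      a ≠ (ev i j φ m).rt ∧ p = rho i j φ m a ∧ q ∈ (r (i + 1)).J) →
      ∃ i j φ m a b, Rls r t i j φ m ∧
      Kept r t ev rho T (.c j) ∧ Kept r t ev rho T (.q j φ) ∧ (ev i j φ m).E a b ∧
      p = rho i j φ m a ∧ q = rho i j φ m b ∧ (r t).Z p q = (ev i j φ m).Z a b := by
    rintro p q hE ⟨i, j, φ, m, a, hr, h1, h2, ha, har, hpa, hq⟩
    have hemb := (hj i j φ m hr).2
    have hpJ : p ∈ (r (i + 1)).J := by rw [hpa]; exact hemb.J a ha
    have hM := hs.mono (i + 1) t hr.lt le_rfl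
    have hE1 : (r (i + 1)).E p q := (hM.E p hpJ q hq).1 hE
    rw [hpa] at hE1
    obtain ⟨b, hab, hqb⟩ := hemb.E' a ha har q hE1
    refine ⟨i, j, φ, m, a, b, hr, h1, h2, hab, hpa, hqb, ?_⟩
    rw [hM.Z p q ((hM.E p hpJ q hq).1 hE), hpa, hqb, hemb.Z a b hab]
  have hvt := hs.val t le_rfl
  have symc : ∀ p q, (∃ i j φ m a b, Rls r t i j φ m ∧
      Kept r t ev rho T (.c j) ∧ Kept r t ev rho T (.q j φ) ∧ (ev i j φ m).E a b ∧
      q = rho i j φ m a ∧ p = rho i j φ m b ∧ (r t).Z q p = (ev i j φ m).Z a b) →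
      ∃ i j φ m a b, Rls r t i j φ m ∧
      Kept r t ev rho T (.c j) ∧ Kept r t ev rho T (.q j φ) ∧ (ev i j φ m).E a b ∧
      p = rho i j φ m a ∧ q = rho i j φ m b ∧ (r t).Z p q = (ev i j φ m).Z a b := by
    rintro p q ⟨i, j, φ, m, a, b, hr, h1, h2, h3, h4, h5, h6⟩
    have hv := okEv (hLg φ (hr.leg hs)) (hj i j φ m hr).1
    exact ⟨i, j, φ, m, b, a, hr, h1, h2, hv.val.Es a b h3, h5, h4, by
      rw [hvt.symZ p q, h6, hv.val.symZ a b]⟩
  rcases kept_origin hj hT p hp with h1 | ⟨i, j, φ, m, a, hr, h1, h2, ha, har, hpa⟩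
  · rcases kept_origin hj hT q hq with h2 | ⟨i', j', φ', m', a', hr', h1', h2', ha', har', hqa⟩
    · exact Or.inl ⟨h1, h2⟩
    · refine Or.inr (symc p q (key q p (hvt.Es p q hE) ⟨i', j', φ', m', a', hr', h1', h2', ha',
        har', hqa, ?_⟩))
      exact (hs.mono 0 (i' + 1) (Nat.zero_le _) hr'.lt).J h1
  · refine Or.inr ?_
    by_cases hqJ : q ∈ (r (i + 1)).J
    · exact key p q hE ⟨i, j, φ, m, a, hr, h1, h2, ha, har, hpa, hqJ⟩
    · rcases kept_origin hj hT q hq with h3 | ⟨i', j', φ', m', a', hr', h1', h2', ha', har', hqa⟩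
      · exact absurd ((hs.mono 0 (i + 1) (Nat.zero_le _) hr.lt).J h3) hqJ
      · have hqJ' : q ∈ (r (i' + 1)).J := by rw [hqa]; exact (hj i' j' φ' m' hr').2.J a' ha'
        have hii : i + 1 ≤ i' + 1 := by
          by_contra hc
          push Not at hc
          exact hqJ ((hs.mono (i' + 1) (i + 1) hc.le hr.lt).J hqJ')
        have hpJ : p ∈ (r (i + 1)).J := by rw [hpa]; exact (hj i j φ m hr).2.J a ha
        exact symc p q (key q p (hvt.Es p q hE) ⟨i', j', φ', m', a', hr', h1', h2', ha', har',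
          hqa, (hs.mono (i + 1) (i' + 1) hii hr'.lt).J hpJ⟩)

end

end Pool.Agent.DL.P
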