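import Pool.Agent.DL.P.Kept

/-!
# DELTA: Lemma R in the form used for Lemma V
-/

set_option autoImplicit false

namespace Pool.Agent.DL.P

open H5.DL

section

variable {Lg : Prom → Prop} {r : ℕ → Sys Prom} {t : ℕ}
  {ev : ℕ → ℕ → Prom → ℕ → Sys Prom} {rho : ℕ → ℕ → Prom → ℕ → ℕ → ℕ} {T : Item → Prop}

/-- a node of an event is adjacent to an old component only through the root of the event -/
theorem emb_old {e r' : Sys Prom} {J0 : Set ℕ} {j : ℕ} {ρ : ℕ → ℕ} (h : Emb e r' J0 j ρ)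
    (hE : ∀ a b, e.E a b → b ∈ e.J) {a : ℕ} (ha : a ∈ e.J) (har : a ≠ e.rt) {w : ℕ} (hw : w ∈ J0)
    (hEw : r'.E (ρ a) w) : w = j ∧ e.E a e.rt := by
  obtain ⟨b, hab, hwb⟩ := h.E' a ha har w hEw
  by_cases hb : b = e.rt
  · subst hb
    exact ⟨hwb.trans h.rt, hab⟩
  · exact absurd (hwb ▸ hw) (h.new b (hE a b hab) hb)

/-- invariants of the kept things at the old components -/
theorem kept_inv (hLg : ∀ φ, Lg φ → Legal φ) (hs : IsSeq Lg r t) (hj : JustBy r t ev rho)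
    (hT : RootT (r t) T) (WN : ℕ → Set Node) (WQ : ℕ → Set Prom)
    (c0x : ∀ j ∈ (r 0).J, ∀ y, .nd y ∈ (r 0).X j → y ∈ WN j)
    (c0q : ∀ j ∈ (r 0).J, ∀ ψ, .pr ψ ∈ (r 0).X j → ψ ∈ WQ j)
    (c1x : ∀ j x, T (.x j x) → x ∈ WN j) (c1q : ∀ j ψ, T (.q j ψ) → ψ ∈ WQ j)
    (c2 : ∀ j ∈ (r 0).J, ∀ ψ ∈ WQ j, Lg ψ → ψ.lab ∈ (r 0).K j → ∀ m e, Ev ψ m e →
      (∀ x, .nd x ∈ e.X e.rt → x ∈ WN j) ∧ (∀ χ, .pr χ ∈ e.X e.rt → χ ∈ WQ j) ∧
      ∀ a, e.E e.rt a → (e.Z e.rt a).N ⊆ WN j ∧ (e.Z e.rt a).Q ⊆ WQ j)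
    (c3x : ∀ p q, (r 0).E p q → ∀ x ∈ ((r 0).Z p q).N, x ∈ WN p → x ∈ WN q)
    (c3q : ∀ p q, (r 0).E p q → ∀ x ∈ ((r 0).Z p q).Q, x ∈ WQ p → x ∈ WQ q) :
    ∀ i, Kept r t ev rho T i → match i with
      | .c j => j ∈ (r 0).J ∨ ∃ i j' φ m a, Rls r t i j' φ m ∧ a ∈ (ev i j' φ m).J ∧
          a ≠ (ev i j' φ m).rt ∧ j = rho i j' φ m a ∧ (j' ∈ (r 0).J → φ ∈ WQ j')
      | .x j x => j ∈ (r 0).J → x ∈ WN j
      | .q j φ => j ∈ (r 0).J → φ ∈ WQ j := by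
  have hnew : ∀ i j φ m a, Rls r t i j φ m → a ∈ (ev i j φ m).J → a ≠ (ev i j φ m).rt →
      rho i j φ m a ∉ (r 0).J := by
    intro i j φ m a hr ha har h
    exact (hj i j φ m hr).2.new a ha har ((hs.mono 0 i (Nat.zero_le i) hr.lt.le).J h)
  have hrt : ∀ i j φ m, Rls r t i j φ m → rho i j φ m (ev i j φ m).rt = j := fun i j φ m hr =>
    (hj i j φ m hr).2.rt
  have hlab : ∀ i j φ m, Rls r t i j φ m → j ∈ (r 0).J → Lg φ ∧ φ.lab ∈ (r 0).K j := by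
    intro i j φ m hr hjJ
    have h1 := ((hs.val i hr.lt.le).val j hr.mem).leg φ hr.pr
    rw [(hs.mono 0 i (Nat.zero_le i) hr.lt.le).K j hjJ] at h1
    exact h1
  have hvt := hs.val t le_rfl
  -- edges between an old and a new kept component
  have hedge : ∀ p q, (r t).E p q → q ∈ (r 0).J → (∃ i j' φ m a, Rls r t i j' φ m ∧
      a ∈ (ev i j' φ m).J ∧ a ≠ (ev i j' φ m).rt ∧ p = rho i j' φ m a ∧
      (j' ∈ (r 0).J → φ ∈ WQ j')) →
      ((r t).Z p q).N ⊆ WN q ∧ ((r t).Z p q).Q ⊆ WQ q := by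
    rintro p q hE hq ⟨i, j', φ, m, a, hr, ha, har, hpa, hφ⟩
    have hemb := (hj i j' φ m hr).2
    have hev := okEv (hLg φ (hr.leg hs)) (hj i j' φ m hr).1
    have hM := hs.mono (i + 1) t hr.lt le_rfl
    have hpJ : p ∈ (r (i + 1)).J := by rw [hpa]; exact hemb.J a ha
    have hqJ : q ∈ (r i).J := (hs.mono 0 i (Nat.zero_le i) hr.lt.le).J hq
    have hqJ1 : q ∈ (r (i + 1)).J := (hs.mono i (i + 1) (Nat.le_succ i) hr.lt).J hqJ
    have hE1 : (r (i + 1)).E p q := (hM.E p hpJ q hqJ1).1 hE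
    have hE2 := hE1
    rw [hpa] at hE2
    obtain ⟨h1, h2⟩ := emb_old hemb (fun a b hab => hev.val.EJ b a (hev.val.Es a b hab)) ha har
      hqJ hE2
    subst h1
    have h3 : (r t).Z p q = (ev i q φ m).Z (ev i q φ m).rt a := by
      rw [hM.Z p q hE1, hev.val.symZ, ← hemb.Z a _ h2, hpa, hemb.rt]
    rw [h3]
    obtain ⟨h4, h5⟩ := hlab i q φ m hr hq
    exact (c2 q hq φ (hφ hq) h4 h5 m _ (hj i q φ m hr).1).2.2 a (hev.val.Es a _ h2)
  intro i hi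
  induction hi with
  | base_c j h => exact Or.inl h
  | base_x j x h => exact fun hjJ => c0x j hjJ x h
  | base_q j φ h => exact fun hjJ => c0q j hjJ φ h
  | tgt i h =>
    cases i with
    | c j => exact absurd h (hT.c j)
    | x j x => exact fun _ => c1x j x h
    | q j φ => exact fun _ => c1q j φ h
  | ev_c i j φ m a hr _ _ ha ihc ihq =>
    by_cases har : a = (ev i j φ m).rt
    · subst har
      simp only [hrt i j φ m hr]
      exact ihc
    · exact Or.inr ⟨i, j, φ, m, a, hr, ha, har, rfl, ihq⟩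
  | ev_x i j φ m a x hr _ _ ha hx ihc ihq =>
    intro hJ
    by_cases har : a = (ev i j φ m).rt
    · subst har
      simp only [hrt i j φ m hr] at hJ ⊢
      obtain ⟨h4, h5⟩ := hlab i j φ m hr hJ
      exact (c2 j hJ φ (ihq hJ) h4 h5 m _ (hj i j φ m hr).1).1 x hx
    · exact absurd hJ (hnew i j φ m a hr ha har)
  | ev_q i j φ m a ψ hr _ _ ha hx ihc ihq =>
    intro hJ
    by_cases har : a = (ev i j φ m).rt
    · subst har
      simp only [hrt i j φ m hr] at hJ ⊢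
      obtain ⟨h4, h5⟩ := hlab i j φ m hr hJ
      exact (c2 j hJ φ (ihq hJ) h4 h5 m _ (hj i j φ m hr).1).2.1 ψ hx
    · exact absurd hJ (hnew i j φ m a hr ha har)
  | sh_x p q x hE hp hq hx hk ihp ihq ihx =>
    intro hJ
    by_cases hpJ : p ∈ (r 0).J
    · have hM := hs.mono 0 t (Nat.zero_le t) le_rfl
      have hE0 := (hM.E p hpJ q hJ).1 hE
      rw [hM.Z p q hE0] at hx
      exact c3x p q hE0 x hx (ihx hpJ)
    · exact (hedge p q hE hJ (ihp.resolve_left hpJ)).1 hx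
  | sh_q p q φ hE hp hq hx hk ihp ihq ihx =>
    intro hJ
    by_cases hpJ : p ∈ (r 0).J
    · have hM := hs.mono 0 t (Nat.zero_le t) le_rfl
      have hE0 := (hM.E p hpJ q hJ).1 hE
      rw [hM.Z p q hE0] at hx
      exact c3q p q hE0 φ hx (ihx hpJ)
    · exact (hedge p q hE hJ (ihp.resolve_left hpJ)).2 hx

end

/-- every new component of `b` belongs to an event released at a component of `a` -/
def Born (a b : Sys Prom) : Prop :=
  ∀ v ∈ b.J, v ∉ a.J → ∃ e ρ j φ m a', j ∈ a.J ∧ .pr φ ∈ a.X j ∧ Legal φ ∧ Ev φ m e ∧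
    Emb e b a.J j ρ ∧ a' ∈ e.J ∧ a' ≠ e.rt ∧ v = ρ a'

theorem res_emb {κ : Fam} {e r' : Sys Prom} {J0 : Set ℕ} {j : ℕ} {ρ : ℕ → ℕ}
    (h : Emb e r' J0 j ρ) (hEe : ∀ a b, e.E a b → a ∈ e.J ∧ b ∈ e.J)
    (hk : ∀ a ∈ e.J, κ.c (ρ a) ∧ ∀ f ∈ e.X a, κ.Has (ρ a) f) :
    Emb e (r'.res κ) {j | j ∈ J0 ∧ κ.c j} j ρ := by
  have hEJ : ∀ a b, e.E a b → κ.c (ρ a) ∧ κ.c (ρ b) := fun a b hab =>
    ⟨(hk a (hEe a b hab).1).1, (hk b (hEe a b hab).2).1⟩
  exact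
    { n := h.n
      rt := h.rt
      J := fun a ha => ⟨h.J a ha, (hk a ha).1⟩
      inj := h.inj
      new := fun a ha har hc => h.new a ha har hc.1
      E := fun a b hab => ⟨h.E a b hab, hEJ a b hab⟩
      E' := fun a ha har w hw => h.E' a ha har w hw.1
      K := h.K
      Z := fun a b hab => by
        rw [res_Z (hEJ a b hab).1 (hEJ a b hab).2]
        exact h.Z a b hab
      X := fun a ha =>
        { sub := fun f hf => ⟨(h.X a ha).sub hf, (hk a ha).1, (hk a ha).2 f hf⟩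
          it := fun x m v h1 h2 => (h.X a ha).it x m v h1 h2.1
          rl := fun ψ m h1 h2 => (h.X a ha).rl ψ m h1 h2.1 } }

section

variable {Lg : Prom → Prop} {r : ℕ → Sys Prom} {t : ℕ}
  {ev : ℕ → ℕ → Prom → ℕ → Sys Prom} {rho : ℕ → ℕ → Prom → ℕ → ℕ → ℕ} {T : Item → Prop}

theorem kept_has (hLg : ∀ φ, Lg φ → Legal φ) (hs : IsSeq Lg r t) (hj : JustBy r t ev rho)
    {i j : ℕ} {φ : Prom} {m : ℕ} (hr : Rls r t i j φ m) (hc : Kept r t ev rho T (.c j))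
    (hq : Kept r t ev rho T (.q j φ)) : ∀ a ∈ (ev i j φ m).J,
      (keptFam r t ev rho T).c (rho i j φ m a) ∧
      ∀ f ∈ (ev i j φ m).X a, (keptFam r t ev rho T).Has (rho i j φ m a) f := by
  intro a ha
  have hev := okEv (hLg φ (hr.leg hs)) (hj i j φ m hr).1
  refine ⟨.ev_c i j φ m a hr hc hq ha, fun f hf => ?_⟩
  have h3 := (hev.val.val a ha).supp hf
  cases f with
  | nd x => exact .ev_x i j φ m a x hr hc hq ha h3
  | it x _ _ => exact .ev_x i j φ m a x hr hc hq ha h3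
  | bl x _ => exact .ev_x i j φ m a x hr hc hq ha h3
  | ds x y => exact ⟨.ev_x i j φ m a x hr hc hq ha h3.1, .ev_x i j φ m a y hr hc hq ha h3.2⟩
  | pr ψ => exact .ev_q i j φ m a ψ hr hc hq ha h3
  | rl ψ _ => exact .ev_q i j φ m a ψ hr hc hq ha h3

theorem kept_born (hLg : ∀ φ, Lg φ → Legal φ) (hs : IsSeq Lg r t) (hj : JustBy r t ev rho)
    (hT : RootT (r t) T) (i : ℕ) (hi : i < t) :
    Born ((r i).res (keptFam r t ev rho T)) ((r (i + 1)).res (keptFam r t ev rho T)) := by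
  rintro v ⟨hv1, hv2⟩ hv3
  have hv4 : v ∉ (r i).J := fun h => hv3 ⟨h, hv2⟩
  rcases kept_origin hj hT v hv2 with h0 | ⟨i', j, φ, m, a, hr, hc, hq, ha, har, hva⟩
  · exact absurd ((hs.mono 0 i (Nat.zero_le i) hi.le).J h0) hv4
  · have hemb := (hj i' j φ m hr).2
    have h1 : v ∈ (r (i' + 1)).J := by rw [hva]; exact hemb.J a ha
    have h2 : v ∉ (r i').J := by rw [hva]; exact hemb.new a ha har
    have hii : i' = i := by
      rcases Nat.lt_trichotomy i' i with h | h | h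
      · exact absurd ((hs.mono (i' + 1) i h hi.le).J h1) hv4
      · exact h
      · exact absurd ((hs.mono (i + 1) i' h hr.lt.le).J hv1) h2
    subst hii
    have hev := okEv (hLg φ (hr.leg hs)) (hj i' j φ m hr).1
    refine ⟨_, _, j, φ, m, a, ⟨hr.mem, hc⟩, ⟨hr.pr, hc, hq⟩, hLg φ (hr.leg hs),
      (hj i' j φ m hr).1, ?_, ha, har, hva⟩
    exact res_emb hemb (fun a b hab => ⟨hev.val.EJ a b hab, hev.val.EJ b a (hev.val.Es a b hab)⟩)
      (kept_has hLg hs hj hr hc hq)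

end

/-- the anchors of the new components in one step -/
theorem anchor_step {a b : Sys Prom} (hbs : ∀ p q, b.E p q → b.E q p)
    (hbJ : ∀ p q, b.E p q → p ∈ b.J) (hB : Born a b) :
    ∃ B : ℕ → ℕ, (∀ v ∈ a.J, B v = v) ∧
      ∀ p q, b.E p q → (p ∉ a.J ∨ q ∉ a.J) → B p = B q := by
  classical
  let R : ℕ → ℕ → Prop := fun x y => b.E x y ∧ x ∉ a.J ∧ y ∉ a.J
  let S : ℕ → ℕ → Prop := fun v w =>
    ∃ v', Relation.ReflTransGen R v v' ∧ v' ∉ a.J ∧ b.E v' w ∧ w ∈ a.J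
  have huniq : ∀ v, v ∈ b.J → v ∉ a.J → ∃ j, ∀ w, S v w → w = j := by
    intro v hv hva
    obtain ⟨e, ρ, j, φ, m, a', hjJ, hφ, hleg, hev, hemb, ha', har, hv'⟩ := hB v hv hva
    have hve := okEv hleg hev
    have hEe : ∀ a b, e.E a b → b ∈ e.J := fun a b hab => hve.val.EJ b a (hve.val.Es a b hab)
    refine ⟨j, ?_⟩
    rintro w ⟨v', hpath, hv'a, hE, hw⟩
    have hkey : ∃ c ∈ e.J, c ≠ e.rt ∧ v' = ρ c := by
      clear hE hw hv'a
      induction hpath with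
      | refl => exact ⟨a', ha', har, hv'⟩
      | tail _ h2 ih =>
        obtain ⟨c, hc, hcr, hvc⟩ := ih
        obtain ⟨h3, h4, h5⟩ := h2
        rw [hvc] at h3
        obtain ⟨d, hcd, hwd⟩ := hemb.E' c hc hcr _ h3
        refine ⟨d, hEe c d hcd, ?_, hwd⟩
        rintro rfl
        rw [hwd, hemb.rt] at h5
        exact h5 hjJ
    obtain ⟨c, hc, hcr, hvc⟩ := hkey
    rw [hvc] at hE
    exact (emb_old hemb hEe hc hcr hw hE).1
  refine ⟨fun v => if v ∈ a.J then v else if h : ∃ w, S v w then h.choose else 0, ?_, ?_⟩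
  · intro v hv
    simp [hv]
  · have hold : ∀ p q, b.E p q → p ∉ a.J → q ∈ a.J →
        (if p ∈ a.J then p else if h : ∃ w, S p w then h.choose else 0) = q := by
      intro p q hE hp hq
      have h1 : ∃ w, S p w := ⟨q, p, Relation.ReflTransGen.refl, hp, hE, hq⟩
      rw [if_neg hp, dif_pos h1]
      obtain ⟨j, hj⟩ := huniq p (hbJ p q hE) hp
      rw [hj _ h1.choose_spec, hj q ⟨p, Relation.ReflTransGen.refl, hp, hE, hq⟩]
    intro p q hE hpq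
    by_cases hp : p ∈ a.J
    · have hq : q ∉ a.J := hpq.resolve_left (fun h => h hp)
      have h1 := hold q p (hbs p q hE) hq hp
      show (if p ∈ a.J then p else _) = _
      rw [if_pos hp]
      exact h1.symm
    · by_cases hq : q ∈ a.J
      · have h1 := hold p q hE hp hq
        show _ = (if q ∈ a.J then q else _)
        rw [if_pos hq]
        exact h1
      · have hS : ∀ w, S p w ↔ S q w := by
          intro w
          constructor
          · rintro ⟨v', h1, h2⟩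
            exact ⟨v', Relation.ReflTransGen.head ⟨hbs p q hE, hq, hp⟩ h1, h2⟩
          · rintro ⟨v', h1, h2⟩
            exact ⟨v', Relation.ReflTransGen.head ⟨hE, hp, hq⟩ h1, h2⟩
        show (if p ∈ a.J then p else if h : ∃ w, S p w then h.choose else 0) =
          (if q ∈ a.J then q else if h : ∃ w, S q w then h.choose else 0)
        rw [if_neg hp, if_neg hq]
        by_cases h : ∃ w, S p w
        · have h' : ∃ w, S q w := h.imp fun w hw => (hS w).1 hw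
          rw [dif_pos h, dif_pos h']
          obtain ⟨j, hj⟩ := huniq p (hbJ p q hE) hp
          rw [hj _ h.choose_spec, hj _ ((hS _).2 h'.choose_spec)]
        · have h' : ¬ ∃ w, S q w := fun hw => h (hw.imp fun w hw => (hS w).2 hw)
          rw [dif_neg h, dif_neg h']

/-- the anchors along a sequence -/
theorem anchor_seq {Lg : Prom → Prop} {y : ℕ → Sys Prom} {t : ℕ} (hs : IsSeq Lg y t)
    (hB : ∀ i < t, Born (y i) (y (i + 1))) :
    ∃ A : ℕ → ℕ, (∀ v ∈ (y 0).J, A v = v) ∧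
      ∀ p q, (y t).E p q → (p ∉ (y 0).J ∨ q ∉ (y 0).J) → A p = A q := by
  have key : ∀ i ≤ t, ∃ A : ℕ → ℕ, (∀ v ∈ (y 0).J, A v = v) ∧
      ∀ p q, (y i).E p q → (p ∉ (y 0).J ∨ q ∉ (y 0).J) → A p = A q := by
    intro i
    induction i with
    | zero =>
      intro _
      refine ⟨id, fun v _ => rfl, fun p q hE h => ?_⟩
      rcases h with h | h
      · exact absurd (hs.v0.EJ p q hE) h
      · exact absurd (hs.v0.EJ q p (hs.v0.Es p q hE)) h
    | succ i ih =>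
      intro hi
      obtain ⟨A, hA1, hA2⟩ := ih (Nat.le_of_succ_le hi)
      have hv := (hs.st i hi).1
      obtain ⟨B, hB1, hB2⟩ := anchor_step hv.Es hv.EJ (hB i hi)
      have hM := hs.mono 0 i (Nat.zero_le i) (Nat.le_of_succ_le hi)
      have hM1 := hs.mono i (i + 1) (Nat.le_succ i) hi
      refine ⟨fun v => A (B v), fun v hv => ?_, fun p q hE h => ?_⟩
      · show A (B v) = v
        rw [hB1 v (hM.J hv)]
        exact hA1 v hv
      · show A (B p) = A (B q)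
        by_cases hp : p ∈ (y i).J
        · by_cases hq : q ∈ (y i).J
          · rw [hB1 p hp, hB1 q hq]
            exact hA2 p q ((hM1.E p hp q hq).1 hE) h
          · rw [hB2 p q hE (Or.inr hq)]
        · rw [hB2 p q hE (Or.inl hp)]
  exact key t le_rfl

theorem seq_first {y : ℕ → Sys Prom} (q i : ℕ) (hq : q ∈ (y i).J) (hq0 : q ∉ (y 0).J) :
    ∃ k < i, q ∈ (y (k + 1)).J ∧ q ∉ (y k).J := by
  induction i with
  | zero => exact absurd hq hq0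
  | succ i ih =>
    by_cases h : q ∈ (y i).J
    · obtain ⟨k, hk, h1⟩ := ih h
      exact ⟨k, hk.trans (Nat.lt_succ_self i), h1⟩
    · exact ⟨i, Nat.lt_succ_self i, hq, h⟩

/-- edges from old to new components -/
theorem born_edge {Lg : Prom → Prop} {y : ℕ → Sys Prom} {t : ℕ} (hs : IsSeq Lg y t)
    (hB : ∀ i < t, Born (y i) (y (i + 1))) (i : ℕ) (hi : i ≤ t) (j q : ℕ) (hj : j ∈ (y 0).J)
    (hq : q ∉ (y 0).J) (hE : (y i).E j q) :
    ∃ ψ m e a, .pr ψ ∈ (y i).X j ∧ Legal ψ ∧ Ev ψ m e ∧ e.E e.rt a ∧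
      (y i).Z j q = e.Z e.rt a := by
  have hv := hs.val i hi
  have hqJ : q ∈ (y i).J := hv.EJ q j (hv.Es j q hE)
  obtain ⟨k, hk, hq1, hq2⟩ := seq_first q i hqJ hq
  have hkt : k < t := hk.trans_le hi
  obtain ⟨e, ρ, j', φ, m, a, hjJ', hφ, hleg, hev, hemb, ha, har, hqa⟩ := hB k hkt q hq1 hq2
  have hve := okEv hleg hev
  have hEe : ∀ a b, e.E a b → b ∈ e.J := fun a b hab => hve.val.EJ b a (hve.val.Es a b hab)
  have hM := hs.mono (k + 1) i hk hi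
  have hjk : j ∈ (y k).J := (hs.mono 0 k (Nat.zero_le k) hkt.le).J hj
  have hjk1 : j ∈ (y (k + 1)).J := (hs.mono k (k + 1) (Nat.le_succ k) hkt).J hjk
  have hE1 : (y (k + 1)).E j q := (hM.E j hjk1 q hq1).1 hE
  have hE2 : (y (k + 1)).E (ρ a) j := by
    rw [← hqa]
    exact (hs.val (k + 1) hkt).Es j q hE1
  obtain ⟨h1, h2⟩ := emb_old hemb hEe ha har hjk hE2
  subst h1
  refine ⟨φ, m, e, a, ?_, hleg, hev, hve.val.Es a _ h2, ?_⟩
  · exact (hs.mono k i hk.le hi).X j hjk hφ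
  · rw [hM.Z j q hE1, (hs.val (k + 1) hkt).symZ, hve.val.symZ, ← hemb.Z a _ h2, hemb.rt, hqa]

/-- the invariant at the old components -/
structure InvV (r : Sys Prom) (WN : ℕ → Set Node) (WQ : ℕ → Set Prom) (b : Sys Prom) : Prop where
  x : ∀ j ∈ r.J, ∀ y, .nd y ∈ b.X j → y ∈ WN j
  q : ∀ j ∈ r.J, ∀ ψ, .pr ψ ∈ b.X j → ψ ∈ WQ j
  e : ∀ j ∈ r.J, ∀ q, q ∉ r.J → b.E j q → ∃ ψ m e a, .pr ψ ∈ b.X j ∧ Legal ψ ∧ Ev ψ m e ∧
    e.E e.rt a ∧ b.Z j q = e.Z e.rt a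
  J : r.J ⊆ b.J
  mono : Mono r b

/-- LEMMA R, form for Lemma V -/
theorem lemR_V {Lg : Prom → Prop} {K : Set D} (hLg : ∀ φ, Lg φ → Legal φ) {r t1 : Sys Prom}
    (hv : Valid Lg r) (hB : Below K r) (hS : StepsIn Lg K r t1) (TX : Set (Fact Prom))
    (hT : TX ⊆ t1.X t1.rt) (hTs : ∀ f ∈ TX, f.Supp TX) (WN : ℕ → Set Node) (WQ : ℕ → Set Prom)
    (c0x : ∀ j ∈ r.J, ∀ y, .nd y ∈ r.X j → y ∈ WN j)
    (c0q : ∀ j ∈ r.J, ∀ ψ, .pr ψ ∈ r.X j → ψ ∈ WQ j)
    (c1x : ∀ x, .nd x ∈ TX → x ∈ WN r.rt) (c1q : ∀ ψ, .pr ψ ∈ TX → ψ ∈ WQ r.rt)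
    (c2 : ∀ j ∈ r.J, ∀ ψ ∈ WQ j, Lg ψ → ψ.lab ∈ r.K j → ∀ m e, Ev ψ m e →
      (∀ x, .nd x ∈ e.X e.rt → x ∈ WN j) ∧ (∀ χ, .pr χ ∈ e.X e.rt → χ ∈ WQ j) ∧
      ∀ a, e.E e.rt a → (e.Z e.rt a).N ⊆ WN j ∧ (e.Z e.rt a).Q ⊆ WQ j)
    (c3x : ∀ p q, r.E p q → ∀ x ∈ (r.Z p q).N, x ∈ WN p → x ∈ WN q)
    (c3q : ∀ p q, r.E p q → ∀ x ∈ (r.Z p q).Q, x ∈ WQ p → x ∈ WQ q) :
    ∃ (t2 : Sys Prom) (A : ℕ → ℕ),
      Relation.ReflTransGen (fun a b => Step Lg a b ∧ Below K b ∧ InvV r WN WQ b) r t2 ∧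
      t2.n = t1.n ∧ (∀ j, t2.X j ⊆ t1.X j) ∧ TX ⊆ t2.X t2.rt ∧ (∀ j ∈ r.J, A j = j) ∧
      ∀ p q, t2.E p q → (p ∉ r.J ∨ q ∉ r.J) → A p = A q := by
  classical
  obtain ⟨y, t, hy0, hyt, hst⟩ := exists_seq hS
  subst hy0 hyt
  have hs : IsSeq Lg y t := ⟨hv, fun i hi => (hst i hi).1⟩
  obtain ⟨ev, rho, hj⟩ := exists_just hs
  let T : Item → Prop := fun i => match i with
    | .c _ => False
    | .x j x => j = (y t).rt ∧ .nd x ∈ TX
    | .q j φ => j = (y t).rt ∧ .pr φ ∈ TX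
  have hRT : RootT (y t) T :=
    ⟨fun j h => h, fun j x h => ⟨h.1, by rw [h.1]; exact hT h.2⟩,
      fun j φ h => ⟨h.1, by rw [h.1]; exact hT h.2⟩⟩
  have hM0 := hs.mono 0 t (Nat.zero_le t) le_rfl
  have hrt : (y t).rt = (y 0).rt := hM0.rt
  let κ := keptFam y t ev rho T
  have hz : (y 0).res κ = y 0 := kept_zero hs
  have hs' : IsSeq Lg (fun i => (y i).res κ) t := kept_seq hLg hs hj
  have hborn : ∀ i < t, Born ((y i).res κ) ((y (i + 1)).res κ) :=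
    fun i hi => kept_born hLg hs hj hRT i hi
  have hinv := kept_inv hLg hs hj hRT WN WQ c0x c0q
    (fun j x h => by rw [h.1, hrt]; exact c1x x h.2)
    (fun j ψ h => by rw [h.1, hrt]; exact c1q ψ h.2) c2 c3x c3q
  have hBe : ∀ i ≤ t, Below K ((y i).res κ) := by
    intro i hi j hj
    cases i with
    | zero => exact hB j hj.1
    | succ i => exact (hst i hi).2 j hj.1
  have hInv : ∀ i ≤ t, InvV (y 0) WN WQ ((y i).res κ) := by
    intro i hi
    have hm : Mono (y 0) ((y i).res κ) := by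
      have := hs'.mono 0 i (Nat.zero_le i) hi
      simp only [hz] at this
      exact this
    refine ⟨fun j hjJ x hx => ?_, fun j hjJ ψ hψ => ?_, fun j hjJ q hq hE => ?_, hm.J, hm⟩
    · exact hinv _ hx.2.2 hjJ
    · exact hinv _ hψ.2.2 hjJ
    · refine born_edge hs' hborn i hi j q ?_ ?_ hE
      · show j ∈ ((y 0).res κ).J
        rw [hz]; exact hjJ
      · show q ∉ ((y 0).res κ).J
        rw [hz]; exact hq
  obtain ⟨A, hA1, hA2⟩ := anchor_seq hs' hborn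
  simp only [hz] at hA1 hA2
  refine ⟨(y t).res κ, A, ?_, rfl, fun j f hf => hf.1, fun f hf => ?_, hA1, hA2⟩
  · have h1 := chain_of_seq (R := fun a b => Step Lg a b ∧ Below K b ∧ InvV (y 0) WN WQ b)
      (fun i => (y i).res κ) t
      (fun i hi => ⟨hs'.st i hi, hBe (i + 1) hi, hInv (i + 1) hi⟩)
    simp only [hz] at h1
    exact h1
  · have hc : κ.c (y t).rt := by
      show Kept y t ev rho T (.c (y t).rt)
      rw [hrt]
      exact .base_c _ hs.v0.rt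
    refine ⟨hT hf, hc, ?_⟩
    have h2 := hTs f hf
    cases f with
    | nd x => exact .tgt _ ⟨rfl, h2⟩
    | it x _ _ => exact .tgt _ ⟨rfl, h2⟩
    | bl x _ => exact .tgt _ ⟨rfl, h2⟩
    | ds x y => exact ⟨.tgt _ ⟨rfl, h2.1⟩, .tgt _ ⟨rfl, h2.2⟩⟩
    | pr ψ => exact .tgt _ ⟨rfl, h2⟩
    | rl ψ _ => exact .tgt _ ⟨rfl, h2⟩

end Pool.Agent.DL.P
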