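import Pool.Agent.DL.P.Asm
import Pool.Agent.DL.P.V.PlanEx
import Pool.Agent.DL.P.V.Star
import Pool.Agent.DL.P.V.LiftVal
import Pool.Agent.DL.P.V.Lift
import Pool.Agent.H39.DL.LiftTime
import Pool.Agent.DL.P.V.Persist
import Pool.Agent.DL.P.V.ClearOf
import Pool.Agent.DL.P.V.Idle
import Pool.Agent.DL.P.V.VOf
import Pool.Agent.DL.P.V.SR
import Pool.Agent.DL.P.V.Attach
import Pool.Agent.H67.DLV.Round

/-!
# DELTA (MP_d362fb_lc): Lemma V from its rows
-/

set_option autoImplicit false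

namespace Pool.Agent.DL.P

/-- Lemma V, from the planned move -/
theorem lemV_of (hm : V.SMove) : LemV :=
  V.svOf V.splan (V.sclearOf (Pool.Agent.H67.DLV.sroundOf V.sstar V.sr V.sliftVal V.liftExt
    Pool.Agent.H39.DL.sliftTime V.spersist V.sattach)) hm V.sidle

end Pool.Agent.DL.P
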