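import Pool.Agent.DL.P.GenCore
import Pool.Agent.DN.Transfer

/-!
# DELTA (MP_d362fb_lc): the final statement from Lemma V and Theorem H
-/

set_option autoImplicit false

namespace Pool.Agent.DL.P

/-- the final statement from Lemma V and Theorem H -/
theorem final_of (hV : LemV) (hH : LemH) : DN.Final := by
  obtain ⟨P⟩ := rowG hV hH
  exact DN.transfer _ (@_root_.DL.PCore.delta Pos posPre P)

end Pool.Agent.DL.P
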