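import Pool.Agent.H5.DL.Free
import Pool.Agent.H5.DL.IdxEx

/-!
# DELTA (MP_d362fb_lc): definitions for the forcing of note 5711 (monitors)

Levels are lower sets of the label order. The content of a component is a finite set of facts. A
system is a finite forest of components; the components are natural numbers.
-/

set_option autoImplicit false

namespace Pool.Agent.DL.P

open H5.DL

/-- labels -/
abbrev D : Type := W1 × W2

/-- nodes -/
abbrev Node : Type := Nd W1 W2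

/-- the labels strictly below `k` in both coordinates -/
def dn (k : D) : Set D := {l | Ll l k}

/-- `x` leaves `y` with the label `d` -/
def Br (x y : Node) (d : D) : Prop :=
  ∃ ν, (∀ μ < ν, x.f μ = y.f μ) ∧ x.f ν = some d ∧ y.f ν ≠ some d

/-- `d` is the first label of `b` which is strictly above `l` in both coordinates -/
def Fst (b : Node) (l d : D) : Prop :=
  ∃ ν, b.f ν = some d ∧ Ll l d ∧ ∀ μ < ν, ∀ e, b.f μ = some e → ¬ Ll l e

/-- all labels of `s` are in `K` -/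
def LabIn (K : Set D) (s : Node) : Prop := ∀ ν d, s.f ν = some d → d ∈ K

/-- facts about a component -/
inductive Fact (P : Type) : Type
  /-- the node is present -/
  | nd (x : Node) : Fact P
  /-- item: the partial function of the node has the value `v` at `m` -/
  | it (x : Node) (m v : ℕ) : Fact P
  /-- the position `m` is blocked at the node -/
  | bl (x : Node) (m : ℕ) : Fact P
  /-- disjointness token -/
  | ds (x y : Node) : Fact P
  /-- the promise is present -/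
  | pr (φ : P) : Fact P
  /-- the position `m` is released for the promise -/
  | rl (φ : P) (m : ℕ) : Fact P

/-- change the promises of a fact -/
def Fact.map {P Q : Type} (f : P → Q) : Fact P → Fact Q
  | .nd x => .nd x
  | .it x m v => .it x m v
  | .bl x m => .bl x m
  | .ds x y => .ds x y
  | .pr φ => .pr (f φ)
  | .rl φ m => .rl (f φ) m

/-- frames -/
@[ext] structure Fr (P : Type) where
  /-- nodes -/
  N : Set Node
  /-- promises -/
  Q : Set P
  /-- labels -/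
  L : Set D

/-- the empty frame -/
def Fr.emp {P : Type} : Fr P := ⟨∅, ∅, ∅⟩

/-- inclusion of frames -/
def Fr.Le {P : Type} (Z Z' : Fr P) : Prop := Z.N ⊆ Z'.N ∧ Z.Q ⊆ Z'.Q ∧ Z.L ⊆ Z'.L

/-- all nodes and promises of the fact are in the frame -/
def Fr.Has {P : Type} (Z : Fr P) : Fact P → Prop
  | .nd x => x ∈ Z.N
  | .it x _ _ => x ∈ Z.N
  | .bl x _ => x ∈ Z.N
  | .ds x y => x ∈ Z.N ∧ y ∈ Z.N
  | .pr φ => φ ∈ Z.Q
  | .rl φ _ => φ ∈ Z.Q

/-- raw systems with promise type `P` -/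
@[ext] structure Sys (P : Type) where
  /-- the time -/
  n : ℕ
  /-- the root -/
  rt : ℕ
  /-- the components -/
  J : Set ℕ
  /-- the edges -/
  E : ℕ → ℕ → Prop
  /-- the levels -/
  K : ℕ → Set D
  /-- the frames of the edges -/
  Z : ℕ → ℕ → Fr P
  /-- the contents -/
  X : ℕ → Set (Fact P)

/-- change the promise type -/
def Sys.comap {P Q : Type} (f : Q → P) (e : Sys P) : Sys Q where
  n := e.n
  rt := e.rt
  J := e.J
  E := e.E
  K := e.K
  Z := fun p q => ⟨(e.Z p q).N, f ⁻¹' (e.Z p q).Q, (e.Z p q).L⟩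
  X := fun j => Fact.map f ⁻¹' e.X j

/-- all facts and frames of `e` are inside the frame `Z` -/
structure ContIn {P : Type} (e : Sys P) (Z : Fr P) : Prop where
  X : ∀ j, ∀ f ∈ e.X j, Z.Has f
  Z : ∀ p q, Fr.Le (e.Z p q) Z

/-- raw promises: a label, an enumeration of the promises, the nodes and the labels which occur in
the events, and the events (codes) at every position -/
inductive Prom : Type
  | nil (k : D) : Prom
  | mk (k : D) (c : ℕ → Prom) (nd : ℕ → Node) (lb : ℕ → D) (R : ℕ → Sys ℕ → Prop) : Prom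

/-- the label of a promise -/
def Prom.lab : Prom → D
  | .nil k => k
  | .mk k _ _ _ _ => k

/-- the label and everything which occurs in the events of the promise is in the frame -/
def Prom.In (Z : Fr Prom) : Prom → Prop
  | .nil k => k ∈ Z.L
  | .mk k c nd lb _ => k ∈ Z.L ∧ ∀ i, c i ∈ Z.Q ∧ nd i ∈ Z.N ∧ lb i ∈ Z.L

/-- `e` is an event of the promise at the position `m` -/
def Ev : Prom → ℕ → Sys Prom → Prop
  | .nil _, _, _ => False
  | .mk _ c nd lb R, m, e =>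
    ContIn e ⟨Set.range nd, Set.range c, Set.range lb⟩ ∧ R m (e.comap c)

/-- good frames: countable, (Z1), (Z2), (Z3) -/
structure Good (Z : Fr Prom) : Prop where
  cN : Z.N.Countable
  cQ : Z.Q.Countable
  cL : Z.L.Countable
  z1 : ∀ b ∈ Z.N, ∀ b' ∈ Z.N, ∀ d, Br b b' d → d ∈ Z.L
  z2 : ∀ b ∈ Z.N, ∀ l ∈ Z.L, ∀ d, Fst b l d → d ∈ Z.L
  z3 : ∀ φ ∈ Z.Q, φ.In Z

/-- base-free forests: from every base there is a rank such that every component has at most one
neighbour of smaller rank -/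
def Forest (J : Set ℕ) (E : ℕ → ℕ → Prop) : Prop :=
  ∀ b ∈ J, ∃ rk : ℕ → ℕ, (∀ v ∈ J, v ≠ b → rk b < rk v) ∧ (∀ p q, E p q → rk p ≠ rk q) ∧
    ∀ v a a', E v a → E v a' → rk a < rk v → rk a' < rk v → a = a'

/-- valid contents; `Lg` is the predicate of the legal promises, `K` the level, `n` the time -/
structure ValX (Lg : Prom → Prop) (n : ℕ) (K : Set D) (X : Set (Fact Prom)) : Prop where
  fin : X.Finite
  itb : ∀ x m v, .it x m v ∈ X → .bl x m ∈ X ∧ v < n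
  blx : ∀ x m, .bl x m ∈ X → .nd x ∈ X
  dsx : ∀ x y, .ds x y ∈ X → .nd x ∈ X ∧ .nd y ∈ X
  rlx : ∀ φ m, .rl φ m ∈ X → .pr φ ∈ X
  fn : ∀ x m v v', .it x m v ∈ X → .it x m v' ∈ X → v = v'
  leg : ∀ φ, .pr φ ∈ X → Lg φ ∧ φ.lab ∈ K

/-- valid systems -/
structure Valid (Lg : Prom → Prop) (r : Sys Prom) : Prop where
  fin : r.J.Finite
  rt : r.rt ∈ r.J
  Es : ∀ p q, r.E p q → r.E q p
  EJ : ∀ p q, r.E p q → p ∈ r.J
  forest : Forest r.J r.E
  low : ∀ j ∈ r.J, IsLowerSet (r.K j)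
  symZ : ∀ p q, r.Z p q = r.Z q p
  good : ∀ p q, r.E p q → Good (r.Z p q)
  nX : ∀ j, j ∉ r.J → r.X j = ∅
  nZ : ∀ p q, ¬ r.E p q → r.Z p q = Fr.emp
  val : ∀ j ∈ r.J, ValX Lg r.n (r.K j) (r.X j)
  adm : ∀ p q, r.E p q → ∀ l ∈ (r.Z p q).L, l ∈ r.K p → l ∈ r.K q
  sh : ∀ p q, r.E p q → ∀ f, (r.Z p q).Has f → f ∈ r.X p → f ∈ r.X q

/-- growth of contents: no new items of old nodes -/
structure Gr (X Y : Set (Fact Prom)) : Prop where
  sub : X ⊆ Y
  it : ∀ x m v, .nd x ∈ X → .it x m v ∈ Y → .it x m v ∈ X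

/-- growth of contents without new released positions of old promises -/
structure Ex (X Y : Set (Fact Prom)) : Prop extends Gr X Y where
  rl : ∀ φ m, .pr φ ∈ X → .rl φ m ∈ Y → .rl φ m ∈ X

/-- `ρ` embeds `e` into `r` at the component `j`; all other components of the image are outside
`J0` and have no other edges -/
structure Emb (e r : Sys Prom) (J0 : Set ℕ) (j : ℕ) (ρ : ℕ → ℕ) : Prop where
  n : e.n = r.n
  rt : ρ e.rt = j
  J : ∀ a ∈ e.J, ρ a ∈ r.J
  inj : ∀ a ∈ e.J, ∀ b ∈ e.J, ρ a = ρ b → a = b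
  new : ∀ a ∈ e.J, a ≠ e.rt → ρ a ∉ J0
  E : ∀ a b, e.E a b → r.E (ρ a) (ρ b)
  E' : ∀ a ∈ e.J, a ≠ e.rt → ∀ w, r.E (ρ a) w → ∃ b, e.E a b ∧ w = ρ b
  K : ∀ a ∈ e.J, a ≠ e.rt → r.K (ρ a) = e.K a
  Z : ∀ a b, e.E a b → r.Z (ρ a) (ρ b) = e.Z a b
  X : ∀ a ∈ e.J, Ex (e.X a) (r.X (ρ a))

/-- extension steps (S1) - (S5), without the validity of the result -/
structure Ext (r r' : Sys Prom) : Prop where
  n : r'.n = r.n
  rt : r'.rt = r.rt
  J : r.J ⊆ r'.J
  E : ∀ p ∈ r.J, ∀ q ∈ r.J, r'.E p q ↔ r.E p q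
  K : ∀ j ∈ r.J, r'.K j = r.K j
  Z : ∀ p q, r.E p q → r'.Z p q = r.Z p q
  X : ∀ j ∈ r.J, Gr (r.X j) (r'.X j)
  rel : ∀ j ∈ r.J, ∀ φ, .pr φ ∈ r.X j → ∀ m, .rl φ m ∈ r'.X j → .rl φ m ∉ r.X j →
    ∃ e ρ, Ev φ m e ∧ Emb e r' r.J j ρ

/-- time steps (S6) with the position `m` and the cones `C` -/
structure Time (r r' : Sys Prom) (m : ℕ) (C : ℕ → Set Node) : Prop where
  n : r'.n = r.n + 1
  rt : r'.rt = r.rt
  J : r'.J = r.J
  E : r'.E = r.E
  K : r'.K = r.K
  Z : r'.Z = r.Z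
  X : ∀ j f, f ∈ r'.X j ↔ f ∈ r.X j ∨ ∃ x ∈ C j, f = .it x m r.n ∨ f = .bl x m
  cone : ∀ j, C j = ∅ ∨ j ∈ r.J ∧ ∃ s : Node, LabIn (r.K j) s ∧
    ∀ x, x ∈ C j ↔ .nd x ∈ r.X j ∧ s ≤ x
  sh : ∀ p q, r.E p q → ∀ x ∈ (r.Z p q).N, x ∈ C p → x ∈ C q
  mn : ∀ j, ∀ x ∈ C j, m < r.n
  free : ∀ j, ∀ x ∈ C j, .bl x m ∉ r.X j
  tok : ∀ j, ∀ x ∈ C j, ∀ y, .nd y ∈ r.X j → y ∉ C j → (.ds x y ∈ r.X j ∨ .ds y x ∈ r.X j) →
    ∀ v, .it y m v ∉ r.X j
  rel : ∀ j φ, .pr φ ∈ r.X j → ∀ x ∈ C j, ∀ y, .nd y ∈ r.X j → y ∉ C j → ∀ d, Br x y d →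
    φ.lab ≤ d → .rl φ m ∈ r.X j

/-- steps -/
def Step (Lg : Prom → Prop) (r r' : Sys Prom) : Prop :=
  Valid Lg r' ∧ (Ext r r' ∨ ∃ m C, Time r r' m C)

/-- finitely many steps -/
def Steps (Lg : Prom → Prop) : Sys Prom → Sys Prom → Prop := Relation.ReflTransGen (Step Lg)

/-- all levels are inside `K` -/
def Below (K : Set D) (r : Sys Prom) : Prop := ∀ j ∈ r.J, r.K j ⊆ K

/-- steps inside the systems with all levels inside `K` -/
def StepsIn (Lg : Prom → Prop) (K : Set D) : Sys Prom → Sys Prom → Prop :=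
  Relation.ReflTransGen (fun r r' => Step Lg r r' ∧ Below K r')

/-- events allowed in a promise of label `k` -/
structure EvOK (Lg : Prom → Prop) (k : D) (e : Sys Prom) : Prop where
  val : Valid Lg e
  top : e.K e.rt = Set.univ
  lev : ∀ j ∈ e.J, j ≠ e.rt → e.K j ⊆ dn k

/-- the body of the recursive definition of legality -/
structure LegB (Lg : Prom → Prop) (φ : Prom) : Prop where
  fr : ∃ Z : Fr Prom, Good Z ∧ (∀ d ∈ Z.L, Ll d φ.lab) ∧ (∀ x ∈ Z.N, x.Free φ.lab) ∧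
    ∀ m e, Ev φ m e → EvOK Lg φ.lab e ∧ ContIn e Z
  dense : ∀ r, Valid Lg r → r.K r.rt = dn φ.lab → Below (dn φ.lab) r → ∀ m,
    ∃ r' e, StepsIn Lg (dn φ.lab) r r' ∧ Ev φ m e ∧ e.n = r'.n ∧ Ex (e.X e.rt) (r'.X r'.rt)

/-- legality, by recursion on the label -/
def LegF : D → Prom → Prop :=
  (Ll.wf idx).fix (C := fun _ => Prom → Prop)
    (fun k ih φ => LegB (fun ψ => ∃ h : Ll ψ.lab k, ih ψ.lab h ψ) φ)

/-- legal promises -/
def Legal (φ : Prom) : Prop := LegF φ.lab φ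

/-- the recursion equation of legality -/
theorem legal_iff (φ : Prom) :
    Legal φ ↔ LegB (fun ψ => Ll ψ.lab φ.lab ∧ Legal ψ) φ := by
  unfold Legal LegF
  rw [WellFounded.fix_eq]
  simp only [exists_prop]

/-- rename the components by a permutation -/
def Sys.ren {P : Type} (σ : Equiv.Perm ℕ) (r : Sys P) : Sys P where
  n := r.n
  rt := σ r.rt
  J := {j | σ.symm j ∈ r.J}
  E := fun p q => r.E (σ.symm p) (σ.symm q)
  K := fun j => r.K (σ.symm j)
  Z := fun p q => r.Z (σ.symm p) (σ.symm q)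
  X := fun j => r.X (σ.symm j)

/-- conditions -/
structure IsCond (r : Sys Prom) : Prop where
  val : Valid Legal r
  top : r.K r.rt = Set.univ
  bdd : ∀ j ∈ r.J, j ≠ r.rt → ∃ b, r.K j ⊆ dn b

/-- the forcing -/
abbrev Pos : Type := {r : Sys Prom // IsCond r}

/-- `r'` is stronger than `r` -/
def Stronger (r' r : Pos) : Prop := ∃ σ : Equiv.Perm ℕ, Steps Legal r.1 (r'.1.ren σ)

end Pool.Agent.DL.P
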