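import Pool.Agent.DL.P.Defs

/-!
# DELTA: families of kept things and the restriction of a system (definitions for Lemma R)
-/

set_option autoImplicit false

namespace Pool.Agent.DL.P

open H5.DL

/-- kept components, nodes and promises -/
structure Fam where
  c : ℕ → Prop
  x : ℕ → Node → Prop
  q : ℕ → Prom → Prop

/-- kept facts -/
def Fam.Has (κ : Fam) (j : ℕ) : Fact Prom → Prop
  | .nd x => κ.x j x
  | .it x _ _ => κ.x j x
  | .bl x _ => κ.x j x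
  | .ds x y => κ.x j x ∧ κ.x j y
  | .pr φ => κ.q j φ
  | .rl φ _ => κ.q j φ

/-- the restriction of a system to the kept things -/
def Sys.res (κ : Fam) (r : Sys Prom) : Sys Prom where
  n := r.n
  rt := r.rt
  J := {j | j ∈ r.J ∧ κ.c j}
  E := fun p q => r.E p q ∧ κ.c p ∧ κ.c q
  K := r.K
  Z := fun p q => ⟨{x | x ∈ (r.Z p q).N ∧ κ.c p ∧ κ.c q}, {x | x ∈ (r.Z p q).Q ∧ κ.c p ∧ κ.c q},
    {x | x ∈ (r.Z p q).L ∧ κ.c p ∧ κ.c q}⟩
  X := fun j => {f | f ∈ r.X j ∧ κ.c j ∧ κ.Has j f}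

/-- the family is closed under sharing in `r` (rule K2) -/
structure Fam.Sh (κ : Fam) (r : Sys Prom) : Prop where
  x : ∀ p q, r.E p q → κ.c p → κ.c q → ∀ x ∈ (r.Z p q).N, .nd x ∈ r.X p → κ.x p x → κ.x q x
  q : ∀ p q, r.E p q → κ.c p → κ.c q → ∀ φ ∈ (r.Z p q).Q, .pr φ ∈ r.X p → κ.q p φ → κ.q q φ

/-- the family contains everything of `r` -/
structure Fam.Full (κ : Fam) (r : Sys Prom) : Prop where
  c : ∀ j ∈ r.J, κ.c j
  x : ∀ j x, .nd x ∈ r.X j → κ.x j x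
  q : ∀ j φ, .pr φ ∈ r.X j → κ.q j φ

/-- the family is closed under the releases of the step from `r` to `r'` (rule K1) -/
def Fam.Rel (κ : Fam) (r r' : Sys Prom) : Prop :=
  ∀ j ∈ r.J, κ.c j → ∀ φ, κ.q j φ → .pr φ ∈ r.X j → ∀ m, .rl φ m ∈ r'.X j → .rl φ m ∉ r.X j →
    ∃ e ρ, Ev φ m e ∧ Emb e r' r.J j ρ ∧ ∀ a ∈ e.J, κ.c (ρ a) ∧ ∀ f ∈ e.X a, κ.Has (ρ a) f

end Pool.Agent.DL.P
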