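import Pool.Agent.H42.DL.Delta
import Pool.Agent.H84.DL.Perm
import Pool.Agent.DL.Brg

/-!
# DELTA (MP_d362fb_lc), Track P: statements of the main rows

The main rows as propositions (no holes): the files of the owners prove them, the final file puts
them together.
-/

set_option autoImplicit false

namespace Pool.Agent.DL.P

open H5.DL

/-- Row V (Lemma V of note 5711 for the root component) -/
def LemV : Prop :=
  ∀ r : Sys Prom, IsCond r → ∀ s x : Node, .nd x ∈ r.X r.rt → s ≤ x → ∀ m : ℕ,
    (∀ j y, .bl y m ∉ r.X j) → ∃ r' : Sys Prom, Steps Legal r r' ∧ IsCond r' ∧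
      (∃ v, .it x m v ∈ r'.X r'.rt) ∧
      ∀ y, .nd y ∈ r.X r.rt → ¬ s ≤ y → ∀ v, .it y m v ∉ r'.X r'.rt

/-- Row H (Theorem H of note 5711): for every sequence of dense sets of conditions (closed under
stronger conditions) there is a legal promise all of whose events at `m` are in the `m`-th set -/
def LemH : Prop :=
  ∀ W : ℕ → Set Pos, (∀ m p q, p ∈ W m → Stronger q p → q ∈ W m) →
    (∀ m p, ∃ q ∈ W m, Stronger q p) →
    ∃ φ : Prom, Legal φ ∧ ∀ m e, Ev φ m e → ∃ h : IsCond e, (⟨e, h⟩ : Pos) ∈ W m

/-- the order of the bridge: `p ≤ q` iff `q` is stronger than `p` -/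
@[reducible] def posPre : Preorder Pos where
  le := fun p q => Stronger q p
  le_refl := Pool.Agent.H84.DL.stronger_refl
  le_trans := fun _ _ _ h h' => Pool.Agent.H84.DL.stronger_trans h' h

/-- Row G (section 7 of note 5711): what the bridge needs -/
def RowG : Prop := Nonempty (@_root_.DL.PCore W1 W2 _ _ Pos posPre)

end Pool.Agent.DL.P
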