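import Pool.Agent.DL.P.AllV
import Pool.Agent.DL.P.V.Move
import Pool.Agent.H7.DL.LemH

/-!
# DELTA (MP_d362fb_lc): the final statement
-/

set_option autoImplicit false

namespace Pool.Agent.DL.P

/-- Lemma V -/
theorem lemV : LemV := lemV_of V.smove

/-- there is a model of ZFC in which the nabla product of `ω` copies of `ω + 1` is not monotonically
normal -/
theorem final : DN.Final := final_of lemV lemH_7

end Pool.Agent.DL.P
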