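import Pool.Agent.DL.P.GenInv
import Pool.Agent.DL.P.Rows
import Pool.Agent.DL.P.PushC

/-!
# DELTA (MP_d362fb_lc): the generic part, from Lemma V and Theorem H to `PCore`
-/

set_option autoImplicit false

namespace Pool.Agent.DL.P

open H5.DL

/-- the steps commute with renamings -/
theorem renOK : RenOK := fun σ _ _ h => Pool.Agent.H84.DL.step_ren h σ

/-- the initial segment of `x` up to `ν` -/
noncomputable def cutN (x : Node) (ν : W2) : Node where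
  f μ := if μ ≤ ν then x.f μ else none
  dc μ ρ h1 h2 := by
    by_cases hρ : ρ ≤ ν
    · rw [if_pos hρ] at h2
      rw [if_pos (h1.trans hρ)]
      exact x.dc μ ρ h1 h2
    · rw [if_neg hρ] at h2
      exact absurd rfl h2
  mo μ ρ d e h1 h2 h3 := by
    by_cases hρ : ρ ≤ ν
    · rw [if_pos hρ] at h3
      rw [if_pos (h1.trans hρ)] at h2
      exact x.mo μ ρ d e h1 h2 h3
    · rw [if_neg hρ] at h3
      exact (Option.some_ne_none _ h3.symm).elim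

theorem cutN_le (x : Node) (ν : W2) : cutN x ν ≤ x := by
  intro μ d h
  have h' : (if μ ≤ ν then x.f μ else none) = some d := h
  by_cases hμ : μ ≤ ν
  · rwa [if_pos hμ] at h'
  · rw [if_neg hμ] at h'
    exact (Option.some_ne_none _ h'.symm).elim

theorem cutN_not_le {x y : Node} {ν : W2} {d d' : D} (h : DL.Spl x y ν d d') :
    ¬ cutN x ν ≤ y := by
  intro hle
  have h1 : (cutN x ν).f ν = some d := by
    show (if ν ≤ ν then x.f ν else none) = some d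
    rw [if_pos le_rfl, h.2.1]
  have h2 := hle ν d h1
  rw [h.2.2.1] at h2
  exact h.2.2.2 (Option.some_injective _ h2).symm

/-- all positions in the blocked facts of a condition are bounded -/
theorem bl_bdd {r : Sys Prom} (h : IsCond r) : ∃ m0 : ℕ, ∀ m, m0 ≤ m → ∀ j y,
    Fact.bl y m ∉ r.X j := by
  classical
  have hf : (⋃ j ∈ r.J, r.X j).Finite := h.val.fin.biUnion fun j hj => (h.val.val j hj).fin
  let g : Fact Prom → ℕ := fun f => match f with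
    | .bl _ m => m
    | _ => 0
  obtain ⟨N, hN⟩ := (hf.image g).bddAbove
  refine ⟨N + 1, fun m hm j y hy => ?_⟩
  have hj : j ∈ r.J := by
    by_contra hj
    rw [h.val.nX j hj] at hy
    exact hy
  have h1 : m ≤ N := hN ⟨_, Set.mem_biUnion hj hy, rfl⟩
  omega

theorem it_bdd {r : Sys Prom} (h : IsCond r) : ∃ m0 : ℕ, ∀ m, m0 ≤ m → ∀ y v,
    Fact.it y m v ∉ r.X r.rt := by
  obtain ⟨m0, h0⟩ := bl_bdd h
  exact ⟨m0, fun m hm y v hv => h0 m hm r.rt y ((h.val.val _ h.val.rt).itb y m v hv).1⟩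

theorem rl_bdd {r : Sys Prom} (h : IsCond r) : ∃ m0 : ℕ, ∀ m, m0 ≤ m → ∀ φ,
    Fact.rl φ m ∉ r.X r.rt := by
  classical
  have hf : (r.X r.rt).Finite := (h.val.val _ h.val.rt).fin
  let g : Fact Prom → ℕ := fun f => match f with
    | .rl _ m => m
    | _ => 0
  obtain ⟨N, hN⟩ := (hf.image g).bddAbove
  refine ⟨N + 1, fun m hm φ hy => ?_⟩
  have h1 : m ≤ N := hN ⟨_, hy, rfl⟩
  omega

theorem Stronger.of_steps {p q : Pos} (h : Steps Legal p.1 q.1) : Stronger q p :=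
  ⟨Equiv.refl ℕ, h⟩

theorem Stronger.trans' (hr : RenOK) {p q r : Pos} (h1 : Stronger q p) (h2 : Stronger r q) :
    Stronger r p := by
  obtain ⟨σ, hσ⟩ := h1
  obtain ⟨τ, hτ⟩ := h2
  refine ⟨τ.trans σ, ?_⟩
  rw [← gen_ren_ren]
  exact hσ.trans (hr.steps σ hτ)

/-- reading a stronger condition as the end of steps -/
theorem Stronger.ex {p q : Pos} (h : Stronger q p) : ∃ σ : Equiv.Perm ℕ,
    Steps Legal p.1 (q.1.ren σ) ∧ p.1.rt = (q.1.ren σ).rt ∧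
      (q.1.ren σ).X (q.1.ren σ).rt = q.1.X q.1.rt := by
  obtain ⟨σ, hσ⟩ := h
  exact ⟨σ, hσ, (gens_rt hσ).symm, gen_ren_X_rt _ _⟩

/-- the items of the root -/
def uu (p : Pos) (x : Node) (m v : ℕ) : Prop := .it x m v ∈ p.1.X p.1.rt

theorem uu_mono {p q : Pos} (h : Stronger q p) {x : Node} {m v : ℕ} (hu : uu p x m v) :
    uu q x m v := by
  obtain ⟨σ, hσ, hrt, hX⟩ := h.ex
  have h1 := gens_X hσ p.2.val.rt hu
  rw [hrt, hX] at h1
  exact h1

theorem agr_gen (p : Pos) (x y : Node) (φ : Prom) (hφ : Legal φ) :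
    ∃ q : Pos, Stronger q p ∧ ∃ m0 : ℕ, ∀ r : Pos, Stronger r q → ∀ m, m0 ≤ m → ∀ v v',
      uu r x m v → uu r y m v' → v = v' := by
  obtain ⟨q, hpq, hx, hy, hds, -⟩ := exists_nodes p x y φ hφ
  obtain ⟨m0, hm0⟩ := it_bdd q.2
  refine ⟨q, Stronger.of_steps hpq, m0, ?_⟩
  intro r hrq m hm v v' h1 h2
  obtain ⟨σ, hσ, hrt, hX⟩ := hrq.ex
  have h0 : InvA Legal q.1.rt x y m0 q.1 :=
    ⟨q.2.val, q.2.val.rt, hx, hy, hds, fun m hm v v' h _ => absurd h (hm0 m hm x v)⟩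
  have h3 := gens_ind (P := InvA Legal q.1.rt x y m0) (fun _ _ a b => a.step b) hσ h0
  refine h3.ag m hm v v' ?_ ?_
  · rw [hrt, hX]; exact h1
  · rw [hrt, hX]; exact h2

theorem inf_gen (hV : LemV) {x y : Node} {ν : W2} {d d' : D} (hd : DL.Spl x y ν d d')
    (φ : Prom) (hφ : Legal φ) (p : Pos) (N : ℕ) :
    ∃ q : Pos, Stronger q p ∧ ∃ m v, N ≤ m ∧ uu q x m v ∧
      ∀ r : Pos, Stronger r q → ∀ w, ¬ uu r y m w := by
  obtain ⟨q, hpq, hx, hy, -, -⟩ := exists_nodes p x y φ hφ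
  obtain ⟨m0, hm0⟩ := bl_bdd q.2
  obtain ⟨q1, h1, hq1, ⟨v, hv⟩, hno⟩ := hV q.1 q.2 (cutN x ν) x hx (cutN_le x ν) (max N m0)
    (hm0 _ (le_max_right _ _))
  have hrt1 : q1.rt = q.1.rt := gens_rt h1
  have hy1 : Fact.nd y ∈ q1.X q1.rt := by
    rw [hrt1]; exact gens_X h1 q.2.val.rt hy
  obtain ⟨q2, h2, hbl, hit⟩ := exists_block ⟨q1, hq1⟩ y hy1 (max N m0)
  have hrt2 : q2.1.rt = q1.rt := gens_rt h2
  refine ⟨q2, Stronger.of_steps ((hpq.trans h1).trans h2), max N m0, v, le_max_left _ _, ?_, ?_⟩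
  · show Fact.it x (max N m0) v ∈ q2.1.X q2.1.rt
    rw [hrt2]
    exact gens_X h2 hq1.val.rt hv
  · intro r hrq w hw
    obtain ⟨σ, hσ, hrt, hX⟩ := hrq.ex
    have h0 : InvB Legal q2.1.rt y (max N m0) q2.1 :=
      ⟨q2.2.val, q2.2.val.rt, hbl, fun w hw => hno y hy (cutN_not_le hd) w (hit y _ w hw)⟩
    have h3 := gens_ind (P := InvB Legal q2.1.rt y (max N m0)) (fun _ _ a b => a.step b) hσ h0
    refine h3.no w ?_
    rw [hrt, hX]
    exact hw

theorem dom_gen (hH : LemH) (W : ℕ → Set Pos)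
    (hW1 : ∀ m p q, p ∈ W m → Stronger q p → q ∈ W m) (hW2 : ∀ m p, ∃ q ∈ W m, Stronger q p) :
    ∃ d : D, ∀ x y ν e e', DL.Spl x y ν e e' → d ≤ e → ∀ p : Pos, ∃ q : Pos, Stronger q p ∧
      ∃ m0 : ℕ, ∀ r : Pos, Stronger r q → ∀ m, m0 ≤ m → ∀ v, uu r x m v →
        (∀ w, ¬ uu r y m w) → ∃ c ∈ W m, Stronger r c ∧ c.1.n ≤ v := by
  obtain ⟨φ, hφ, hev⟩ := hH W hW1 hW2
  refine ⟨φ.lab, fun x y ν e e' hs hle p => ?_⟩
  obtain ⟨q, hpq, hx, hy, -, hpr⟩ := exists_nodes p x y φ hφ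
  obtain ⟨m0, hm0⟩ := it_bdd q.2
  obtain ⟨m1, hm1⟩ := rl_bdd q.2
  refine ⟨q, Stronger.of_steps hpq, max m0 m1, ?_⟩
  intro r hrq m hm v h1 h2
  obtain ⟨σ, hσ, hrt, hX⟩ := hrq.ex
  have h0 : InvC W φ x y (max m0 m1) q.1 :=
    ⟨q.2.val, q.2.top, hx, hy, hpr,
      fun m hm h => absurd h (hm1 m ((le_max_right _ _).trans hm) φ),
      fun m hm v h => absurd h (hm0 m ((le_max_left _ _).trans hm) x v)⟩
  have h3 := gens_ind (P := InvC W φ x y (max m0 m1))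
    (fun _ _ a b => a.step renOK hs hle hev b) hσ h0
  rcases h3.it m hm v (by rw [hX]; exact h1) with ⟨w, hw⟩ | ⟨c, hc, ⟨τ, hτ⟩, hn⟩
  · rw [hX] at hw
    exact absurd hw (h2 w)
  · exact ⟨c, hc, ⟨σ.trans τ, hτ⟩, hn⟩

/-- Row G: the core of the forcing side from Lemma V and Theorem H -/
theorem rowG (hV : LemV) (hH : LemH) : RowG := by
  obtain ⟨φ0, hφ0, -⟩ := hH (fun _ => Set.univ) (fun _ _ _ _ _ => trivial)
    (fun _ p => ⟨p, trivial, Pool.Agent.H84.DL.stronger_refl p⟩)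
  refine ⟨@_root_.DL.PCore.mk W1 W2 _ _ Pos posPre inferInstance (fun p => p.1.n) ?_ ?_ uu
    ?_ ?_ ?_ ?_ ?_⟩
  · intro p q h
    exact Pool.Agent.H84.DL.stronger_n h
  · intro p N
    obtain ⟨q, hq, hN⟩ := exists_time p N
    exact ⟨q, Stronger.of_steps hq, hN⟩
  · intro p q x m v h hu
    exact uu_mono h hu
  · intro p x m v v' h1 h2
    exact (p.2.val.val _ p.2.val.rt).fn x m v v' h1 h2
  · intro x y ν e e' hs p
    exact agr_gen p x y φ0 hφ0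
  · intro x y ν e e' hs p N
    exact inf_gen hV hs φ0 hφ0 p N
  · intro W hW1 hW2
    exact dom_gen hH W hW1 hW2

end Pool.Agent.DL.P
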