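import Pool.Agent.DL.P.Defs
import Pool.Agent.DL.Brg

/-!
# DELTA (MP_d362fb_lc): invariants of the steps at the root
-/

set_option autoImplicit false

namespace Pool.Agent.DL.P

open H5.DL

section

variable {Lg : Prom → Prop} {r r' : Sys Prom}

theorem gen_rt (h : Step Lg r r') : r'.rt = r.rt := by
  rcases h.2 with h | ⟨m, C, h⟩
  · exact h.rt
  · exact h.rt

theorem gen_n (h : Step Lg r r') : r.n ≤ r'.n := by
  rcases h.2 with h | ⟨m, C, h⟩
  · exact h.n.ge
  · rw [h.n]; exact Nat.le_succ _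

theorem gen_J (h : Step Lg r r') : r.J ⊆ r'.J := by
  rcases h.2 with h | ⟨m, C, h⟩
  · exact h.J
  · rw [h.J]

theorem gen_K (h : Step Lg r r') {j : ℕ} (hj : j ∈ r.J) : r'.K j = r.K j := by
  rcases h.2 with h | ⟨m, C, h⟩
  · exact h.K j hj
  · rw [h.K]

theorem gen_X (h : Step Lg r r') {j : ℕ} (hj : j ∈ r.J) {f : Fact Prom} (hf : f ∈ r.X j) :
    f ∈ r'.X j := by
  rcases h.2 with h | ⟨m, C, h⟩
  · exact (h.X j hj).sub hf
  · exact (h.X j f).2 (Or.inl hf)

theorem gens_rt (h : Steps Lg r r') : r'.rt = r.rt := by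
  induction h with
  | refl => rfl
  | tail _ h ih => rw [gen_rt h, ih]

theorem gens_n (h : Steps Lg r r') : r.n ≤ r'.n := by
  induction h with
  | refl => exact le_rfl
  | tail _ h ih => exact ih.trans (gen_n h)

theorem gens_J (h : Steps Lg r r') : r.J ⊆ r'.J := by
  induction h with
  | refl => exact Set.Subset.rfl
  | tail _ h ih => exact ih.trans (gen_J h)

theorem gens_K (h : Steps Lg r r') {j : ℕ} (hj : j ∈ r.J) : r'.K j = r.K j := by
  induction h with
  | refl => rfl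
  | tail h0 h ih => rw [gen_K h (gens_J h0 hj), ih]

theorem gens_X (h : Steps Lg r r') {j : ℕ} (hj : j ∈ r.J) {f : Fact Prom} (hf : f ∈ r.X j) :
    f ∈ r'.X j := by
  induction h with
  | refl => exact hf
  | tail h0 h ih => exact gen_X h (gens_J h0 hj) ih

theorem gens_val (h : Steps Lg r r') (hr : Valid Lg r) : Valid Lg r' := by
  induction h with
  | refl => exact hr
  | tail _ h _ => exact h.1

/-- a predicate which is preserved by the steps -/
theorem gens_ind {P : Sys Prom → Prop} (hP : ∀ r r', P r → Step Lg r r' → P r')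
    (h : Steps Lg r r') (h0 : P r) : P r' := by
  induction h with
  | refl => exact h0
  | tail _ h ih => exact hP _ _ ih h

/-! ### agreement -/

/-- the items of `x` and `y` in the component `j` agree from `m0` on -/
structure InvA (Lg : Prom → Prop) (j : ℕ) (x y : Node) (m0 : ℕ) (r : Sys Prom) : Prop where
  val : Valid Lg r
  mem : j ∈ r.J
  hx : .nd x ∈ r.X j
  hy : .nd y ∈ r.X j
  ds : .ds x y ∈ r.X j
  ag : ∀ m, m0 ≤ m → ∀ v v', .it x m v ∈ r.X j → .it y m v' ∈ r.X j → v = v'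

theorem InvA.step {j : ℕ} {x y : Node} {m0 : ℕ} (h : InvA Lg j x y m0 r) (s : Step Lg r r') :
    InvA Lg j x y m0 r' where
  val := s.1
  mem := gen_J s h.mem
  hx := gen_X s h.mem h.hx
  hy := gen_X s h.mem h.hy
  ds := gen_X s h.mem h.ds
  ag m hm v v' h1 h2 := by
    rcases s.2 with e | ⟨k, C, e⟩
    · exact h.ag m hm v v' ((e.X j h.mem).it x m v h.hx h1) ((e.X j h.mem).it y m v' h.hy h2)
    · have hX := h.val.val j h.mem
      rcases (e.X j _).1 h1 with a | ⟨z, hz, a | a⟩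
      · rcases (e.X j _).1 h2 with b | ⟨w, hw, b | b⟩
        · exact h.ag m hm v v' a b
        · injection b with b1 b2 b3
          subst b1 b2 b3
          exfalso
          by_cases hx : x ∈ C j
          · exact e.free j x hx (hX.itb x m v a).1
          · exact e.tok j y hw x h.hx hx (Or.inr h.ds) v a
        · cases b
      · injection a with a1 a2 a3
        subst a1 a2 a3
        rcases (e.X j _).1 h2 with b | ⟨w, hw, b | b⟩
        · exfalso
          by_cases hy : y ∈ C j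
          · exact e.free j y hy (hX.itb y m v' b).1
          · exact e.tok j x hz y h.hy hy (Or.inl h.ds) v' b
        · injection b with b1 b2 b3
          exact b3.symm
        · cases b
      · cases a

/-! ### blocked positions -/

/-- the position `m` is blocked at `y` in the component `j` and `y` has no item there -/
structure InvB (Lg : Prom → Prop) (j : ℕ) (y : Node) (m : ℕ) (r : Sys Prom) : Prop where
  val : Valid Lg r
  mem : j ∈ r.J
  bl : .bl y m ∈ r.X j
  no : ∀ w, .it y m w ∉ r.X j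

theorem InvB.step {j : ℕ} {y : Node} {m : ℕ} (h : InvB Lg j y m r) (s : Step Lg r r') :
    InvB Lg j y m r' where
  val := s.1
  mem := gen_J s h.mem
  bl := gen_X s h.mem h.bl
  no w hw := by
    rcases s.2 with e | ⟨k, C, e⟩
    · exact h.no w ((e.X j h.mem).it y m w ((h.val.val j h.mem).blx y m h.bl) hw)
    · rcases (e.X j _).1 hw with a | ⟨z, hz, a | a⟩
      · exact h.no w a
      · injection a with a1 a2 a3
        subst a1 a2 a3
        exact e.free j y hz h.bl
      · cases a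

/-! ### domination -/

/-- a condition of `W` was passed not later than at the time `v` -/
def Psd (W : Set Pos) (r : Sys Prom) (v : ℕ) : Prop :=
  ∃ c ∈ W, (∃ σ : Equiv.Perm ℕ, Steps Legal c.1 (r.ren σ)) ∧ c.1.n ≤ v

/-- items of `x` which are not items of `y` come after a condition of `W m` -/
structure InvC (W : ℕ → Set Pos) (φ : Prom) (x y : Node) (m0 : ℕ) (r : Sys Prom) : Prop where
  val : Valid Legal r
  top : r.K r.rt = Set.univ
  hx : .nd x ∈ r.X r.rt
  hy : .nd y ∈ r.X r.rt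
  pr : .pr φ ∈ r.X r.rt
  rl : ∀ m, m0 ≤ m → .rl φ m ∈ r.X r.rt → Psd (W m) r r.n
  it : ∀ m, m0 ≤ m → ∀ v, .it x m v ∈ r.X r.rt →
    (∃ w, .it y m w ∈ r.X r.rt) ∨ Psd (W m) r v

end

/-- the steps commute with renamings -/
def RenOK : Prop :=
  ∀ (σ : Equiv.Perm ℕ) (r r' : Sys Prom), Step Legal r r' → Step Legal (r.ren σ) (r'.ren σ)

/-- composition of renamings -/
theorem gen_ren_ren (r : Sys Prom) (σ τ : Equiv.Perm ℕ) :
    (r.ren σ).ren τ = r.ren (σ.trans τ) := rfl

theorem gen_ren_refl (r : Sys Prom) : r.ren (Equiv.refl ℕ) = r := rfl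

theorem gen_ren_symm (r : Sys Prom) (σ : Equiv.Perm ℕ) : (r.ren σ).ren σ.symm = r := by
  rw [gen_ren_ren, Equiv.self_trans_symm, gen_ren_refl]

theorem gen_ren_X_rt (r : Sys Prom) (σ : Equiv.Perm ℕ) :
    (r.ren σ).X (r.ren σ).rt = r.X r.rt := by
  show r.X (σ.symm (σ r.rt)) = _
  rw [Equiv.symm_apply_apply]

theorem gen_ren_K_rt (r : Sys Prom) (σ : Equiv.Perm ℕ) :
    (r.ren σ).K (r.ren σ).rt = r.K r.rt := by
  show r.K (σ.symm (σ r.rt)) = _
  rw [Equiv.symm_apply_apply]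

theorem RenOK.steps (hr : RenOK) {r r' : Sys Prom} (σ : Equiv.Perm ℕ) (h : Steps Legal r r') :
    Steps Legal (r.ren σ) (r'.ren σ) := by
  induction h with
  | refl => exact Relation.ReflTransGen.refl
  | tail _ h ih => exact ih.tail (hr σ _ _ h)

theorem Psd.step {W : Set Pos} {r r' : Sys Prom} {v : ℕ} (hr : RenOK) (h : Psd W r v)
    (s : Step Legal r r') : Psd W r' v := by
  obtain ⟨c, hc, ⟨σ, hσ⟩, hn⟩ := h
  exact ⟨c, hc, ⟨σ, hσ.tail (hr σ _ _ s)⟩, hn⟩

/-- an injection of a finite set extends to a permutation -/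
theorem exists_perm {J : Set ℕ} (hJ : J.Finite) (ρ : ℕ → ℕ)
    (hρ : ∀ a ∈ J, ∀ b ∈ J, ρ a = ρ b → a = b) : ∃ τ : Equiv.Perm ℕ, ∀ a ∈ J, τ a = ρ a := by
  classical
  obtain ⟨N, hN⟩ : ∃ N, ∀ a ∈ J ∪ ρ '' J, a < N := by
    obtain ⟨N, hN⟩ := (hJ.union (hJ.image ρ)).bddAbove
    exact ⟨N + 1, fun a ha => Nat.lt_succ_of_le (hN ha)⟩
  let α : Type := {x : ℕ // x < N}
  have : Finite α := inferInstanceAs (Finite {x : ℕ // x < N})
  let p : α → Prop := fun x => x.1 ∈ J
  let q : α → Prop := fun x => x.1 ∈ ρ '' J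
  let f : {x : α // p x} → {x : α // q x} := fun x =>
    ⟨⟨ρ x.1.1, hN _ (Or.inr ⟨x.1.1, x.2, rfl⟩)⟩, ⟨x.1.1, x.2, rfl⟩⟩
  have hf : Function.Bijective f := by
    constructor
    · intro a b hab
      have h1 : ρ a.1.1 = ρ b.1.1 := congrArg (fun z => z.1.1) hab
      exact Subtype.ext (Subtype.ext (hρ _ a.2 _ b.2 h1))
    · rintro ⟨⟨y, hy⟩, a, ha, hay⟩
      refine ⟨⟨⟨a, hN _ (Or.inl ha)⟩, ha⟩, ?_⟩
      exact Subtype.ext (Subtype.ext hay)
  let e : {x : α // p x} ≃ {x : α // q x} := Equiv.ofBijective f hf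
  let g : Equiv.Perm α := e.extendSubtype
  refine ⟨Equiv.Perm.ofSubtype g, fun a ha => ?_⟩
  have haN : a < N := hN _ (Or.inl ha)
  rw [Equiv.Perm.ofSubtype_apply_of_mem g haN]
  have h1 : g ⟨a, haN⟩ = (e ⟨⟨a, haN⟩, ha⟩ : α) := e.extendSubtype_apply_of_mem ⟨a, haN⟩ ha
  rw [h1]
  rfl

/-- a system with an embedded event at the root is stronger than the event -/
theorem emb_steps (hr : RenOK) {e r : Sys Prom} {J0 : Set ℕ} {ρ : ℕ → ℕ} (he : Valid Legal e)
    (he1 : e.K e.rt = Set.univ) (hv : Valid Legal r) (hr1 : r.K r.rt = Set.univ)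
    (h : Emb e r J0 r.rt ρ) : ∃ σ : Equiv.Perm ℕ, Steps Legal e (r.ren σ) := by
  obtain ⟨τ, hτ⟩ := exists_perm he.fin ρ h.inj
  have hL : ∀ p, p ∈ (e.ren τ).J → ∃ a ∈ e.J, p = ρ a ∧ τ.symm p = a := by
    intro p hp
    have hp' : τ.symm p ∈ e.J := hp
    refine ⟨τ.symm p, hp', ?_, rfl⟩
    rw [← hτ _ hp', Equiv.apply_symm_apply]
  have hS : Step Legal (e.ren τ) r := by
    refine ⟨hv, Or.inl ⟨h.n.symm, ?_, ?_, ?_, ?_, ?_, ?_, ?_⟩⟩
    · show r.rt = τ e.rt
      rw [hτ _ he.rt, h.rt]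
    · intro p hp
      obtain ⟨a, ha, rfl, -⟩ := hL p hp
      exact h.J a ha
    · intro p hp q hq
      obtain ⟨a, ha, hpa, ha'⟩ := hL p hp
      obtain ⟨b, hb, hqb, hb'⟩ := hL q hq
      show r.E p q ↔ e.E (τ.symm p) (τ.symm q)
      rw [ha', hb', hpa, hqb]
      constructor
      · intro hE
        by_cases har : a = e.rt
        · by_cases hbr : b = e.rt
          · exfalso
            obtain ⟨rk, -, h2, -⟩ := hv.forest _ hv.rt
            rw [har, hbr] at hE
            exact h2 _ _ hE rfl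
          · obtain ⟨c, hc, hc'⟩ := h.E' b hb hbr _ (hv.Es _ _ hE)
            have hcJ : c ∈ e.J := he.EJ _ _ (he.Es _ _ hc)
            rw [h.inj a ha c hcJ hc']
            exact he.Es _ _ hc
        · obtain ⟨c, hc, hc'⟩ := h.E' a ha har _ hE
          have hcJ : c ∈ e.J := he.EJ _ _ (he.Es _ _ hc)
          rw [h.inj b hb c hcJ hc']
          exact hc
      · exact h.E a b
    · intro p hp
      obtain ⟨a, ha, hpa, ha'⟩ := hL p hp
      show r.K p = e.K (τ.symm p)
      rw [ha', hpa]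
      by_cases har : a = e.rt
      · rw [har, h.rt, hr1, he1]
      · exact h.K a ha har
    · intro p q hpq
      have hpq' : e.E (τ.symm p) (τ.symm q) := hpq
      show r.Z p q = e.Z (τ.symm p) (τ.symm q)
      rw [← h.Z _ _ hpq']
      have hp : τ.symm p ∈ e.J := he.EJ _ _ hpq'
      have hq : τ.symm q ∈ e.J := he.EJ _ _ (he.Es _ _ hpq')
      rw [← hτ _ hp, ← hτ _ hq, Equiv.apply_symm_apply, Equiv.apply_symm_apply]
    · intro p hp
      obtain ⟨a, ha, hpa, ha'⟩ := hL p hp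
      show Gr (e.X (τ.symm p)) (r.X p)
      rw [ha', hpa]
      exact (h.X a ha).toGr
    · intro p hp φ h1 m h2 h3
      exfalso
      obtain ⟨a, ha, hpa, ha'⟩ := hL p hp
      have h1' : Fact.pr φ ∈ e.X (τ.symm p) := h1
      have h3' : Fact.rl φ m ∉ e.X (τ.symm p) := h3
      rw [ha'] at h1' h3'
      rw [hpa] at h2
      exact h3' ((h.X a ha).rl φ m h1' h2)
  refine ⟨τ.symm, ?_⟩
  have h2 := hr τ.symm _ _ hS
  rw [gen_ren_symm] at h2
  exact Relation.ReflTransGen.single h2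

theorem InvC.step (hr : RenOK) {W : ℕ → Set Pos} {φ : Prom} {x y : Node} {ν : W2} {d d' : D}
    (hd : DL.Spl x y ν d d') (hφ : φ.lab ≤ d)
    (hW : ∀ m e, Ev φ m e → ∃ h : IsCond e, (⟨e, h⟩ : Pos) ∈ W m) {m0 : ℕ} {r r' : Sys Prom}
    (h : InvC W φ x y m0 r) (s : Step Legal r r') : InvC W φ x y m0 r' := by
  have hJ : r.rt ∈ r.J := h.val.rt
  have hrt : r'.rt = r.rt := gen_rt s
  have top' : r'.K r'.rt = Set.univ := by rw [hrt, gen_K s hJ, h.top]
  refine ⟨s.1, top', ?_, ?_, ?_, ?_, ?_⟩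
  · rw [hrt]; exact gen_X s hJ h.hx
  · rw [hrt]; exact gen_X s hJ h.hy
  · rw [hrt]; exact gen_X s hJ h.pr
  · intro m hm h1
    by_cases h2 : Fact.rl φ m ∈ r.X r.rt
    · obtain ⟨c, hc, hσ, hn⟩ := (h.rl m hm h2).step hr s
      exact ⟨c, hc, hσ, hn.trans (gen_n s)⟩
    · rcases s.2 with e | ⟨k, C, e⟩
      · rw [hrt] at h1
        obtain ⟨c, ρ, hc, hρ⟩ := e.rel _ hJ φ h.pr m h1 h2
        obtain ⟨hcc, hcW⟩ := hW m c hc
        rw [← hrt] at hρ
        exact ⟨⟨c, hcc⟩, hcW, emb_steps hr hcc.val hcc.top s.1 top' hρ, hρ.n.le⟩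
      · exfalso
        rw [hrt] at h1
        rcases (e.X _ _).1 h1 with a | ⟨z, hz, a | a⟩
        · exact h2 a
        · cases a
        · cases a
  · intro m hm v h1
    rw [hrt] at h1
    have old : Fact.it x m v ∈ r.X r.rt →
        (∃ w, Fact.it y m w ∈ r'.X r'.rt) ∨ Psd (W m) r' v := by
      intro a
      rcases h.it m hm v a with ⟨w, hw⟩ | hp
      · refine Or.inl ⟨w, ?_⟩
        rw [hrt]
        exact gen_X s hJ hw
      · exact Or.inr (hp.step hr s)
    rcases s.2 with e | ⟨k, C, e⟩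
    · exact old ((e.X _ hJ).it x m v h.hx h1)
    · rcases (e.X _ _).1 h1 with a | ⟨z, hz, a | a⟩
      · exact old a
      · injection a with a1 a2 a3
        subst a1 a2 a3
        by_cases hy : y ∈ C r.rt
        · refine Or.inl ⟨r.n, ?_⟩
          rw [hrt]
          exact (e.X _ _).2 (Or.inr ⟨y, hy, Or.inl rfl⟩)
        · refine Or.inr ((h.rl m hm ?_).step hr s)
          refine e.rel _ φ h.pr x hz y h.hy hy d ⟨ν, hd.1, hd.2.1, ?_⟩ hφ
          rw [hd.2.2.1]
          exact fun h' => hd.2.2.2 (Option.some_injective _ h').symm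
      · cases a

end Pool.Agent.DL.P
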