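import Pool.Agent.DL.P.Push

/-!
# DELTA (MP_d362fb_lc): adding a leaf component; growth without releases
-/

set_option autoImplicit false

namespace Pool.Agent.DL.P

open H5.DL Relation

open Classical in
/-- add the component `q` as a leaf at `p`, with frame `Z`, level `K` and content `X` -/
noncomputable def Sys.leaf (r : Sys Prom) (p q : ℕ) (Z : Fr Prom) (K : Set D)
    (X : Set (Fact Prom)) : Sys Prom where
  n := r.n
  rt := r.rt
  J := insert q r.J
  E := fun a b => r.E a b ∨ (a = p ∧ b = q) ∨ (a = q ∧ b = p)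
  K := fun j => if j = q then K else r.K j
  Z := fun a b => if (a = p ∧ b = q) ∨ (a = q ∧ b = p) then Z else r.Z a b
  X := fun j => if j = q then X else r.X j

/-- the leaf may be added -/
structure LeafOK (Lg : Prom → Prop) (r : Sys Prom) (p q : ℕ) (Z : Fr Prom) (K : Set D)
    (X : Set (Fact Prom)) : Prop where
  hp : p ∈ r.J
  hq : q ∉ r.J
  good : Good Z
  low : IsLowerSet K
  val : ValX Lg r.n K X
  adm : ∀ l ∈ Z.L, l ∈ r.K p ↔ l ∈ K
  sh : ∀ f, Z.Has f → (f ∈ r.X p ↔ f ∈ X)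

theorem Forest.leaf {J : Set ℕ} {E : ℕ → ℕ → Prop} (h : Forest J E)
    (hEJ : ∀ a b, E a b → a ∈ J ∧ b ∈ J) {p q : ℕ} (hp : p ∈ J) (hq : q ∉ J) :
    Forest (insert q J) (fun a b => E a b ∨ (a = p ∧ b = q) ∨ (a = q ∧ b = p)) := by
  classical
  have hpq : p ≠ q := fun h => hq (h ▸ hp)
  rintro b (rfl | hb)
  · obtain ⟨rk, h1, h2, h3⟩ := h p hp
    have hmin : ∀ a, E p a → ¬ rk a < rk p := by
      intro a ha hlt
      by_cases hap : a = p
      · exact lt_irrefl _ (hap ▸ hlt)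
      · exact lt_irrefl _ (hlt.trans (h1 a (hEJ p a ha).2 hap))
    refine ⟨fun v => if v = b then 0 else rk v + 1, ?_, ?_, ?_⟩
    · rintro v _ hv
      simp only [if_true, if_neg hv]
      exact Nat.succ_pos _
    · rintro a c (hac | ⟨rfl, rfl⟩ | ⟨rfl, rfl⟩)
      · have ha : a ≠ b := fun h => hq (h ▸ (hEJ a c hac).1)
        have hc : c ≠ b := fun h => hq (h ▸ (hEJ a c hac).2)
        simp only [if_neg ha, if_neg hc]
        exact fun h => h2 a c hac (Nat.succ_injective h)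
      · simp only [if_neg hpq, if_true]
        exact Nat.succ_ne_zero _
      · simp only [if_neg hpq, if_true]
        exact (Nat.succ_ne_zero _).symm
    · intro v a a' ha ha' hlt hlt'
      by_cases hv : v = b
      · simp only [if_pos hv] at hlt
        exact absurd hlt (Nat.not_lt_zero _)
      · simp only [if_neg hv] at hlt hlt'
        by_cases hvp : v = p
        · have key : ∀ a, (E v a ∨ (v = p ∧ a = b) ∨ (v = b ∧ a = p)) →
              (if a = b then 0 else rk a + 1) < rk v + 1 → a = b := by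
            rintro a (ha | ⟨_, ha⟩ | ⟨hvb, _⟩) hlt
            · by_contra hab
              rw [if_neg hab] at hlt
              rw [hvp] at ha hlt
              exact hmin a ha (Nat.lt_of_succ_lt_succ hlt)
            · exact ha
            · exact absurd hvb hv
          rw [key a ha hlt, key a' ha' hlt']
        · have key : ∀ a, (E v a ∨ (v = p ∧ a = b) ∨ (v = b ∧ a = p)) →
              (if a = b then 0 else rk a + 1) < rk v + 1 → E v a ∧ rk a < rk v := by
            rintro a (ha | ⟨h', _⟩ | ⟨hvb, _⟩) hlt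
            · have hab : a ≠ b := fun h => hq (h ▸ (hEJ v a ha).2)
              rw [if_neg hab] at hlt
              exact ⟨ha, Nat.lt_of_succ_lt_succ hlt⟩
            · exact absurd h' hvp
            · exact absurd hvb hv
          exact h3 v a a' (key a ha hlt).1 (key a' ha' hlt').1 (key a ha hlt).2 (key a' ha' hlt').2
  · obtain ⟨rk, h1, h2, h3⟩ := h b hb
    have hbq : b ≠ q := fun h => hq (h ▸ hb)
    have hbp : rk b ≤ rk p := by
      by_cases hpb : p = b
      · rw [hpb]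
      · exact (h1 p hp hpb).le
    refine ⟨fun v => if v = q then rk p + 1 else rk v, ?_, ?_, ?_⟩
    · rintro v (rfl | hv) hvb
      · simp only [if_true, if_neg hbq]
        exact Nat.lt_succ_of_le hbp
      · have hvq : v ≠ q := fun h => hq (h ▸ hv)
        simp only [if_neg hvq, if_neg hbq]
        exact h1 v hv hvb
    · rintro a c (hac | ⟨rfl, rfl⟩ | ⟨rfl, rfl⟩)
      · have ha : a ≠ q := fun h => hq (h ▸ (hEJ a c hac).1)
        have hc : c ≠ q := fun h => hq (h ▸ (hEJ a c hac).2)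
        simp only [if_neg ha, if_neg hc]
        exact h2 a c hac
      · simp only [if_neg hpq, if_true]
        exact (Nat.succ_ne_self _).symm
      · simp only [if_neg hpq, if_true]
        exact Nat.succ_ne_self _
    · intro v a a' ha ha' hlt hlt'
      by_cases hv : v = q
      · have key : ∀ a, (E v a ∨ (v = p ∧ a = q) ∨ (v = q ∧ a = p)) → a = p := by
          rintro a (ha | ⟨h', _⟩ | ⟨_, h'⟩)
          · exact absurd (hv ▸ (hEJ v a ha).1) hq
          · exact absurd (h'.symm.trans hv) hpq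
          · exact h'
        rw [key a ha, key a' ha']
      · simp only [if_neg hv] at hlt hlt'
        have key : ∀ a, (E v a ∨ (v = p ∧ a = q) ∨ (v = q ∧ a = p)) →
            (if a = q then rk p + 1 else rk a) < rk v → E v a ∧ rk a < rk v := by
          rintro a (ha | ⟨h', ha⟩ | ⟨hvb, _⟩) hlt
          · have hab : a ≠ q := fun h => hq (h ▸ (hEJ v a ha).2)
            rw [if_neg hab] at hlt
            exact ⟨ha, hlt⟩
          · rw [if_pos ha, h'] at hlt
            exact absurd (Nat.lt_of_succ_lt hlt) (lt_irrefl _)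
          · exact absurd hvb hv
        exact h3 v a a' (key a ha hlt).1 (key a' ha' hlt').1 (key a ha hlt).2 (key a' ha' hlt').2

section

variable {Lg : Prom → Prop} {r : Sys Prom} {p q : ℕ} {Z : Fr Prom} {K : Set D}
  {X : Set (Fact Prom)}

theorem leaf_X_self : (r.leaf p q Z K X).X q = X := if_pos rfl

theorem leaf_X_of {j : ℕ} (h : j ≠ q) : (r.leaf p q Z K X).X j = r.X j := if_neg h

theorem leaf_K_self : (r.leaf p q Z K X).K q = K := if_pos rfl

theorem leaf_K_of {j : ℕ} (h : j ≠ q) : (r.leaf p q Z K X).K j = r.K j := if_neg h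

theorem leaf_Z_pq : (r.leaf p q Z K X).Z p q = Z := if_pos (Or.inl ⟨rfl, rfl⟩)

theorem leaf_Z_qp : (r.leaf p q Z K X).Z q p = Z := if_pos (Or.inr ⟨rfl, rfl⟩)

theorem leaf_Z_of {a b : ℕ} (ha : a ≠ q) (hb : b ≠ q) : (r.leaf p q Z K X).Z a b = r.Z a b :=
  if_neg (by
    rintro (⟨_, h⟩ | ⟨h, _⟩)
    · exact hb h
    · exact ha h)

theorem leaf_E {a b : ℕ} : (r.leaf p q Z K X).E a b ↔
    r.E a b ∨ (a = p ∧ b = q) ∨ (a = q ∧ b = p) := Iff.rfl

theorem Valid.EJ' (h : Valid Lg r) {a b : ℕ} (hab : r.E a b) : a ∈ r.J ∧ b ∈ r.J :=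
  ⟨h.EJ a b hab, h.EJ b a (h.Es a b hab)⟩

theorem Valid.E_ne (h : Valid Lg r) (hq : q ∉ r.J) {a b : ℕ} (hab : r.E a b) : a ≠ q ∧ b ≠ q :=
  ⟨fun h' => hq (h' ▸ (h.EJ' hab).1), fun h' => hq (h' ▸ (h.EJ' hab).2)⟩

theorem Valid.leaf (h : Valid Lg r) (hl : LeafOK Lg r p q Z K X) :
    Valid Lg (r.leaf p q Z K X) where
  fin := h.fin.insert q
  rt := Set.mem_insert_of_mem q h.rt
  Es := by
    rintro a b (hab | ⟨h1, h2⟩ | ⟨h1, h2⟩)
    · exact Or.inl (h.Es a b hab)
    · exact Or.inr (Or.inr ⟨h2, h1⟩)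
    · exact Or.inr (Or.inl ⟨h2, h1⟩)
  EJ := by
    rintro a b (hab | ⟨rfl, _⟩ | ⟨rfl, _⟩)
    · exact Set.mem_insert_of_mem q (h.EJ a b hab)
    · exact Set.mem_insert_of_mem q hl.hp
    · exact Set.mem_insert _ _
  forest := h.forest.leaf (fun a b hab => h.EJ' hab) hl.hp hl.hq
  low := by
    rintro j (rfl | hj)
    · rw [leaf_K_self]; exact hl.low
    · have h1 : j ≠ q := fun h' => hl.hq (h' ▸ hj)
      rw [leaf_K_of h1]; exact h.low j hj
  symZ := by
    intro a b
    by_cases hc : (a = p ∧ b = q) ∨ (a = q ∧ b = p)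
    · have hc' : (b = p ∧ a = q) ∨ (b = q ∧ a = p) :=
        hc.elim (fun h' => Or.inr ⟨h'.2, h'.1⟩) (fun h' => Or.inl ⟨h'.2, h'.1⟩)
      show (if _ then Z else r.Z a b) = (if _ then Z else r.Z b a)
      rw [if_pos hc, if_pos hc']
    · have hc' : ¬ ((b = p ∧ a = q) ∨ (b = q ∧ a = p)) := fun h' =>
        hc (h'.elim (fun h' => Or.inr ⟨h'.2, h'.1⟩) (fun h' => Or.inl ⟨h'.2, h'.1⟩))
      show (if _ then Z else r.Z a b) = (if _ then Z else r.Z b a)
      rw [if_neg hc, if_neg hc', h.symZ]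
  good := by
    rintro a b (hab | ⟨rfl, rfl⟩ | ⟨rfl, rfl⟩)
    · rw [leaf_Z_of (h.E_ne hl.hq hab).1 (h.E_ne hl.hq hab).2]
      exact h.good a b hab
    · rw [leaf_Z_pq]; exact hl.good
    · rw [leaf_Z_qp]; exact hl.good
  nX := by
    intro j hj
    have h1 : j ≠ q := fun h' => hj (h' ▸ Set.mem_insert _ _)
    rw [leaf_X_of h1]
    exact h.nX j fun h' => hj (Set.mem_insert_of_mem q h')
  nZ := by
    intro a b hab
    have hc : ¬ ((a = p ∧ b = q) ∨ (a = q ∧ b = p)) := fun h' => hab (Or.inr h')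
    show (if _ then Z else r.Z a b) = _
    rw [if_neg hc]
    exact h.nZ a b fun h' => hab (Or.inl h')
  val := by
    rintro j (rfl | hj)
    · rw [leaf_X_self, leaf_K_self]; exact hl.val
    · have h1 : j ≠ q := fun h' => hl.hq (h' ▸ hj)
      rw [leaf_X_of h1, leaf_K_of h1]; exact h.val j hj
  adm := by
    have hpq : p ≠ q := fun h' => hl.hq (h' ▸ hl.hp)
    rintro a b (hab | ⟨rfl, rfl⟩ | ⟨rfl, rfl⟩)
    · rw [leaf_Z_of (h.E_ne hl.hq hab).1 (h.E_ne hl.hq hab).2, leaf_K_of (h.E_ne hl.hq hab).1,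
        leaf_K_of (h.E_ne hl.hq hab).2]
      exact h.adm a b hab
    · rw [leaf_Z_pq, leaf_K_self, leaf_K_of hpq]
      exact fun l hlZ => (hl.adm l hlZ).1
    · rw [leaf_Z_qp, leaf_K_self, leaf_K_of hpq]
      exact fun l hlZ => (hl.adm l hlZ).2
  sh := by
    have hpq : p ≠ q := fun h' => hl.hq (h' ▸ hl.hp)
    rintro a b (hab | ⟨rfl, rfl⟩ | ⟨rfl, rfl⟩)
    · rw [leaf_Z_of (h.E_ne hl.hq hab).1 (h.E_ne hl.hq hab).2, leaf_X_of (h.E_ne hl.hq hab).1,
        leaf_X_of (h.E_ne hl.hq hab).2]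
      exact h.sh a b hab
    · rw [leaf_Z_pq, leaf_X_self, leaf_X_of hpq]
      exact fun f hf => (hl.sh f hf).1
    · rw [leaf_Z_qp, leaf_X_self, leaf_X_of hpq]
      exact fun f hf => (hl.sh f hf).2

end

/-! ### growth without releases -/

/-- growth without new released positions of old promises: a transitive form of `Ext` -/
structure Grow (r r' : Sys Prom) : Prop where
  n : r'.n = r.n
  rt : r'.rt = r.rt
  J : r.J ⊆ r'.J
  E : ∀ p ∈ r.J, ∀ q ∈ r.J, r'.E p q ↔ r.E p q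
  K : ∀ j ∈ r.J, r'.K j = r.K j
  Z : ∀ p q, r.E p q → r'.Z p q = r.Z p q
  X : ∀ j ∈ r.J, Ex (r.X j) (r'.X j)

theorem Ex.refl (X : Set (Fact Prom)) : Ex X X :=
  { sub := subset_rfl
    it := fun _ _ _ _ h => h
    rl := fun _ _ _ h => h }

theorem Ex.trans {X Y W : Set (Fact Prom)} (h : Ex X Y) (h' : Ex Y W) : Ex X W :=
  { sub := h.sub.trans h'.sub
    it := fun x m v hx hi => h.it x m v hx (h'.it x m v (h.sub hx) hi)
    rl := fun φ m hφ hi => h.rl φ m hφ (h'.rl φ m (h.sub hφ) hi) }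

theorem Grow.refl (r : Sys Prom) : Grow r r :=
  ⟨rfl, rfl, subset_rfl, fun _ _ _ _ => Iff.rfl, fun _ _ => rfl, fun _ _ _ => rfl,
    fun _ _ => Ex.refl _⟩

theorem Grow.trans {Lg : Prom → Prop} {r1 r2 r3 : Sys Prom} (hv : Valid Lg r1)
    (h1 : Grow r1 r2) (h2 : Grow r2 r3) : Grow r1 r3 where
  n := h2.n.trans h1.n
  rt := h2.rt.trans h1.rt
  J := h1.J.trans h2.J
  E p hp q hq := (h2.E p (h1.J hp) q (h1.J hq)).trans (h1.E p hp q hq)
  K j hj := (h2.K j (h1.J hj)).trans (h1.K j hj)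
  Z p q hpq := (h2.Z p q ((h1.E p (hv.EJ' hpq).1 q (hv.EJ' hpq).2).2 hpq)).trans (h1.Z p q hpq)
  X j hj := (h1.X j hj).trans (h2.X j (h1.J hj))

theorem Grow.ext {r r' : Sys Prom} (h : Grow r r') : Ext r r' where
  n := h.n
  rt := h.rt
  J := h.J
  E := h.E
  K := h.K
  Z := h.Z
  X j hj := (h.X j hj).toGr
  rel j hj φ hφ m hm hm' := absurd ((h.X j hj).rl φ m hφ hm) hm'

theorem push_grow {Lg : Prom → Prop} {r : Sys Prom} (h : Valid Lg r) {p : ℕ}
    {F : Set (Fact Prom)} (hF : Addable Lg r p F) : Grow r (r.push p F) :=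
  ⟨rfl, rfl, subset_rfl, fun _ _ _ _ => Iff.rfl, fun _ _ => rfl, fun _ _ _ => rfl,
    fun j _ => push_ex h hF j⟩

theorem block_grow (r : Sys Prom) (m : ℕ) (B : ℕ → Set Node) : Grow r (r.block m B) :=
  ⟨rfl, rfl, subset_rfl, fun _ _ _ _ => Iff.rfl, fun _ _ => rfl, fun _ _ _ => rfl,
    fun j _ => block_ex m B j⟩

theorem leaf_grow {Lg : Prom → Prop} {r : Sys Prom} {p q : ℕ} {Z : Fr Prom}
    {K : Set D} {X : Set (Fact Prom)} (hv : Valid Lg r) (hq : q ∉ r.J) :
    Grow r (r.leaf p q Z K X) where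
  n := rfl
  rt := rfl
  J := Set.subset_insert _ _
  E a ha b hb := by
    rw [leaf_E]
    constructor
    · rintro (h | ⟨_, rfl⟩ | ⟨rfl, _⟩)
      · exact h
      · exact absurd hb hq
      · exact absurd ha hq
    · exact Or.inl
  K j hj := leaf_K_of fun h' => hq (h' ▸ hj)
  Z a b hab := leaf_Z_of (hv.E_ne hq hab).1 (hv.E_ne hq hab).2
  X j hj := by
    have h1 : j ≠ q := fun h' => hq (h' ▸ hj)
    rw [leaf_X_of h1]
    exact Ex.refl _

theorem leaf_step {Lg : Prom → Prop} {r : Sys Prom} {p q : ℕ} {Z : Fr Prom}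
    {K : Set D} {X : Set (Fact Prom)} (hv : Valid Lg r) (hl : LeafOK Lg r p q Z K X) :
    Step Lg r (r.leaf p q Z K X) :=
  ⟨hv.leaf hl, Or.inl (leaf_grow hv hl.hq).ext⟩

end Pool.Agent.DL.P
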