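import Pool.Agent.DL.P.Defs

/-!
# DELTA: unblocking and lifting to the old levels (one step of Lemma V)

`r` is the given system, `Ks` are the lower levels, `Pt` the protected nodes, `m` the position.
A system `s` of the sequence starting at `r` with the levels `Ks`, without the promises whose
label is not in `Ks`, and with `m` blocked everywhere, is lifted to a system with the old levels.
-/

set_option autoImplicit false

namespace Pool.Agent.DL.P

open H5.DL

/-- the promise of the fact, if any, has its label in `A` -/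
def Und (A : Set D) : Fact Prom → Prop
  | .nd _ => True
  | .it _ _ _ => True
  | .bl _ _ => True
  | .ds _ _ => True
  | .pr φ => φ.lab ∈ A
  | .rl φ _ => φ.lab ∈ A

/-- the facts which are deleted: `m` is not blocked at protected old nodes, no tokens between
protected nodes and new nodes -/
def Del (r : Sys Prom) (Pt : ℕ → Set Node) (m j : ℕ) (f : Fact Prom) : Prop :=
  (∃ w ∈ Pt j, f = .bl w m ∧ f ∉ r.X j) ∨
    ∃ w ∈ Pt j, ∃ y, .nd y ∉ r.X j ∧ (f = .ds w y ∨ f = .ds y w)

/-- the lifted system -/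
def lift (r : Sys Prom) (Ks : ℕ → Set D) (Pt : ℕ → Set Node) (m : ℕ) (s : Sys Prom) :
    Sys Prom where
  n := s.n
  rt := r.rt
  J := s.J
  E := s.E
  K := fun j => {d | (j ∈ r.J → d ∈ r.K j) ∧ (j ∉ r.J → d ∈ s.K j)}
  Z := s.Z
  X := fun j => {f | (f ∈ s.X j ∧ (j ∈ r.J → ¬ Del r Pt m j f)) ∨
    (j ∈ r.J ∧ f ∈ r.X j ∧ ¬ Und (Ks j) f)}

/-- the data -/
structure LBase (Lg : Prom → Prop) (r : Sys Prom) (Ks : ℕ → Set D) (Pt : ℕ → Set Node) :
    Prop where
  val : Valid Lg r
  low : ∀ j ∈ r.J, IsLowerSet (Ks j)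
  le : ∀ j ∈ r.J, Ks j ⊆ r.K j
  adm : ∀ p q, r.E p q → ∀ l ∈ (r.Z p q).L, l ∈ Ks p → l ∈ Ks q
  sh : ∀ p q, r.E p q → ∀ x ∈ (r.Z p q).N, x ∈ Pt p → x ∈ Pt q
  nf : ∀ j ∈ r.J, ∀ y ∈ Pt j, ∀ l ∈ Ks j, ¬ y.Free l

/-- the invariant of the systems of the sequence -/
structure LInv (r : Sys Prom) (Ks : ℕ → Set D) (Pt : ℕ → Set Node) (m : ℕ) (s : Sys Prom) :
    Prop where
  J : r.J ⊆ s.J
  K : ∀ j ∈ r.J, s.K j = Ks j
  E : ∀ p ∈ r.J, ∀ q ∈ r.J, s.E p q ↔ r.E p q
  Z : ∀ p q, r.E p q → s.Z p q = r.Z p q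
  blk : ∀ j ∈ r.J, ∀ x, .nd x ∈ r.X j → .bl x m ∈ s.X j
  it : ∀ j ∈ r.J, ∀ x v, .nd x ∈ r.X j → .it x m v ∈ s.X j → .it x m v ∈ r.X j
  np : ∀ j ∈ r.J, ∀ y, .nd y ∈ s.X j → .nd y ∉ r.X j → y ∉ Pt j
  fN : ∀ j ∈ r.J, ∀ q, q ∉ r.J → s.E j q → ∀ x ∈ (s.Z j q).N, x ∉ Pt j
  fL : ∀ j ∈ r.J, ∀ q, q ∉ r.J → s.E j q → ∀ l ∈ (s.Z j q).L, l ∈ Ks j

section

variable {Lg Lg' : Prom → Prop} {r s s' : Sys Prom} {Ks : ℕ → Set D} {Pt : ℕ → Set Node} {m : ℕ}

theorem lift_K_old {j : ℕ} (hj : j ∈ r.J) : (lift r Ks Pt m s).K j = r.K j := by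
  ext d
  exact ⟨fun h => h.1 hj, fun h => ⟨fun _ => h, fun h' => absurd hj h'⟩⟩

theorem lift_K_new {j : ℕ} (hj : j ∉ r.J) : (lift r Ks Pt m s).K j = s.K j := by
  ext d
  exact ⟨fun h => h.2 hj, fun h => ⟨fun h' => absurd h' hj, fun _ => h⟩⟩

theorem mem_lift_new {j : ℕ} (hj : j ∉ r.J) {f : Fact Prom} :
    f ∈ (lift r Ks Pt m s).X j ↔ f ∈ s.X j := by
  constructor
  · rintro (h | h)
    · exact h.1
    · exact absurd h.1 hj
  · intro h
    exact Or.inl ⟨h, fun h' => absurd h' hj⟩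

theorem mem_lift_old {j : ℕ} (hj : j ∈ r.J) {f : Fact Prom} :
    f ∈ (lift r Ks Pt m s).X j ↔
      (f ∈ s.X j ∧ ¬ Del r Pt m j f) ∨ (f ∈ r.X j ∧ ¬ Und (Ks j) f) := by
  constructor
  · rintro (h | h)
    · exact Or.inl ⟨h.1, h.2 hj⟩
    · exact Or.inr h.2
  · rintro (h | h)
    · exact Or.inl ⟨h.1, fun _ => h.2⟩
    · exact Or.inr ⟨hj, h⟩

theorem prom_lab {Z : Fr Prom} {φ : Prom} (h : φ.In Z) : φ.lab ∈ Z.L := by
  cases φ with
  | nil k => exact h
  | mk k c nd lb R => exact h.1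

/-- facts of type `nd` are not changed -/
theorem nd_lift {x : Node} {j : ℕ} : .nd x ∈ (lift r Ks Pt m s).X j ↔ .nd x ∈ s.X j := by
  constructor
  · rintro (h | h)
    · exact h.1
    · exact absurd trivial h.2.2
  · intro h
    refine Or.inl ⟨h, fun _ h' => ?_⟩
    rcases h' with ⟨w, _, h1, _⟩ | ⟨w, _, y, _, h1 | h1⟩
    · cases h1
    · cases h1
    · cases h1

theorem it_lift {x : Node} {j a v : ℕ} :
    .it x a v ∈ (lift r Ks Pt m s).X j ↔ .it x a v ∈ s.X j := by
  constructor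
  · rintro (h | h)
    · exact h.1
    · exact absurd trivial h.2.2
  · intro h
    refine Or.inl ⟨h, fun _ h' => ?_⟩
    rcases h' with ⟨w, _, h1, _⟩ | ⟨w, _, y, _, h1 | h1⟩
    · cases h1
    · cases h1
    · cases h1

theorem bl_of_lift {x : Node} {j a : ℕ} (h : .bl x a ∈ (lift r Ks Pt m s).X j) :
    .bl x a ∈ s.X j := by
  rcases h with h | h
  · exact h.1
  · exact absurd trivial h.2.2

theorem ds_of_lift {x y : Node} {j : ℕ} (h : .ds x y ∈ (lift r Ks Pt m s).X j) :
    .ds x y ∈ s.X j := by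
  rcases h with h | h
  · exact h.1
  · exact absurd trivial h.2.2

theorem rl_of_mem {φ : Prom} {j a : ℕ} (h : .rl φ a ∈ s.X j) :
    .rl φ a ∈ (lift r Ks Pt m s).X j := by
  refine Or.inl ⟨h, fun _ h' => ?_⟩
  rcases h' with ⟨w, _, h1, _⟩ | ⟨w, _, y, _, h1 | h1⟩
  · cases h1
  · cases h1
  · cases h1

theorem pr_of_mem {φ : Prom} {j : ℕ} (h : .pr φ ∈ s.X j) :
    .pr φ ∈ (lift r Ks Pt m s).X j := by
  refine Or.inl ⟨h, fun _ h' => ?_⟩
  rcases h' with ⟨w, _, h1, _⟩ | ⟨w, _, y, _, h1 | h1⟩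
  · cases h1
  · cases h1
  · cases h1

theorem lift_valid (hb : LBase Lg r Ks Pt) (hs : LInv r Ks Pt m s) (hv : Valid Lg' s)
    (hL : ∀ φ, Lg' φ → Lg φ) : Valid Lg (lift r Ks Pt m s) where
  fin := hv.fin
  rt := hs.J hb.val.rt
  Es := hv.Es
  EJ := hv.EJ
  forest := hv.forest
  low := by
    intro j hj
    by_cases hjr : j ∈ r.J
    · rw [lift_K_old hjr]; exact hb.val.low j hjr
    · rw [lift_K_new hjr]; exact hv.low j hj
  symZ := hv.symZ
  good := hv.good
  nX := by
    intro j hj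
    have hjr : j ∉ r.J := fun h => hj (hs.J h)
    ext f
    rw [mem_lift_new hjr, hv.nX j hj]
  nZ := hv.nZ
  val := by
    intro j hj
    have hvj := hv.val j hj
    refine ⟨?_, ?_, ?_, ?_, ?_, ?_, ?_⟩
    · by_cases hjr : j ∈ r.J
      · refine (hvj.fin.union (hb.val.val j hjr).fin).subset ?_
        rintro f (h | h)
        · exact Or.inl h.1
        · exact Or.inr h.2.1
      · refine hvj.fin.subset fun f h => ?_
        exact (mem_lift_new hjr).1 h
    · intro x a v h
      rw [it_lift] at h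
      refine ⟨?_, (hvj.itb x a v h).2⟩
      by_cases hjr : j ∈ r.J
      · refine (mem_lift_old hjr).2 (Or.inl ⟨(hvj.itb x a v h).1, ?_⟩)
        rintro (⟨w, hw, h1, h2⟩ | ⟨w, _, y, _, h1 | h1⟩)
        · obtain ⟨rfl, rfl⟩ := Fact.bl.inj h1
          have hnd : .nd x ∈ s.X j := hvj.blx x a (hvj.itb x a v h).1
          by_cases hnr : .nd x ∈ r.X j
          · exact h2 ((hb.val.val j hjr).itb x a v (hs.it j hjr x v hnr h)).1
          · exact hs.np j hjr x hnd hnr hw
        · cases h1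
        · cases h1
      · exact (mem_lift_new hjr).2 (hvj.itb x a v h).1
    · intro x a h
      rw [nd_lift]
      exact hvj.blx x a (bl_of_lift h)
    · intro x y h
      rw [nd_lift, nd_lift]
      exact hvj.dsx x y (ds_of_lift h)
    · intro φ a h
      rcases h with h | h
      · exact pr_of_mem (hvj.rlx φ a h.1)
      · exact Or.inr ⟨h.1, (hb.val.val j h.1).rlx φ a h.2.1, h.2.2⟩
    · intro x a v v' h h'
      rw [it_lift] at h h'
      exact hvj.fn x a v v' h h'
    · intro φ h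
      by_cases hjr : j ∈ r.J
      · rw [lift_K_old hjr]
        rcases h with h | h
        · have h1 := hvj.leg φ h.1
          refine ⟨hL φ h1.1, ?_⟩
          rw [hs.K j hjr] at h1
          exact hb.le j hjr h1.2
        · exact (hb.val.val j hjr).leg φ h.2.1
      · rw [lift_K_new hjr]
        have h1 := hvj.leg φ ((mem_lift_new hjr).1 h)
        exact ⟨hL φ h1.1, h1.2⟩
  adm := by
    intro p q hpq l hl hlp
    by_cases hp : p ∈ r.J
    · rw [lift_K_old hp] at hlp
      by_cases hq : q ∈ r.J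
      · rw [lift_K_old hq]
        have hE : r.E p q := (hs.E p hp q hq).1 hpq
        have hl' : l ∈ (r.Z p q).L := by rw [← hs.Z p q hE]; exact hl
        exact hb.val.adm p q hE l hl' hlp
      · rw [lift_K_new hq]
        have h1 : l ∈ s.K p := by rw [hs.K p hp]; exact hs.fL p hp q hq hpq l hl
        exact hv.adm p q hpq l hl h1
    · rw [lift_K_new hp] at hlp
      have h1 := hv.adm p q hpq l hl hlp
      by_cases hq : q ∈ r.J
      · rw [lift_K_old hq]
        rw [hs.K q hq] at h1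
        exact hb.le q hq h1
      · rw [lift_K_new hq]
        exact h1
  sh := by
    intro p q hpq f hf hfp
    by_cases hp : p ∈ r.J
    · by_cases hq : q ∈ r.J
      · have hE : r.E p q := (hs.E p hp q hq).1 hpq
        have hZ := hs.Z p q hE
        have hf' : (r.Z p q).Has f := by rw [← hZ]; exact hf
        have hE' := hb.val.Es p q hE
        have hf'' : (r.Z q p).Has f := by rw [hb.val.symZ q p]; exact hf'
        have hZr : r.Z q p = r.Z p q := hb.val.symZ q p
        rw [mem_lift_old hq]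
        rcases (mem_lift_old hp).1 hfp with ⟨h1, h2⟩ | ⟨h1, h2⟩
        · refine Or.inl ⟨hv.sh p q hpq f hf h1, fun h3 => h2 ?_⟩
          rcases h3 with ⟨w, hw, rfl, h4⟩ | ⟨w, hw, y, hy, h4⟩
          · refine Or.inl ⟨w, hb.sh q p hE' w ?_ hw, rfl, fun h5 => h4 ?_⟩
            · rw [hZr]; exact hf'
            · exact hb.val.sh p q hE _ hf' h5
          · have hwy : w ∈ (r.Z p q).N ∧ y ∈ (r.Z p q).N := by
              rcases h4 with rfl | rfl
              · exact hf'
              · exact ⟨hf'.2, hf'.1⟩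
            refine Or.inr ⟨w, hb.sh q p hE' w (by rw [hZr]; exact hwy.1) hw, y, fun h5 => hy ?_, h4⟩
            exact hb.val.sh p q hE (.nd y) hwy.2 h5
        · refine Or.inr ⟨hb.val.sh p q hE f hf' h1, fun h3 => h2 ?_⟩
          have key : ∀ φ : Prom, φ ∈ (r.Z p q).Q → φ.lab ∈ Ks q → φ.lab ∈ Ks p := by
            intro φ hφ hlab
            have h6 : φ.lab ∈ (r.Z q p).L := by
              rw [hZr]
              exact prom_lab ((hb.val.good p q hE).z3 φ hφ)
            exact hb.adm q p hE' _ h6 hlab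
          cases f with
          | nd x => trivial
          | it x a v => trivial
          | bl x a => trivial
          | ds x y => trivial
          | pr φ => exact key φ hf' h3
          | rl φ a => exact key φ hf' h3
      · rw [mem_lift_new hq]
        rcases (mem_lift_old hp).1 hfp with ⟨h1, h2⟩ | ⟨h1, h2⟩
        · exact hv.sh p q hpq f hf h1
        · exfalso
          apply h2
          have key : ∀ φ : Prom, φ ∈ (s.Z p q).Q → φ.lab ∈ Ks p := fun φ hφ =>
            hs.fL p hp q hq hpq _ (prom_lab ((hv.good p q hpq).z3 φ hφ))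
          cases f with
          | nd x => trivial
          | it x a v => trivial
          | bl x a => trivial
          | ds x y => trivial
          | pr φ => exact key φ hf
          | rl φ a => exact key φ hf
    · have h1 := hv.sh p q hpq f hf ((mem_lift_new hp).1 hfp)
      by_cases hq : q ∈ r.J
      · rw [mem_lift_old hq]
        refine Or.inl ⟨h1, fun h3 => ?_⟩
        have hE' := hv.Es p q hpq
        have hZs : s.Z q p = s.Z p q := hv.symZ q p
        have hN : ∀ x ∈ (s.Z p q).N, x ∉ Pt q := by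
          intro x hx
          rw [← hZs] at hx
          exact hs.fN q hq p hp hE' x hx
        rcases h3 with ⟨w, hw, rfl, h4⟩ | ⟨w, hw, y, hy, rfl | rfl⟩
        · exact hN w hf hw
        · exact hN w hf.1 hw
        · exact hN w hf.2 hw
      · exact (mem_lift_new hq).2 h1

theorem lift_ext (hb : LBase Lg r Ks Pt) (hs : LInv r Ks Pt m s) (hs' : LInv r Ks Pt m s')
    (hv' : Valid Lg' s') (hev : ∀ φ b e, Lg' φ → Ev φ b e → ∃ Z : Fr Prom, ContIn e Z ∧
      ∀ x ∈ Z.N, x.Free φ.lab)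
    (h : Ext s s') : Ext (lift r Ks Pt m s) (lift r Ks Pt m s') where
  n := h.n
  rt := rfl
  J := h.J
  E := h.E
  K := by
    intro j hj
    by_cases hjr : j ∈ r.J
    · rw [lift_K_old hjr, lift_K_old hjr]
    · rw [lift_K_new hjr, lift_K_new hjr]
      exact h.K j hj
  Z := h.Z
  X := by
    intro j hj
    refine ⟨?_, ?_⟩
    · rintro f (h1 | h1)
      · exact Or.inl ⟨(h.X j hj).sub h1.1, h1.2⟩
      · exact Or.inr h1
    · intro x a v h1 h2
      rw [nd_lift] at h1
      rw [it_lift] at h2 ⊢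
      exact (h.X j hj).it x a v h1 h2
  rel := by
    intro j hj φ hφ a ha ha'
    -- the release is a release of the given step
    have h1 : .rl φ a ∈ s'.X j := by
      rcases ha with h2 | h2
      · exact h2.1
      · exact absurd (Or.inr h2) ha'
    have h2 : .rl φ a ∉ s.X j := fun h3 => ha' (rl_of_mem h3)
    have hj' : j ∈ s'.J := h.J hj
    have hpr' : .pr φ ∈ s'.X j := (hv'.val j hj').rlx φ a h1
    have hpr : .pr φ ∈ s.X j := by
      rcases hφ with h3 | h3
      · exact h3.1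
      · exfalso
        apply h3.2.2
        have h4 := (hv'.val j hj').leg φ hpr'
        rw [hs'.K j h3.1] at h4
        exact h4.2
    obtain ⟨e, ρ, he, hem⟩ := h.rel j hj φ hpr a h1 h2
    have hleg := ((hv'.val j hj').leg φ hpr').1
    have hnew : ∀ c ∈ e.J, c ≠ e.rt → ρ c ∉ r.J := fun c hc hc' h3 => hem.new c hc hc' (hs.J h3)
    refine ⟨e, ρ, he, ⟨hem.n, hem.rt, hem.J, hem.inj, hem.new, hem.E, hem.E', ?_, hem.Z, ?_⟩⟩
    · intro c hc hc'
      rw [lift_K_new (hnew c hc hc')]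
      exact hem.K c hc hc'
    · intro c hc
      have hX := hem.X c hc
      by_cases hc' : c = e.rt
      · subst hc'
        rw [hem.rt] at hX ⊢
        by_cases hjr : j ∈ r.J
        · have hlab : φ.lab ∈ Ks j := by
            have h4 := ((hv'.val j hj').leg φ hpr').2
            rwa [hs'.K j hjr] at h4
          refine ⟨⟨?_, ?_⟩, ?_⟩
          · intro f hf
            refine (mem_lift_old hjr).2 (Or.inl ⟨hX.sub hf, ?_⟩)
            obtain ⟨Z, hZ, hfree⟩ := hev φ a e hleg he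
            have hhas := hZ.X e.rt f hf
            rintro (⟨w, hw, rfl, h4⟩ | ⟨w, hw, y, hy, rfl | rfl⟩)
            · exact hb.nf j hjr w hw _ hlab (hfree w hhas)
            · exact hb.nf j hjr w hw _ hlab (hfree w hhas.1)
            · exact hb.nf j hjr w hw _ hlab (hfree w hhas.2)
          · intro x b v h4 h5
            rw [it_lift] at h5
            exact hX.it x b v h4 h5
          · intro ψ b h4 h5
            rcases h5 with h5 | h5
            · exact hX.rl ψ b h4 h5.1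
            · exfalso
              apply h5.2.2
              have h6 := (hv'.val j hj').leg ψ (hX.sub h4)
              rw [hs'.K j hjr] at h6
              exact h6.2
        · have hiff : ∀ f, f ∈ (lift r Ks Pt m s').X j ↔ f ∈ s'.X j := fun f => mem_lift_new hjr
          refine ⟨⟨fun f hf => (hiff f).2 (hX.sub hf), ?_⟩, ?_⟩
          · intro x b v h4 h5
            exact hX.it x b v h4 ((hiff _).1 h5)
          · intro ψ b h4 h5
            exact hX.rl ψ b h4 ((hiff _).1 h5)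
      · have hiff : ∀ f, f ∈ (lift r Ks Pt m s').X (ρ c) ↔ f ∈ s'.X (ρ c) :=
          fun f => mem_lift_new (hnew c hc hc')
        refine ⟨⟨fun f hf => (hiff f).2 (hX.sub hf), ?_⟩, ?_⟩
        · intro x b v h4 h5
          exact hX.it x b v h4 ((hiff _).1 h5)
        · intro ψ b h4 h5
          exact hX.rl ψ b h4 ((hiff _).1 h5)

theorem br_lab {s0 x y : Node} {K : Set D} (hK : LabIn K s0) (hx : s0 ≤ x) (hy : ¬ s0 ≤ y)
    {d : D} (hd : Br x y d) : d ∈ K := by
  obtain ⟨ν, h1, h2, h3⟩ := hd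
  rw [Nd.le_def] at hx hy
  push Not at hy
  obtain ⟨μ, e, he, hne⟩ := hy
  have hxe := hx μ e he
  have hνμ : ν ≤ μ := by
    by_contra hlt
    push Not at hlt
    rw [← h1 μ hlt] at hne
    exact hne hxe
  have h4 : s0.f ν ≠ none := s0.dc ν μ hνμ (by rw [he]; exact Option.some_ne_none _)
  cases h5 : s0.f ν with
  | none => exact absurd h5 h4
  | some g =>
    have h6 := hx ν g h5
    rw [h2] at h6
    rw [Option.some_injective _ h6]
    exact hK ν g h5

theorem lift_time (hb : LBase Lg r Ks Pt) (hs : LInv r Ks Pt m s) {a : ℕ}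
    {C : ℕ → Set Node} (h : Time s s' a C) :
    Time (lift r Ks Pt m s) (lift r Ks Pt m s') a C := by
  have hC : ∀ j, ∀ x ∈ C j, j ∈ s.J ∧ .nd x ∈ s.X j := by
    intro j x hx
    rcases h.cone j with h1 | ⟨hj, s0, -, h1⟩
    · rw [h1] at hx; exact absurd hx (Set.notMem_empty x)
    · exact ⟨hj, ((h1 x).1 hx).1⟩
  refine ⟨h.n, rfl, h.J, h.E, ?_, h.Z, ?_, ?_, ?_, ?_, ?_, ?_, ?_⟩
  · funext j
    ext d
    show ((j ∈ r.J → d ∈ r.K j) ∧ (j ∉ r.J → d ∈ s'.K j)) ↔
      ((j ∈ r.J → d ∈ r.K j) ∧ (j ∉ r.J → d ∈ s.K j))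
    rw [h.K]
  · intro j f
    constructor
    · rintro (⟨h1, h2⟩ | h1)
      · rcases (h.X j f).1 h1 with h3 | h3
        · exact Or.inl (Or.inl ⟨h3, h2⟩)
        · exact Or.inr h3
      · exact Or.inl (Or.inr h1)
    · rintro ((⟨h1, h2⟩ | h1) | ⟨x, hx, h1⟩)
      · exact Or.inl ⟨(h.X j f).2 (Or.inl h1), h2⟩
      · exact Or.inr h1
      · refine Or.inl ⟨(h.X j f).2 (Or.inr ⟨x, hx, h1⟩), fun hjr h2 => ?_⟩
        obtain ⟨hj, hnd⟩ := hC j x hx
        rcases h2 with ⟨w, hw, h3, h4⟩ | ⟨w, hw, y, hy, h3⟩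
        · rcases h1 with rfl | rfl
          · cases h3
          · obtain ⟨rfl, rfl⟩ := Fact.bl.inj h3
            by_cases hnr : .nd x ∈ r.X j
            · exact h.free j x hx (hs.blk j hjr x hnr)
            · exact hs.np j hjr x hnd hnr hw
        · rcases h1 with rfl | rfl <;> rcases h3 with h3 | h3 <;> cases h3
  · intro j
    rcases h.cone j with h1 | ⟨hj, s0, h0, h1⟩
    · exact Or.inl h1
    · refine Or.inr ⟨hj, s0, ?_, fun x => ?_⟩
      · intro ν d hd
        have h2 := h0 ν d hd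
        by_cases hjr : j ∈ r.J
        · rw [lift_K_old hjr]
          rw [hs.K j hjr] at h2
          exact hb.le j hjr h2
        · rw [lift_K_new hjr]
          exact h2
      · rw [nd_lift]
        exact h1 x
  · exact h.sh
  · exact h.mn
  · intro j x hx h1
    exact h.free j x hx (bl_of_lift h1)
  · intro j x hx y hy hyC h1 v h2
    rw [nd_lift] at hy
    rw [it_lift] at h2
    exact h.tok j x hx y hy hyC (h1.imp ds_of_lift ds_of_lift) v h2
  · intro j φ hφ x hx y hy hyC d hd hle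
    rw [nd_lift] at hy
    rcases hφ with h1 | h1
    · exact rl_of_mem (h.rel j φ h1.1 x hx y hy hyC d hd hle)
    · exfalso
      apply h1.2.2
      rcases h.cone j with h2 | ⟨hj, s0, h0, h2⟩
      · rw [h2] at hx; exact absurd hx (Set.notMem_empty x)
      · have h3 : ¬ s0 ≤ y := fun h4 => hyC ((h2 y).2 ⟨hy, h4⟩)
        have h4 := br_lab h0 ((h2 x).1 hx).2 h3 hd
        rw [hs.K j h1.1] at h4
        exact hb.low j h1.1 hle h4

/-- one step is lifted to one step -/
theorem lift_step (hb : LBase Lg r Ks Pt) (hs : LInv r Ks Pt m s) (hs' : LInv r Ks Pt m s')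
    (hL : ∀ φ, Lg' φ → Lg φ)
    (hev : ∀ φ b e, Lg' φ → Ev φ b e → ∃ Z : Fr Prom, ContIn e Z ∧ ∀ x ∈ Z.N, x.Free φ.lab)
    (h : Step Lg' s s') : Step Lg (lift r Ks Pt m s) (lift r Ks Pt m s') := by
  refine ⟨lift_valid hb hs' h.1 hL, ?_⟩
  rcases h.2 with h1 | ⟨a, C, h1⟩
  · exact Or.inl (lift_ext hb hs hs' h.1 hev h1)
  · exact Or.inr ⟨a, C, lift_time hb hs h1⟩

end

end Pool.Agent.DL.P
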