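import Pool.Agent.DL.P.Defs

/-!
# DELTA (MP_d362fb_lc): adding facts at a component (push), waiting, monotonicity along steps
-/

set_option autoImplicit false

namespace Pool.Agent.DL.P

open H5.DL Relation

/-- `j` is reached from `p` by edges whose frame has the fact `f` -/
def Con (r : Sys Prom) (f : Fact Prom) : ℕ → ℕ → Prop :=
  ReflTransGen (fun a b => r.E a b ∧ (r.Z a b).Has f)

/-- add the facts of `F` at the component `p` (and at all components which share them) -/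
def Sys.push (r : Sys Prom) (p : ℕ) (F : Set (Fact Prom)) : Sys Prom :=
  { r with X := fun j => r.X j ∪ {f | f ∈ F ∧ Con r f p j} }

/-- `F` may be added at the component `p` -/
structure Addable (Lg : Prom → Prop) (r : Sys Prom) (p : ℕ) (F : Set (Fact Prom)) : Prop where
  fin : F.Finite
  it : ∀ x m v, .it x m v ∈ F → .it x m v ∈ r.X p ∨ .nd x ∉ r.X p ∧ .bl x m ∈ F ∧ v < r.n
  bl : ∀ x m, .bl x m ∈ F → .nd x ∈ r.X p ∨ .nd x ∈ F
  ds : ∀ x y, .ds x y ∈ F → (.nd x ∈ r.X p ∨ .nd x ∈ F) ∧ (.nd y ∈ r.X p ∨ .nd y ∈ F)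
  rl : ∀ φ m, .rl φ m ∈ F → .rl φ m ∈ r.X p ∨ .pr φ ∉ r.X p ∧ .pr φ ∈ F
  fn : ∀ x m v v', .it x m v ∈ F → .it x m v' ∈ F → v = v'
  pr : ∀ φ, .pr φ ∈ F → Lg φ ∧ φ.lab ∈ r.K p

theorem Prom.In.lab_mem {Z : Fr Prom} {φ : Prom} (h : φ.In Z) : φ.lab ∈ Z.L := by
  cases φ with
  | nil k => exact h
  | mk k c nd lb R => exact h.1

section

variable {Lg : Prom → Prop} {r : Sys Prom}

theorem Con.symm (h : Valid Lg r) {f : Fact Prom} {p j : ℕ} (hc : Con r f p j) :
    Con r f j p := by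
  induction hc with
  | refl => exact ReflTransGen.refl
  | tail _ hab ih =>
    refine ReflTransGen.head ⟨h.Es _ _ hab.1, ?_⟩ ih
    rw [h.symZ]
    exact hab.2

theorem Con.mem (h : Valid Lg r) {f : Fact Prom} {p j : ℕ} (hc : Con r f p j)
    (hf : f ∈ r.X p) : f ∈ r.X j := by
  induction hc with
  | refl => exact hf
  | tail _ hab ih => exact h.sh _ _ hab.1 _ hab.2 ih

theorem Con.mem_iff (h : Valid Lg r) {f : Fact Prom} {p j : ℕ} (hc : Con r f p j) :
    f ∈ r.X p ↔ f ∈ r.X j :=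
  ⟨fun hf => hc.mem h hf, fun hf => (hc.symm h).mem h hf⟩

theorem Con.mem_J (h : Valid Lg r) {f : Fact Prom} {p j : ℕ} (hc : Con r f p j)
    (hp : p ∈ r.J) : j ∈ r.J := by
  induction hc with
  | refl => exact hp
  | tail _ hab _ => exact h.EJ _ _ (h.Es _ _ hab.1)

theorem Con.lab (h : Valid Lg r) {φ : Prom} {p j : ℕ} (hc : Con r (.pr φ) p j)
    (hp : φ.lab ∈ r.K p) : φ.lab ∈ r.K j := by
  induction hc with
  | refl => exact hp
  | tail _ hab ih =>
    exact h.adm _ _ hab.1 _ ((h.good _ _ hab.1).z3 _ hab.2).lab_mem ih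

theorem Con.ds_left {x y : Node} {p j : ℕ} (hc : Con r (.ds x y) p j) : Con r (.nd x) p j := by
  induction hc with
  | refl => exact ReflTransGen.refl
  | tail _ h ih => exact ih.tail ⟨h.1, h.2.1⟩

theorem Con.ds_right {x y : Node} {p j : ℕ} (hc : Con r (.ds x y) p j) : Con r (.nd y) p j := by
  induction hc with
  | refl => exact ReflTransGen.refl
  | tail _ h ih => exact ih.tail ⟨h.1, h.2.2⟩

theorem mem_push {p j : ℕ} {F : Set (Fact Prom)} {f : Fact Prom} :
    f ∈ (r.push p F).X j ↔ f ∈ r.X j ∨ f ∈ F ∧ Con r f p j := Iff.rfl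

theorem mem_push_self {p : ℕ} {F : Set (Fact Prom)} {f : Fact Prom} :
    f ∈ (r.push p F).X p ↔ f ∈ r.X p ∨ f ∈ F :=
  ⟨fun h => h.imp_right fun h' => h'.1, fun h => h.imp_right fun h' => ⟨h', ReflTransGen.refl⟩⟩

/-- an item of the pushed content is old or belongs to a new node -/
theorem push_it (h : Valid Lg r) {p : ℕ} {F : Set (Fact Prom)} (hF : Addable Lg r p F)
    {j : ℕ} {x : Node} {m v : ℕ} (hf : .it x m v ∈ (r.push p F).X j) :
    .it x m v ∈ r.X j ∨ .it x m v ∈ F ∧ Con r (.nd x) p j ∧ .nd x ∉ r.X j ∧ .bl x m ∈ F ∧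
      v < r.n := by
  rcases hf with hf | ⟨hf, hc⟩
  · exact Or.inl hf
  · rcases hF.it x m v hf with h1 | ⟨h1, h2, h3⟩
    · exact Or.inl (Con.mem h hc h1)
    · have hc' : Con r (.nd x) p j := hc
      exact Or.inr ⟨hf, hc', fun h' => h1 ((hc'.mem_iff h).2 h'), h2, h3⟩

/-- a released position of the pushed content is old or belongs to a new promise -/
theorem push_rl (h : Valid Lg r) {p : ℕ} {F : Set (Fact Prom)} (hF : Addable Lg r p F)
    {j : ℕ} {φ : Prom} {m : ℕ} (hf : .rl φ m ∈ (r.push p F).X j) :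
    .rl φ m ∈ r.X j ∨ .rl φ m ∈ F ∧ Con r (.pr φ) p j ∧ .pr φ ∉ r.X j ∧ .pr φ ∈ F := by
  rcases hf with hf | ⟨hf, hc⟩
  · exact Or.inl hf
  · rcases hF.rl φ m hf with h1 | ⟨h1, h2⟩
    · exact Or.inl (Con.mem h hc h1)
    · have hc' : Con r (.pr φ) p j := hc
      exact Or.inr ⟨hf, hc', fun h' => h1 ((hc'.mem_iff h).2 h'), h2⟩

theorem push_nd (h : Valid Lg r) {p : ℕ} {F : Set (Fact Prom)} {j : ℕ} {x : Node}
    (hc : Con r (.nd x) p j) (hx : .nd x ∈ r.X p ∨ .nd x ∈ F) :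
    .nd x ∈ (r.push p F).X j := by
  rcases hx with hx | hx
  · exact Or.inl (hc.mem h hx)
  · exact Or.inr ⟨hx, hc⟩

theorem Valid.push (h : Valid Lg r) {p : ℕ} (hp : p ∈ r.J) {F : Set (Fact Prom)}
    (hF : Addable Lg r p F) : Valid Lg (r.push p F) where
  fin := h.fin
  rt := h.rt
  Es := h.Es
  EJ := h.EJ
  forest := h.forest
  low := h.low
  symZ := h.symZ
  good := h.good
  nX j hj := by
    have h1 := h.nX j hj
    refine Set.eq_empty_of_forall_notMem fun f hf => ?_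
    rcases hf with hf | ⟨_, hc⟩
    · rw [h1] at hf; exact hf
    · exact hj (hc.mem_J h hp)
  nZ := h.nZ
  val j hj := by
    have hv := h.val j hj
    refine ⟨hv.fin.union (hF.fin.subset fun f hf => hf.1), ?_, ?_, ?_, ?_, ?_, ?_⟩
    · intro x m v hf
      rcases push_it h hF hf with h1 | ⟨_, h2, _, h3, h4⟩
      · exact ⟨Or.inl (hv.itb x m v h1).1, (hv.itb x m v h1).2⟩
      · exact ⟨Or.inr ⟨h3, h2⟩, h4⟩
    · rintro x m (hf | ⟨hf, hc⟩)
      · exact Or.inl (hv.blx x m hf)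
      · exact push_nd h hc (hF.bl x m hf)
    · rintro x y (hf | ⟨hf, hc⟩)
      · exact ⟨Or.inl (hv.dsx x y hf).1, Or.inl (hv.dsx x y hf).2⟩
      · exact ⟨push_nd h hc.ds_left (hF.ds x y hf).1, push_nd h hc.ds_right (hF.ds x y hf).2⟩
    · intro φ m hf
      rcases push_rl h hF hf with h1 | ⟨_, h2, _, h3⟩
      · exact Or.inl (hv.rlx φ m h1)
      · exact Or.inr ⟨h3, h2⟩
    · intro x m v v' h1 h2
      rcases push_it h hF h1 with h1 | ⟨h1, _, h3, _, _⟩
      · rcases push_it h hF h2 with h2 | ⟨_, _, h4, _, _⟩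
        · exact hv.fn x m v v' h1 h2
        · exact absurd (hv.blx _ _ (hv.itb _ _ _ h1).1) h4
      · rcases push_it h hF h2 with h2 | ⟨h2, _, _, _, _⟩
        · exact absurd (hv.blx _ _ (hv.itb _ _ _ h2).1) h3
        · exact hF.fn x m v v' h1 h2
    · rintro φ (hf | ⟨hf, hc⟩)
      · exact hv.leg φ hf
      · exact ⟨(hF.pr φ hf).1, Con.lab h hc (hF.pr φ hf).2⟩
  adm := h.adm
  sh a b hab f hf hfa := by
    rcases hfa with hfa | ⟨hfa, hc⟩
    · exact Or.inl (h.sh a b hab f hf hfa)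
    · exact Or.inr ⟨hfa, hc.tail ⟨hab, hf⟩⟩

theorem push_ex (h : Valid Lg r) {p : ℕ} {F : Set (Fact Prom)}
    (hF : Addable Lg r p F) (j : ℕ) : Ex (r.X j) ((r.push p F).X j) where
  sub _ hf := Or.inl hf
  it x m v hx hf := by
    rcases push_it h hF hf with h1 | ⟨_, _, h3, _, _⟩
    · exact h1
    · exact absurd hx h3
  rl φ m hx hf := by
    rcases push_rl h hF hf with h1 | ⟨_, _, h3, _⟩
    · exact h1
    · exact absurd hx h3

theorem push_ext (h : Valid Lg r) {p : ℕ} {F : Set (Fact Prom)}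
    (hF : Addable Lg r p F) : Ext r (r.push p F) where
  n := rfl
  rt := rfl
  J := subset_rfl
  E _ _ _ _ := Iff.rfl
  K _ _ := rfl
  Z _ _ _ := rfl
  X j _ := (push_ex h hF j).toGr
  rel j _ φ hφ m hm hm' := absurd ((push_ex h hF j).rl φ m hφ hm) hm'

theorem push_step (h : Valid Lg r) {p : ℕ} (hp : p ∈ r.J) {F : Set (Fact Prom)}
    (hF : Addable Lg r p F) : Step Lg r (r.push p F) :=
  ⟨h.push hp hF, Or.inl (push_ext h hF)⟩

/-! ### instances -/

theorem addable_nodes (p : ℕ) {A : Set Node} (hA : A.Finite) {T : Set (Node × Node)}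
    (hT : T.Finite) (h1 : ∀ t ∈ T, t.1 ∈ A ∧ t.2 ∈ A) :
    Addable Lg r p (Fact.nd '' A ∪ (fun t : Node × Node => Fact.ds t.1 t.2) '' T) where
  fin := (hA.image _).union (hT.image _)
  it x m v hf := by
    rcases hf with ⟨y, _, hy⟩ | ⟨y, _, hy⟩ <;> cases hy
  bl x m hf := by
    rcases hf with ⟨y, _, hy⟩ | ⟨y, _, hy⟩ <;> cases hy
  ds x y hf := by
    rcases hf with ⟨z, _, hz⟩ | ⟨z, hz, hz'⟩
    · cases hz
    · cases hz'
      exact ⟨Or.inr (Or.inl ⟨_, (h1 z hz).1, rfl⟩), Or.inr (Or.inl ⟨_, (h1 z hz).2, rfl⟩)⟩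
  rl φ m hf := by
    rcases hf with ⟨y, _, hy⟩ | ⟨y, _, hy⟩ <;> cases hy
  fn x m v v' hf := by
    rcases hf with ⟨y, _, hy⟩ | ⟨y, _, hy⟩ <;> cases hy
  pr φ hf := by
    rcases hf with ⟨y, _, hy⟩ | ⟨y, _, hy⟩ <;> cases hy

theorem addable_block (p : ℕ) {x : Node} {m : ℕ} (hx : .nd x ∈ r.X p) :
    Addable Lg r p {.bl x m} where
  fin := Set.finite_singleton _
  it y k v hf := by cases hf
  bl y k hf := by
    cases hf
    exact Or.inl hx
  ds y z hf := by cases hf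
  rl φ k hf := by cases hf
  fn y k v v' hf := by cases hf
  pr φ hf := by cases hf

theorem addable_prom (p : ℕ) {φ : Prom} (h1 : Lg φ) (h2 : φ.lab ∈ r.K p) :
    Addable Lg r p {.pr φ} where
  fin := Set.finite_singleton _
  it y k v hf := by cases hf
  bl y k hf := by cases hf
  ds y z hf := by cases hf
  rl ψ k hf := by cases hf
  fn y k v v' hf := by cases hf
  pr ψ hf := by
    cases hf
    exact ⟨h1, h2⟩

/-! ### blocking a position at a family of nodes closed under sharing -/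

/-- block the position `m` at the nodes in `B j`, for all components `j` -/
def Sys.block (r : Sys Prom) (m : ℕ) (B : ℕ → Set Node) : Sys Prom :=
  { r with X := fun j => r.X j ∪ {f | ∃ x ∈ B j, .nd x ∈ r.X j ∧ f = .bl x m} }

theorem Valid.block (h : Valid Lg r) (m : ℕ) {B : ℕ → Set Node}
    (hB : ∀ p q, r.E p q → ∀ x ∈ (r.Z p q).N, .nd x ∈ r.X p → x ∈ B p → x ∈ B q) :
    Valid Lg (r.block m B) where
  fin := h.fin
  rt := h.rt
  Es := h.Es
  EJ := h.EJ
  forest := h.forest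
  low := h.low
  symZ := h.symZ
  good := h.good
  nX j hj := by
    have h1 := h.nX j hj
    refine Set.eq_empty_of_forall_notMem fun f hf => ?_
    rcases hf with hf | ⟨x, _, hx, _⟩
    · rw [h1] at hf; exact hf
    · rw [h1] at hx; exact hx
  nZ := h.nZ
  val j hj := by
    have hv := h.val j hj
    refine ⟨hv.fin.union ?_, ?_, ?_, ?_, ?_, ?_, ?_⟩
    · have h1 : {f : Fact Prom | ∃ x ∈ B j, .nd x ∈ r.X j ∧ f = .bl x m} ⊆
          (fun f : Fact Prom => match f with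
            | .nd x => Fact.bl x m
            | g => g) '' r.X j := by
        rintro f ⟨x, _, hx, rfl⟩
        exact ⟨.nd x, hx, rfl⟩
      exact (hv.fin.image _).subset h1
    · rintro x k v (hf | ⟨y, _, _, hf⟩)
      · exact ⟨Or.inl (hv.itb x k v hf).1, (hv.itb x k v hf).2⟩
      · cases hf
    · rintro x k (hf | ⟨y, _, hy, hf⟩)
      · exact Or.inl (hv.blx x k hf)
      · cases hf
        exact Or.inl hy
    · rintro x y (hf | ⟨z, _, _, hf⟩)
      · exact ⟨Or.inl (hv.dsx x y hf).1, Or.inl (hv.dsx x y hf).2⟩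
      · cases hf
    · rintro φ k (hf | ⟨z, _, _, hf⟩)
      · exact Or.inl (hv.rlx φ k hf)
      · cases hf
    · rintro x k v v' (hf | ⟨z, _, _, hf⟩) (hf' | ⟨z', _, _, hf'⟩)
      · exact hv.fn x k v v' hf hf'
      · cases hf'
      · cases hf
      · cases hf
    · rintro φ (hf | ⟨z, _, _, hf⟩)
      · exact hv.leg φ hf
      · cases hf
  adm := h.adm
  sh a b hab f hf hfa := by
    rcases hfa with hfa | ⟨x, hx, hx', rfl⟩
    · exact Or.inl (h.sh a b hab f hf hfa)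
    · exact Or.inr ⟨x, hB a b hab x hf hx' hx, h.sh a b hab (.nd x) hf hx', rfl⟩

theorem block_ex (m : ℕ) (B : ℕ → Set Node) (j : ℕ) : Ex (r.X j) ((r.block m B).X j) where
  sub _ hf := Or.inl hf
  it x k v _ hf := by
    rcases hf with hf | ⟨y, _, _, hf⟩
    · exact hf
    · cases hf
  rl φ k _ hf := by
    rcases hf with hf | ⟨y, _, _, hf⟩
    · exact hf
    · cases hf

theorem block_ext (m : ℕ) (B : ℕ → Set Node) : Ext r (r.block m B) where
  n := rfl
  rt := rfl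
  J := subset_rfl
  E _ _ _ _ := Iff.rfl
  K _ _ := rfl
  Z _ _ _ := rfl
  X j _ := (block_ex m B j).toGr
  rel j _ φ hφ k hm hm' := absurd ((block_ex m B j).rl φ k hφ hm) hm'

theorem block_step (h : Valid Lg r) (m : ℕ) {B : ℕ → Set Node}
    (hB : ∀ p q, r.E p q → ∀ x ∈ (r.Z p q).N, .nd x ∈ r.X p → x ∈ B p → x ∈ B q) :
    Step Lg r (r.block m B) := ⟨h.block m hB, Or.inl (block_ext m B)⟩

/-! ### waiting -/

/-- later time -/
def Sys.wait (r : Sys Prom) (k : ℕ) : Sys Prom := { r with n := r.n + k }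

theorem Valid.wait (h : Valid Lg r) (k : ℕ) : Valid Lg (r.wait k) where
  fin := h.fin
  rt := h.rt
  Es := h.Es
  EJ := h.EJ
  forest := h.forest
  low := h.low
  symZ := h.symZ
  good := h.good
  nX := h.nX
  nZ := h.nZ
  val j hj := by
    have hv := h.val j hj
    exact ⟨hv.fin, fun x m v hf => ⟨(hv.itb x m v hf).1,
      (hv.itb x m v hf).2.trans_le (Nat.le_add_right _ _)⟩, hv.blx, hv.dsx, hv.rlx, hv.fn, hv.leg⟩
  adm := h.adm
  sh := h.sh

theorem time_wait (r : Sys Prom) : Time r (r.wait 1) 0 (fun _ => ∅) where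
  n := rfl
  rt := rfl
  J := rfl
  E := rfl
  K := rfl
  Z := rfl
  X _ _ := ⟨fun h => Or.inl h, fun h => h.elim id fun ⟨_, hx, _⟩ => hx.elim⟩
  cone _ := Or.inl rfl
  sh _ _ _ _ _ h := h
  mn _ _ h := h.elim
  free _ _ h := h.elim
  tok _ _ h := h.elim
  rel _ _ _ _ h := h.elim

theorem wait_step (h : Valid Lg r) : Step Lg r (r.wait 1) :=
  ⟨h.wait 1, Or.inr ⟨0, fun _ => ∅, time_wait r⟩⟩

theorem wait_steps (h : Valid Lg r) (k : ℕ) : Steps Lg r (r.wait k) := by
  induction k with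
  | zero => exact ReflTransGen.refl
  | succ k ih => exact ih.tail (wait_step (h.wait k))

theorem wait_stepsIn {K : Set D} (h : Valid Lg r) (hK : Below K r) (k : ℕ) :
    StepsIn Lg K r (r.wait k) := by
  induction k with
  | zero => exact ReflTransGen.refl
  | succ k ih => exact ih.tail ⟨wait_step (h.wait k), hK⟩

/-! ### monotonicity along steps -/

/-- what is kept along all steps -/
structure Later (r r' : Sys Prom) : Prop where
  n : r.n ≤ r'.n
  rt : r'.rt = r.rt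
  J : r.J ⊆ r'.J
  E : ∀ p ∈ r.J, ∀ q ∈ r.J, r'.E p q ↔ r.E p q
  K : ∀ j ∈ r.J, r'.K j = r.K j
  Z : ∀ p q, r.E p q → r'.Z p q = r.Z p q
  X : ∀ j ∈ r.J, r.X j ⊆ r'.X j

theorem Later.refl (r : Sys Prom) : Later r r :=
  ⟨le_rfl, rfl, subset_rfl, fun _ _ _ _ => Iff.rfl, fun _ _ => rfl, fun _ _ _ => rfl,
    fun _ _ => subset_rfl⟩

theorem Later.trans {r1 r2 r3 : Sys Prom} (h : Valid Lg r1) (h1 : Later r1 r2)
    (h2 : Later r2 r3) : Later r1 r3 where
  n := h1.n.trans h2.n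
  rt := h2.rt.trans h1.rt
  J := h1.J.trans h2.J
  E p hp q hq := (h2.E p (h1.J hp) q (h1.J hq)).trans (h1.E p hp q hq)
  K j hj := (h2.K j (h1.J hj)).trans (h1.K j hj)
  Z p q hpq := (h2.Z p q ((h1.E p (h.EJ p q hpq) q (h.EJ q p (h.Es p q hpq))).2 hpq)).trans
    (h1.Z p q hpq)
  X j hj := (h1.X j hj).trans (h2.X j (h1.J hj))

theorem Step.later {r' : Sys Prom} (h : Step Lg r r') : Later r r' := by
  rcases h.2 with h1 | ⟨m, C, h1⟩
  · exact ⟨h1.n.ge, h1.rt, h1.J, h1.E, h1.K, h1.Z, fun j hj => (h1.X j hj).sub⟩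
  · exact ⟨by rw [h1.n]; exact Nat.le_succ _, h1.rt, h1.J.ge, fun p _ q _ => by rw [h1.E],
      fun j _ => by rw [h1.K], fun p q _ => by rw [h1.Z], fun j _ f hf => (h1.X j f).2 (Or.inl hf)⟩

theorem Steps.valid {r' : Sys Prom} (h : Valid Lg r) (hs : Steps Lg r r') : Valid Lg r' := by
  induction hs with
  | refl => exact h
  | tail _ h2 _ => exact h2.1

theorem Steps.later {r' : Sys Prom} (h : Valid Lg r) (hs : Steps Lg r r') : Later r r' := by
  induction hs with
  | refl => exact Later.refl r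
  | tail _ h2 ih => exact ih.trans h h2.later

theorem StepsIn.steps {K : Set D} {r' : Sys Prom} (hs : StepsIn Lg K r r') : Steps Lg r r' := by
  induction hs with
  | refl => exact ReflTransGen.refl
  | tail _ h ih => exact ih.tail h.1

end

end Pool.Agent.DL.P
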