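import Pool.Agent.DL.P.Fam

/-!
# DELTA: restriction of systems and steps to a closed family
-/

set_option autoImplicit false

namespace Pool.Agent.DL.P

open H5.DL

theorem Forest.mono {J J' : Set ℕ} {E E' : ℕ → ℕ → Prop} (h : Forest J E) (hJ : J' ⊆ J)
    (hE : ∀ p q, E' p q → E p q) : Forest J' E' := by
  intro b hb
  obtain ⟨rk, h1, h2, h3⟩ := h b (hJ hb)
  exact ⟨rk, fun v hv hne => h1 v (hJ hv) hne, fun p q h => h2 p q (hE p q h),
    fun v a a' ha ha' => h3 v a a' (hE v a ha) (hE v a' ha')⟩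

theorem hasK_of_supp {κ : Fam} {r : Sys Prom} (hκ : κ.Full r) {Lg : Prom → Prop}
    (hv : Valid Lg r) {j : ℕ} (hj : j ∈ r.J) {f : Fact Prom} (hf : f ∈ r.X j) : κ.Has j f := by
  have h := hv.val j hj
  cases f with
  | nd x => exact hκ.x j x hf
  | it x m v => exact hκ.x j x (h.blx x m (h.itb x m v hf).1)
  | bl x m => exact hκ.x j x (h.blx x m hf)
  | ds x y => exact ⟨hκ.x j x (h.dsx x y hf).1, hκ.x j y (h.dsx x y hf).2⟩
  | pr φ => exact hκ.q j φ hf
  | rl φ m => exact hκ.q j φ (h.rlx φ m hf)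

theorem res_full {Lg : Prom → Prop} {κ : Fam} {r : Sys Prom} (hv : Valid Lg r) (hκ : κ.Full r) :
    r.res κ = r := by
  have hJ : ∀ j, j ∈ r.J → κ.c j := hκ.c
  have hE : ∀ p q, r.E p q → κ.c p ∧ κ.c q := fun p q h =>
    ⟨hJ p (hv.EJ p q h), hJ q (hv.EJ q p (hv.Es p q h))⟩
  have hZ : ∀ p q, (r.res κ).Z p q = r.Z p q := by
    intro p q
    by_cases h : r.E p q
    · have h1 := hE p q h
      ext x <;> simp [Sys.res, h1.1, h1.2]
    · have h1 := hv.nZ p q h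
      ext x <;> simp [Sys.res, h1, Fr.emp]
  have hX : ∀ j, (r.res κ).X j = r.X j := by
    intro j
    ext f
    constructor
    · intro h; exact h.1
    · intro h
      have hj : j ∈ r.J := by
        by_contra hj
        rw [hv.nX j hj] at h
        exact h
      exact ⟨h, hJ j hj, hasK_of_supp hκ hv hj h⟩
  refine Sys.ext rfl rfl ?_ ?_ rfl ?_ ?_
  · ext j
    exact ⟨fun h => h.1, fun h => ⟨h, hJ j h⟩⟩
  · funext p q
    exact propext ⟨fun h => h.1, fun h => ⟨h, hE p q h⟩⟩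
  · funext p q
    exact hZ p q
  · funext j
    exact hX j

theorem res_Z {κ : Fam} {r : Sys Prom} {p q : ℕ} (hp : κ.c p) (hq : κ.c q) :
    (r.res κ).Z p q = r.Z p q := by
  ext x <;> simp [Sys.res, hp, hq]

theorem res_Z_emp {κ : Fam} {r : Sys Prom} {p q : ℕ} (h : ¬ (κ.c p ∧ κ.c q)) :
    (r.res κ).Z p q = Fr.emp := by
  ext x <;> simp [Sys.res, h, Fr.emp] <;> tauto

theorem res_valid {Lg : Prom → Prop} {κ : Fam} {r : Sys Prom} (hv : Valid Lg r)
    (hrt : κ.c r.rt) (hκ : κ.Sh r) : Valid Lg (r.res κ) where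
  fin := hv.fin.subset fun j h => h.1
  rt := ⟨hv.rt, hrt⟩
  Es p q h := ⟨hv.Es p q h.1, h.2.2, h.2.1⟩
  EJ p q h := ⟨hv.EJ p q h.1, h.2.1⟩
  forest := hv.forest.mono (fun j h => h.1) (fun p q h => h.1)
  low j h := hv.low j h.1
  symZ p q := by
    by_cases h : κ.c p ∧ κ.c q
    · rw [res_Z h.1 h.2, res_Z h.2 h.1, hv.symZ]
    · rw [res_Z_emp h, res_Z_emp fun h' => h ⟨h'.2, h'.1⟩]
  good p q h := by
    rw [res_Z h.2.1 h.2.2]
    exact hv.good p q h.1
  nX j h := by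
    ext f
    constructor
    · rintro ⟨h1, h2, -⟩
      by_cases hj : j ∈ r.J
      · exact absurd ⟨hj, h2⟩ h
      · rw [hv.nX j hj] at h1
        exact h1
    · intro h1
      exact absurd h1 (Set.notMem_empty f)
  nZ p q h := by
    by_cases h1 : κ.c p ∧ κ.c q
    · rw [res_Z h1.1 h1.2]
      exact hv.nZ p q fun h2 => h ⟨h2, h1⟩
    · exact res_Z_emp h1
  val j h := by
    have h1 := hv.val j h.1
    exact
      { fin := h1.fin.subset fun f hf => hf.1
        itb := fun x m v hf => ⟨⟨(h1.itb x m v hf.1).1, hf.2.1, hf.2.2⟩, (h1.itb x m v hf.1).2⟩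
        blx := fun x m hf => ⟨h1.blx x m hf.1, hf.2.1, hf.2.2⟩
        dsx := fun x y hf => ⟨⟨(h1.dsx x y hf.1).1, hf.2.1, hf.2.2.1⟩,
          ⟨(h1.dsx x y hf.1).2, hf.2.1, hf.2.2.2⟩⟩
        rlx := fun φ m hf => ⟨h1.rlx φ m hf.1, hf.2.1, hf.2.2⟩
        fn := fun x m v v' hf hf' => h1.fn x m v v' hf.1 hf'.1
        leg := fun φ hf => h1.leg φ hf.1 }
  adm p q h l hl hp := by
    rw [res_Z h.2.1 h.2.2] at hl
    exact hv.adm p q h.1 l hl hp
  sh p q h f hf hp := by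
    rw [res_Z h.2.1 h.2.2] at hf
    have h1 := hv.sh p q h.1 f hf hp.1
    refine ⟨h1, h.2.2, ?_⟩
    have h2 := hv.val p (hv.EJ p q h.1)
    have h3 := hp.2.2
    have h4 := hp.1
    cases f with
    | nd x => exact hκ.x p q h.1 h.2.1 h.2.2 x hf h4 h3
    | it x m v =>
      exact hκ.x p q h.1 h.2.1 h.2.2 x hf (h2.blx x m (h2.itb x m v h4).1) h3
    | bl x m => exact hκ.x p q h.1 h.2.1 h.2.2 x hf (h2.blx x m h4) h3
    | ds x y =>
      exact ⟨hκ.x p q h.1 h.2.1 h.2.2 x hf.1 (h2.dsx x y h4).1 h3.1,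
        hκ.x p q h.1 h.2.1 h.2.2 y hf.2 (h2.dsx x y h4).2 h3.2⟩
    | pr φ => exact hκ.q p q h.1 h.2.1 h.2.2 φ hf h4 h3
    | rl φ m => exact hκ.q p q h.1 h.2.1 h.2.2 φ hf (h2.rlx φ m h4) h3

theorem res_ext {κ : Fam} {r r' : Sys Prom} (h : Ext r r') (hκ : κ.Rel r r')
    (hEv : ∀ j φ m e, .pr φ ∈ r.X j → Ev φ m e → ∀ a b, e.E a b → a ∈ e.J ∧ b ∈ e.J) :
    Ext (r.res κ) (r'.res κ) where
  n := h.n
  rt := h.rt
  J j hj := ⟨h.J hj.1, hj.2⟩
  E p hp q hq := by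
    constructor
    · intro h1; exact ⟨(h.E p hp.1 q hq.1).1 h1.1, h1.2⟩
    · intro h1; exact ⟨(h.E p hp.1 q hq.1).2 h1.1, h1.2⟩
  K j hj := h.K j hj.1
  Z p q hE := by
    rw [res_Z hE.2.1 hE.2.2, res_Z hE.2.1 hE.2.2]
    exact h.Z p q hE.1
  X j hj :=
    { sub := fun f hf => ⟨(h.X j hj.1).sub hf.1, hf.2⟩
      it := fun x m v h1 h2 => ⟨(h.X j hj.1).it x m v h1.1 h2.1, h2.2⟩ }
  rel j hj φ hφ m h1 h2 := by
    obtain ⟨e, ρ, he, hemb, hk⟩ := hκ j hj.1 hj.2 φ hφ.2.2 hφ.1 m h1.1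
      (fun h3 => h2 ⟨h3, h1.2⟩)
    have hEe := hEv j φ m e hφ.1 he
    have hEJ : ∀ a b, e.E a b → κ.c (ρ a) ∧ κ.c (ρ b) := fun a b hab =>
      ⟨(hk a (hEe a b hab).1).1, (hk b (hEe a b hab).2).1⟩
    refine ⟨e, ρ, he, ?_⟩
    exact
      { n := hemb.n
        rt := hemb.rt
        J := fun a ha => ⟨hemb.J a ha, (hk a ha).1⟩
        inj := hemb.inj
        new := fun a ha har hc => hemb.new a ha har hc.1
        E := fun a b hab => ⟨hemb.E a b hab, hEJ a b hab⟩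
        E' := fun a ha har w hw => hemb.E' a ha har w hw.1
        K := hemb.K
        Z := fun a b hab => by
          rw [res_Z (hEJ a b hab).1 (hEJ a b hab).2]
          exact hemb.Z a b hab
        X := fun a ha =>
          { sub := fun f hf => ⟨(hemb.X a ha).sub hf, (hk a ha).1, (hk a ha).2 f hf⟩
            it := fun x m v h1 h2 => (hemb.X a ha).it x m v h1 h2.1
            rl := fun ψ m h1 h2 => (hemb.X a ha).rl ψ m h1 h2.1 } }

theorem res_time {κ : Fam} {r r' : Sys Prom} {m : ℕ} {C : ℕ → Set Node} (h : Time r r' m C)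
    (hκ : ∀ p q, r.E p q → κ.c p → κ.c q → ∀ x ∈ (r.Z p q).N, .nd x ∈ r.X p → κ.x p x → κ.x q x) :
    Time (r.res κ) (r'.res κ) m (fun j => {x | x ∈ C j ∧ κ.c j ∧ κ.x j x}) := by
  have hC : ∀ j x, x ∈ C j → .nd x ∈ r.X j := by
    intro j x hx
    rcases h.cone j with h1 | ⟨-, s, -, h1⟩
    · rw [h1] at hx; exact absurd hx (Set.notMem_empty x)
    · exact ((h1 x).1 hx).1
  exact
    { n := h.n
      rt := h.rt
      J := by show {j | j ∈ r'.J ∧ κ.c j} = {j | j ∈ r.J ∧ κ.c j}; rw [h.J]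
      E := by
        show (fun p q => r'.E p q ∧ κ.c p ∧ κ.c q) = (fun p q => r.E p q ∧ κ.c p ∧ κ.c q)
        rw [h.E]
      K := h.K
      Z := by
        funext p q
        by_cases hc : κ.c p ∧ κ.c q
        · rw [res_Z hc.1 hc.2, res_Z hc.1 hc.2, h.Z]
        · rw [res_Z_emp hc, res_Z_emp hc]
      X := by
        intro j f
        constructor
        · rintro ⟨h1, h2, h3⟩
          rcases (h.X j f).1 h1 with h4 | ⟨x, hx, h4⟩
          · exact Or.inl ⟨h4, h2, h3⟩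
          · refine Or.inr ⟨x, ⟨hx, h2, ?_⟩, h4⟩
            rcases h4 with rfl | rfl
            · exact h3
            · exact h3
        · rintro (⟨h1, h2, h3⟩ | ⟨x, ⟨hx, h2, h3⟩, h4⟩)
          · exact ⟨(h.X j f).2 (Or.inl h1), h2, h3⟩
          · refine ⟨(h.X j f).2 (Or.inr ⟨x, hx, h4⟩), h2, ?_⟩
            rcases h4 with rfl | rfl
            · exact h3
            · exact h3
      cone := by
        intro j
        rcases h.cone j with h1 | ⟨hj, s, hs, h1⟩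
        · left
          ext x
          simp [h1]
        · by_cases hc : κ.c j
          · refine Or.inr ⟨⟨hj, hc⟩, s, hs, fun x => ?_⟩
            constructor
            · rintro ⟨h2, h3, h4⟩
              exact ⟨⟨((h1 x).1 h2).1, h3, h4⟩, ((h1 x).1 h2).2⟩
            · rintro ⟨⟨h2, h3, h4⟩, h5⟩
              exact ⟨(h1 x).2 ⟨h2, h5⟩, h3, h4⟩
          · left
            ext x
            simp [hc]
      sh := by
        rintro p q ⟨hE, hp, hq⟩ x hx ⟨h1, h2, h3⟩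
        rw [res_Z hp hq] at hx
        exact ⟨h.sh p q hE x hx h1, hq, hκ p q hE hp hq x hx (hC p x h1) h3⟩
      mn := fun j x hx => h.mn j x hx.1
      free := fun j x hx hb => h.free j x hx.1 hb.1
      tok := by
        rintro j x ⟨hx, hj, hxk⟩ y hy hyC htok v hv
        refine h.tok j x hx y hy.1 (fun hc => hyC ⟨hc, hy.2⟩) ?_ v hv.1
        rcases htok with h1 | h1
        · exact Or.inl h1.1
        · exact Or.inr h1.1
      rel := by
        rintro j φ hφ x ⟨hx, hj, hxk⟩ y hy hyC d hd hle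
        exact ⟨h.rel j φ hφ.1 x hx y hy.1 (fun hc => hyC ⟨hc, hy.2⟩) d hd hle, hφ.2⟩ }

theorem res_step {Lg : Prom → Prop} {κ : Fam} {r r' : Sys Prom} (h : Step Lg r r')
    (hrt : κ.c r'.rt) (hsh0 : κ.Sh r) (hsh : κ.Sh r') (hrel : κ.Rel r r')
    (hEv : ∀ j φ m e, .pr φ ∈ r.X j → Ev φ m e → ∀ a b, e.E a b → a ∈ e.J ∧ b ∈ e.J) :
    Step Lg (r.res κ) (r'.res κ) := by
  refine ⟨res_valid h.1 hrt hsh, ?_⟩
  rcases h.2 with h | ⟨m, C, h⟩
  · exact Or.inl (res_ext h hrel hEv)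
  · exact Or.inr ⟨m, _, res_time h hsh0.x⟩

end Pool.Agent.DL.P
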